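import Pool.Agent.Lib_helper85.NCMoment

set_option autoImplicit false
set_option linter.unusedSectionVars false

open MeasureTheory ENNReal

namespace Pool.Agent.Lib_helper85.Crossing

variable {N : ℕ}

lemma volume_collinear (x : Fin N → ℝ) {i j k : Fin N} (hij : i < j) (hjk : j < k) :
    (volume : Measure (Fin N → ℝ)) {y | y j = L x y (i, k) (x j)} = 0 := by
  set θ : ℝ := (x j - x i) / (x k - x i) with hθ
  set φ : (Fin N → ℝ) →ₗ[ℝ] ℝ :=
    (LinearMap.proj j : (Fin N → ℝ) →ₗ[ℝ] ℝ) - (LinearMap.proj i : (Fin N → ℝ) →ₗ[ℝ] ℝ) -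
      θ • ((LinearMap.proj k : (Fin N → ℝ) →ₗ[ℝ] ℝ) - (LinearMap.proj i : (Fin N → ℝ) →ₗ[ℝ] ℝ))
    with hφ
  have hset : {y : Fin N → ℝ | y j = L x y (i, k) (x j)} = (LinearMap.ker φ : Set (Fin N → ℝ)) := by
    ext y
    simp only [Set.mem_ofPred_eq, SetLike.mem_coe, LinearMap.mem_ker, hφ, LinearMap.sub_apply,
      LinearMap.smul_apply, LinearMap.proj_apply, smul_eq_mul, hθ]
    unfold L
    simp only
    constructor
    · intro h
      rw [h]
      ring
    · intro h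
      linear_combination h
  rw [hset]
  apply Measure.addHaar_submodule
  intro htop
  have h1 : (Pi.single j (1 : ℝ) : Fin N → ℝ) ∈ LinearMap.ker φ := by
    rw [htop]; trivial
  rw [LinearMap.mem_ker] at h1
  simp only [hφ, LinearMap.sub_apply, LinearMap.smul_apply, LinearMap.proj_apply, smul_eq_mul] at h1
  rw [Pi.single_eq_same, Pi.single_eq_of_ne hij.ne, Pi.single_eq_of_ne hjk.ne'] at h1
  norm_num at h1

lemma null_bad (N : ℕ) :
    (Measure.pi fun _ : Fin N => nu) {y | ¬ (GP (xx N) y ∧ ∀ i, 0 ≤ y i ∧ y i ≤ 1)} = 0 := by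
  have hres : (Measure.pi fun _ : Fin N => nu) =
      (volume : Measure (Fin N → ℝ)).restrict
        (Set.univ.pi fun _ : Fin N => Set.Icc (0 : ℝ) 1) := by
    rw [volume_pi, Measure.restrict_pi_pi]
    rfl
  have h1 : ∀ᵐ y ∂(Measure.pi fun _ : Fin N => nu), ∀ i, 0 ≤ y i ∧ y i ≤ 1 := by
    rw [hres]
    filter_upwards [ae_restrict_mem (MeasurableSet.univ_pi fun _ => measurableSet_Icc)] with y hy i
    exact hy i (Set.mem_univ i)
  have h2 : ∀ᵐ y ∂(Measure.pi fun _ : Fin N => nu), GP (xx N) y := by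
    unfold GP
    rw [ae_all_iff]; intro i
    rw [ae_all_iff]; intro j
    rw [ae_all_iff]; intro k
    by_cases hij : i < j
    · by_cases hjk : j < k
      · have h0 : (Measure.pi fun _ : Fin N => nu) {y | y j = L (xx N) y (i, k) (xx N j)} = 0 := by
          rw [hres]
          exact le_antisymm ((Measure.restrict_le_self _).trans
            (volume_collinear (xx N) hij hjk).le) zero_le
        rw [ae_iff]
        simpa [hij, hjk] using h0
      · exact Filter.Eventually.of_forall fun y _ h => absurd h hjk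
    · exact Filter.Eventually.of_forall fun y h => absurd h hij
  have h3 := h2.and h1
  rw [ae_iff] at h3
  exact h3

lemma term_le_Phi (lam : ℝ) {n : ℕ} (y : Fin N → ℝ) {M : Finset (Fin N × Fin N)}
    (hM : M ∈ AllM (Fin N) n) {F : Fin N × Fin N → Fin N} (hF : F ∈ Fs M) :
    Hf (xx N) M y * ∏ s ∈ M, wt lam (xx N) s (F s) y ≤ Phi lam N n y := by
  classical
  unfold Phi
  have h1 : (∑ F ∈ Fs M, Hf (xx N) M y * ∏ s ∈ M, wt lam (xx N) s (F s) y) ≤
      ∑ M ∈ AllM (Fin N) n, ∑ F ∈ Fs M, Hf (xx N) M y * ∏ s ∈ M, wt lam (xx N) s (F s) y :=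
    Finset.single_le_sum (f := fun M => ∑ F ∈ Fs M, Hf (xx N) M y *
      ∏ s ∈ M, wt lam (xx N) s (F s) y) (fun _ _ => zero_le) hM
  have h2 : Hf (xx N) M y * ∏ s ∈ M, wt lam (xx N) s (F s) y ≤
      ∑ F ∈ Fs M, Hf (xx N) M y * ∏ s ∈ M, wt lam (xx N) s (F s) y :=
    Finset.single_le_sum (f := fun F : Fin N × Fin N → Fin N => Hf (xx N) M y *
      ∏ s ∈ M, wt lam (xx N) s (F s) y) (fun _ _ => zero_le) hF
  exact h2.trans h1

/-- the existence of a good configuration -/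
theorem exists_good (n : ℕ) (hn : 1 ≤ n) :
    ∃ y : Fin (3 * n) → ℝ, GP (xx (3 * n)) y ∧ (∀ i, 0 ≤ y i ∧ y i ≤ 1) ∧
      Phi (384 * 2 ^ 44 * n) (3 * n) n y ≤ ENNReal.ofReal ((1 / 4) ^ n) := by
  have hn' : (0 : ℝ) < n := by exact_mod_cast hn
  have hlam : (0 : ℝ) < 384 * 2 ^ 44 * n := by positivity
  obtain ⟨y, hy, hyle⟩ := exists_notMem_null_le_lintegral
    (μ := Measure.pi fun _ : Fin (3 * n) => nu)
    (measurable_Phi (384 * 2 ^ 44 * n) (3 * n) n).aemeasurable (null_bad (3 * n))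
  have hy' : GP (xx (3 * n)) y ∧ ∀ i, 0 ≤ y i ∧ y i ≤ 1 := by
    by_contra hcon
    exact hy hcon
  refine ⟨y, hy'.1, hy'.2, hyle.trans ((lintegral_Phi_le hlam (3 * n) n).trans ?_)⟩
  have e1 : (4 * ((3 * n : ℕ) : ℝ) / (384 * 2 ^ 44 * n)) = 1 / 2 ^ 49 := by
    push_cast
    field_simp
    norm_num
  rw [e1]
  have e2 : ((2 : ℝ≥0∞) ^ (3 * n) * (2 ^ 44) ^ n) = ENNReal.ofReal (2 ^ (3 * n) * (2 ^ 44) ^ n) := by
    rw [ENNReal.ofReal_mul (by positivity), ENNReal.ofReal_pow (by norm_num),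
      ENNReal.ofReal_pow (by positivity), ENNReal.ofReal_pow (by norm_num)]
    norm_num
  rw [e2, ← ENNReal.ofReal_pow (by positivity), ← ENNReal.ofReal_mul (by positivity)]
  apply ENNReal.ofReal_le_ofReal
  apply le_of_eq
  rw [pow_mul, ← mul_pow, ← mul_pow]
  congr 1
  norm_num

end Pool.Agent.Lib_helper85.Crossing
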