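import Pool.Agent.Lib_helper47.Deg.Linear

/-! # Degree of freely equivariant maps -/

set_option autoImplicit false

open MeasureTheory Set Metric Filter Topology

namespace Pool.Agent.Deg47

variable {E : Type*} [NormedAddCommGroup E] [NormedSpace ℝ E] [FiniteDimensional ℝ E]
variable {G : Type*} [Group G] [Fintype G]

omit [Fintype G] in
/-- Degree of an equivariant map over a translate. -/
theorem deg_translate_equivariant (a b : G →* (E ≃L[ℝ] E)) {f : E → E} {W : Set E} (g : G)
    (hpos : 0 < ((a g : E ≃L[ℝ] E) : E →L[ℝ] E).det * ((b g : E ≃L[ℝ] E) : E →L[ℝ] E).det)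
    (hf : ∀ x ∈ W, f (a g x) = b g (f x)) (hW : Adm f W) :
    Adm f ((a g) '' W) ∧ deg f ((a g) '' W) = deg f W := by
  have hadm : Adm f ((a g) '' W) := by
    refine ⟨(a g).toHomeomorph.isOpenMap _ hW.isOpen, ?_, ?_⟩
    · have h1 : ContinuousOn (fun x => b g (f ((a g).symm x))) ((a g) '' W) := by
        refine (b g).continuous.comp_continuousOn (hW.cont.comp (a g).symm.continuous.continuousOn ?_)
        rintro _ ⟨x, hx, rfl⟩
        rw [(a g).symm_apply_apply]; exact hx
      refine h1.congr ?_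
      rintro _ ⟨x, hx, rfl⟩
      simp only [(a g).symm_apply_apply]
      exact hf x hx
    · have : ((a g) '' W) ∩ f ⁻¹' {0} = (a g) '' (W ∩ f ⁻¹' {0}) := by
        ext y
        simp only [mem_inter_iff, mem_image, mem_preimage, mem_singleton_iff]
        constructor
        · rintro ⟨⟨x, hx, rfl⟩, h⟩
          rw [hf x hx] at h
          exact ⟨x, ⟨hx, (map_eq_zero_iff (b g) (b g).injective).1 h⟩, rfl⟩
        · rintro ⟨x, ⟨hx, h0⟩, rfl⟩
          exact ⟨⟨x, hx, rfl⟩, by rw [hf x hx, h0, map_zero]⟩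
      rw [this]; exact hW.comp.image (a g).continuous
  refine ⟨hadm, ?_⟩
  have h1 := deg_comp_right hadm (a g)
  have h2 : (a g) ⁻¹' ((a g) '' W) = W := preimage_image_eq W (a g).injective
  rw [h2] at h1
  have hcongr : Adm (fun x => b g (f x)) W := by
    refine ⟨hW.isOpen, (b g).continuous.comp_continuousOn hW.cont, ?_⟩
    have : W ∩ (fun x => b g (f x)) ⁻¹' {0} = W ∩ f ⁻¹' {0} := by
      ext x
      simp only [mem_inter_iff, mem_preimage, mem_singleton_iff,
        map_eq_zero_iff (b g) (b g).injective]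
    rw [this]; exact hW.comp
  have h3 : deg (fun x => b g (f x)) W = deg (fun x => f (a g x)) W :=
    deg_congr hcongr (fun x hx => (hf x hx).symm)
  have h4 := deg_comp_left hW ((b g : E ≃L[ℝ] E) : E →L[ℝ] E) (det_equiv_ne_zero (b g))
  have h5 : deg (fun x => ((b g : E ≃L[ℝ] E) : E →L[ℝ] E) (f x)) W = deg (fun x => b g (f x)) W :=
    rfl
  rw [h5, h3, h1] at h4
  have hsa : (SignType.sign ((a g : E ≃L[ℝ] E) : E →L[ℝ] E).det : ℤ)
      = (SignType.sign ((b g : E ≃L[ℝ] E) : E →L[ℝ] E).det : ℤ) := by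
    rcases lt_or_gt_of_ne (det_equiv_ne_zero (a g)) with h | h
    · rw [sign_neg h, sign_neg (by nlinarith)]
    · rw [sign_pos h, sign_pos (by nlinarith)]
  rw [hsa] at h4
  refine mul_left_cancel₀ ?_ h4
  rcases lt_or_gt_of_ne (det_equiv_ne_zero (b g)) with h | h
  · rw [sign_neg h]; decide
  · rw [sign_pos h]; decide

/-- The core induction. -/
theorem ep_core (a b : G →* (E ≃L[ℝ] E))
    (hpos : ∀ g, 0 < ((a g : E ≃L[ℝ] E) : E →L[ℝ] E).det * ((b g : E ≃L[ℝ] E) : E →L[ℝ] E).det)
    (l : List (E × ℝ × ℝ)) :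
    (∀ p ∈ l, 0 < p.2.1 ∧ p.2.1 < p.2.2 ∧
      ∀ g : G, g ≠ 1 → ∀ x ∈ closedBall p.1 p.2.2, a g x ∉ closedBall p.1 p.2.2) →
    ∀ (f : E → E) (C : Set E), ContDiff ℝ 1 f → (∀ g x, f (a g x) = b g (f x)) →
      IsCompact C → (∀ g, ∀ x ∈ C, a g x ∈ C) → (∀ x ∈ frontier C, f x ≠ 0) →
      (∀ x ∈ C, f x = 0 → ∃ p ∈ l, ∃ g, a g x ∈ ball p.1 p.2.1) →
      (Fintype.card G : ℤ) ∣ deg f (interior C) := by
  classical
  induction l with
  | nil =>
    intro _ f C hf _ _ _ _ hz
    rw [deg_eq_zero isOpen_interior hf.continuous.continuousOn (fun x hx h0 => ?_)]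
    · exact dvd_zero _
    · obtain ⟨p, hp, _⟩ := hz x (interior_subset hx) h0
      simp at hp
  | cons p l ih =>
    intro hl f C hf heq hC hCinv hfr hz
    obtain ⟨c, r, R⟩ := p
    obtain ⟨hr, hrR, hdisj⟩ := hl (c, r, R) (by simp)
    simp only at hr hrR hdisj
    have hl' : ∀ p ∈ l, 0 < p.2.1 ∧ p.2.1 < p.2.2 ∧
      ∀ g : G, g ≠ 1 → ∀ x ∈ closedBall p.1 p.2.2, a g x ∉ closedBall p.1 p.2.2 :=
      fun p hp => hl p (List.mem_cons_of_mem _ hp)
    -- the group acts
    have amul : ∀ g h x, a (g * h) x = a g (a h x) := fun g h x => by rw [map_mul]; rfl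
    have aone : ∀ x, a 1 x = x := fun x => by rw [map_one]; rfl
    have bmul : ∀ g h x, b (g * h) x = b g (b h x) := fun g h x => by rw [map_mul]; rfl
    have bone : ∀ x, b 1 x = x := fun x => by rw [map_one]; rfl
    have ainv : ∀ g x, a g⁻¹ (a g x) = x := fun g x => by rw [← amul, inv_mul_cancel, aone]
    have ainv' : ∀ g x, a g (a g⁻¹ x) = x := fun g x => by rw [← amul, mul_inv_cancel, aone]
    -- the orbit of the ball
    obtain ⟨A, hA⟩ : ∃ A : Set E, A = ⋃ g : G, (a g) '' ball c r := ⟨_, rfl⟩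
    have hAo : IsOpen A := by
      rw [hA]; exact isOpen_iUnion (fun g => (a g).toHomeomorph.isOpenMap _ isOpen_ball)
    have hclA : closure A = ⋃ g : G, (a g) '' closedBall c r := by
      rw [hA, closure_iUnion_of_finite]
      refine iUnion_congr (fun g => ?_)
      rw [← closure_ball c hr.ne']
      exact ((a g).toHomeomorph.image_closure _).symm
    -- bump function
    obtain ⟨χ, hχc, hχ1, hχ0, hχle⟩ : ∃ χ : E → ℝ, ContDiff ℝ 1 χ ∧ (∀ x ∈ closedBall c r, χ x = 1) ∧
        (∀ x, x ∉ closedBall c R → χ x = 0) ∧ (∀ x, |χ x| ≤ 1) := by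
      obtain ⟨φ, hφ⟩ : ∃ φ : ContDiffBump c, φ = ⟨r, R, hr, hrR⟩ := ⟨_, rfl⟩
      refine ⟨φ, φ.contDiff, fun x hx => ?_, fun x hx => ?_, fun x => ?_⟩
      · exact φ.one_of_mem_closedBall (by rw [hφ]; exact hx)
      · refine φ.zero_of_le_dist ?_
        rw [hφ]
        rw [mem_closedBall, not_le] at hx
        exact hx.le
      · rw [abs_of_nonneg φ.nonneg]; exact φ.le_one
    obtain ⟨P, hP⟩ : ∃ P : E → E → E, P = fun y x => ∑ g : G, χ (a g⁻¹ x) • b g y := ⟨_, rfl⟩
    have hPc : ∀ y, ContDiff ℝ 1 (P y) := by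
      intro y
      rw [hP]
      refine ContDiff.sum (fun g _ => ?_)
      exact (hχc.comp (a g⁻¹).contDiff).smul contDiff_const
    have hPeq : ∀ y g x, P y (a g x) = b g (P y x) := by
      intro y g x
      rw [hP]
      simp only
      rw [map_sum]
      refine Fintype.sum_equiv (Equiv.mulLeft g⁻¹) _ _ (fun h => ?_)
      simp only [Equiv.coe_mulLeft]
      rw [map_smul, ← bmul, mul_inv_cancel_left, ← amul]
      simp
    have hPball : ∀ y, ∀ x ∈ closedBall c r, P y x = y := by
      intro y x hx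
      rw [hP]
      simp only
      rw [Finset.sum_eq_single 1]
      · rw [inv_one, aone, hχ1 x hx, one_smul, bone]
      · intro g _ hg
        rw [hχ0, zero_smul]
        refine hdisj g⁻¹ (inv_ne_one.2 hg) x (closedBall_subset_closedBall hrR.le hx)
      · intro h; exact absurd (Finset.mem_univ _) h
    obtain ⟨M, hM⟩ : ∃ M : ℝ, M = ∑ g : G, ‖((b g : E ≃L[ℝ] E) : E →L[ℝ] E)‖ := ⟨_, rfl⟩
    have hM0 : 0 ≤ M := by rw [hM]; exact Finset.sum_nonneg (fun g _ => norm_nonneg _)
    have hPM : ∀ y x, ‖P y x‖ ≤ M * ‖y‖ := by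
      intro y x
      rw [hP, hM, Finset.sum_mul]
      refine (norm_sum_le _ _).trans (Finset.sum_le_sum (fun g _ => ?_))
      rw [norm_smul, Real.norm_eq_abs]
      calc |χ (a g⁻¹ x)| * ‖b g y‖ ≤ 1 * ‖b g y‖ := by
            gcongr; exact hχle _
        _ = ‖((b g : E ≃L[ℝ] E) : E →L[ℝ] E) y‖ := by rw [one_mul]; rfl
        _ ≤ _ := ContinuousLinearMap.le_opNorm _ _
    -- lower bound
    obtain ⟨N, hN⟩ : ∃ N : Set E, N = ⋃ q ∈ {q | q ∈ (c, r, R) :: l}, ⋃ g : G,
      (fun x => a g x) ⁻¹' ball (q : E × ℝ × ℝ).1 q.2.1 := ⟨_, rfl⟩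
    have hNo : IsOpen N := by
      rw [hN]
      exact isOpen_biUnion (fun q _ => isOpen_iUnion (fun g =>
        isOpen_ball.preimage (a g).continuous))
    have hmemN : ∀ x, x ∈ N ↔ ∃ q ∈ (c, r, R) :: l, ∃ g, a g x ∈ ball q.1 q.2.1 := by
      intro x
      rw [hN]
      simp only [mem_iUnion, mem_preimage, mem_ofPred_eq, exists_prop]
    have hfrC : frontier C ⊆ C := hC.isClosed.frontier_subset
    have hcomp : IsCompact ((C \ N) ∪ frontier C) :=
      (hC.diff hNo).union (hC.of_isClosed_subset isClosed_frontier hfrC)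
    obtain ⟨δ, hδ, hδb⟩ := exists_lower_bound hcomp (f := f) hf.continuous.continuousOn (by
      rintro x (hx | hx) h0
      · exact hx.2 ((hmemN x).2 (hz x hx.1 h0))
      · exact hfr x hx h0)
    -- choice of `y`
    obtain ⟨y, hyn, hys⟩ : ∃ y : E, ‖y‖ < δ / (M + 1) ∧ -y ∉ f '' sphere c r := by
      let _ : MeasurableSpace E := borel E
      have : BorelSpace E := ⟨rfl⟩
      have h0 : (Measure.addHaar : Measure E) (f '' sphere c r) = 0 := by
        refine addHaar_image_eq_zero_of_differentiableOn_of_addHaar_eq_zero _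
          (hf.differentiable one_ne_zero).differentiableOn ?_
        exact Measure.addHaar_sphere_of_ne_zero _ _ hr.ne'
      have hdense : Dense (f '' sphere c r)ᶜ := by
        rw [← interior_eq_empty_iff_dense_compl]
        by_contra hne
        have hne' := nonempty_iff_ne_empty.2 hne
        have := isOpen_interior.measure_pos (Measure.addHaar : Measure E) hne'
        have h2 := measure_mono_null (μ := (Measure.addHaar : Measure E))
          (interior_subset (s := f '' sphere c r)) h0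
        exact this.ne' h2
      obtain ⟨s, hs, hsn⟩ := hdense.exists_dist_lt (0 : E)
        (show 0 < δ / (M + 1) by positivity)
      rw [dist_zero_left] at hsn
      exact ⟨-s, by rw [norm_neg]; exact hsn, by rw [neg_neg]; exact hs⟩
    obtain ⟨f', hf'⟩ : ∃ f' : E → E, f' = fun x => f x + P y x := ⟨_, rfl⟩
    have hf'x : ∀ x, f' x = f x + P y x := fun x => by rw [hf']
    have hPδ : ∀ x, ‖P y x‖ < δ := by
      intro x
      refine lt_of_le_of_lt (hPM y x) ?_
      have h1 : (M + 1) * ‖y‖ < δ := by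
        rw [lt_div_iff₀ (by positivity)] at hyn
        linarith
      nlinarith [norm_nonneg y]
    have hf'c : ContDiff ℝ 1 f' := by rw [hf']; exact hf.add (hPc y)
    have hf'eq : ∀ g x, f' (a g x) = b g (f' x) := by
      intro g x; rw [hf'x, hf'x, heq, hPeq, map_add]
    have hclose : ∀ x ∈ (C \ N) ∪ frontier C, ‖f' x - f x‖ < ‖f x‖ := by
      intro x hx
      rw [hf'x, add_sub_cancel_left]
      exact lt_of_lt_of_le (hPδ x) (hδb x hx)
    have hne' : ∀ x ∈ (C \ N) ∪ frontier C, f' x ≠ 0 := by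
      intro x hx h0
      have := hclose x hx
      rw [h0, zero_sub, norm_neg] at this
      exact lt_irrefl _ this
    have hsph : ∀ x ∈ sphere c r, f' x ≠ 0 := by
      intro x hx h0
      rw [hf'x, hPball y x (sphere_subset_closedBall hx)] at h0
      exact hys ⟨x, hx, eq_neg_of_add_eq_zero_left h0⟩
    have hsph' : ∀ g, ∀ x ∈ (a g) '' sphere c r, f' x ≠ 0 := by
      rintro g _ ⟨x, hx, rfl⟩ h0
      rw [hf'eq] at h0
      exact hsph x hx ((map_eq_zero_iff (b g) (b g).injective).1 h0)
    -- degrees over the interior of `C`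
    have hadm' : ∀ g : E → E, Continuous g → (∀ x ∈ frontier C, g x ≠ 0) →
        Adm g (interior C) := by
      intro g hg hgf
      refine ⟨isOpen_interior, hg.continuousOn, ?_⟩
      have : interior C ∩ g ⁻¹' {0} = C ∩ g ⁻¹' {0} := by
        ext x
        refine ⟨fun hx => ⟨interior_subset hx.1, hx.2⟩, fun hx => ⟨?_, hx.2⟩⟩
        by_contra hcon
        exact hgf x (by rw [hC.isClosed.frontier_eq]; exact ⟨hx.1, hcon⟩) hx.2
      rw [this]
      exact hC.inter_right (isClosed_singleton.preimage hg)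
    have hAdm := hadm' f hf.continuous hfr
    have hAdm' := hadm' f' hf'c.continuous (fun x hx => hne' x (Or.inr hx))
    have hdeg : deg f (interior C) = deg f' (interior C) := by
      obtain ⟨H, hH⟩ : ∃ H : ℝ → E → E, H = fun t x => f x + t • P y x := ⟨_, rfl⟩
      have h0 : H 0 = f := by rw [hH]; funext x; simp
      have h1 : H 1 = f' := by rw [hH, hf']; funext x; simp
      have hcl : IsClosed {x | ‖f x‖ ≤ ‖P y x‖} :=
        isClosed_le hf.continuous.norm (hPc y).continuous.norm
      have hKc : IsCompact (C ∩ {x | ‖f x‖ ≤ ‖P y x‖}) := hC.inter_right hcl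
      have hKi : C ∩ {x | ‖f x‖ ≤ ‖P y x‖} ⊆ interior C := by
        rintro x ⟨hxC, hx⟩
        by_contra hcon
        have h2 := hδb x (Or.inr (by rw [hC.isClosed.frontier_eq]; exact ⟨hxC, hcon⟩))
        have h3 := hPδ x
        simp only [mem_ofPred_eq] at hx
        linarith
      have := deg_homotopy H (isOpen_interior (s := C)) ?_ hKc hKi ?_
      · rwa [h0, h1] at this
      · rw [hH]
        have c1 : Continuous (fun p : ℝ × E => f p.2 + p.1 • P y p.2) :=
          (hf.continuous.comp continuous_snd).add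
            (continuous_fst.smul ((hPc y).continuous.comp continuous_snd))
        exact c1.continuousOn
      · intro t ht x hx h0
        refine ⟨interior_subset hx, ?_⟩
        rw [hH] at h0
        simp only at h0
        simp only [mem_ofPred_eq]
        rw [eq_neg_of_add_eq_zero_left h0, norm_neg, norm_smul, Real.norm_of_nonneg ht.1]
        exact mul_le_of_le_one_left (norm_nonneg _) ht.2
    rw [hdeg]
    -- boundary of the orbit
    have hbd : ∀ x, x ∈ closure A → x ∉ A → f' x ≠ 0 := by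
      intro x hx hxA
      rw [hclA, mem_iUnion] at hx
      obtain ⟨g, z, hz', rfl⟩ := hx
      refine hsph' g _ ⟨z, ?_, rfl⟩
      rw [mem_closedBall] at hz'
      rw [mem_sphere]
      refine le_antisymm hz' ?_
      by_contra hlt
      push Not at hlt
      refine hxA ?_
      rw [hA, mem_iUnion]
      exact ⟨g, z, hlt, rfl⟩
    have hAinv : ∀ g x, a g x ∈ A → x ∈ A := by
      intro g x hx
      rw [hA, mem_iUnion] at hx ⊢
      obtain ⟨h, z, hz', e⟩ := hx
      refine ⟨g⁻¹ * h, z, hz', ?_⟩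
      rw [amul, e, ainv]
    have himgC : ∀ g, (a g) '' C = C := by
      intro g
      ext x
      constructor
      · rintro ⟨z, hz', rfl⟩; exact hCinv g z hz'
      · intro hx; exact ⟨a g⁻¹ x, hCinv _ _ hx, ainv' g x⟩
    have himgi : ∀ g, (a g) '' interior C = interior C := by
      intro g
      have h1 := (a g).toHomeomorph.image_interior C
      have h2 : (a g).toHomeomorph '' C = C := himgC g
      rw [h2] at h1
      exact h1
    -- splitting
    have hintd : interior (C \ A) = interior C \ closure A := by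
      rw [sdiff_eq, interior_inter, interior_compl, ← sdiff_eq]
    have hV1 : IsOpen (interior C ∩ A) := isOpen_interior.inter hAo
    have hV2 : IsOpen (interior (C \ A)) := isOpen_interior
    have hsub : (interior C ∩ A) ∪ interior (C \ A) ⊆ interior C :=
      union_subset inter_subset_left (interior_mono sdiff_subset)
    have hzz : ∀ x ∈ interior C, f' x = 0 → x ∈ (interior C ∩ A) ∪ interior (C \ A) := by
      intro x hx h0
      by_cases hxA : x ∈ A
      · exact Or.inl ⟨hx, hxA⟩
      · right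
        rw [hintd]
        exact ⟨hx, fun hcl => hbd x hcl hxA h0⟩
    have hdis : Disjoint (interior C ∩ A) (interior (C \ A)) := by
      rw [disjoint_left]
      rintro x ⟨_, hxA⟩ hx
      exact (interior_subset hx).2 hxA
    have hadmU := hAdm'.mono (hV1.union hV2) hsub hzz
    rw [← deg_excision hAdm' (hV1.union hV2) hsub hzz, deg_union hV1 hV2 hdis hadmU]
    refine dvd_add ?_ ?_
    · -- the orbit of the ball
      have hzb : ∀ x ∈ interior C ∩ A, f' x = 0 → ∃ g ∈ (Finset.univ : Finset G),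
          x ∈ (a g) '' (interior C ∩ ball c r) := by
        rintro x ⟨hxC, hxA⟩ _
        rw [hA, mem_iUnion] at hxA
        obtain ⟨g, z, hz', rfl⟩ := hxA
        refine ⟨g, Finset.mem_univ _, z, ⟨?_, hz'⟩, rfl⟩
        rw [← himgi g] at hxC
        obtain ⟨w, hw, hwe⟩ := hxC
        rw [← (a g).injective hwe]; exact hw
      have hadm1 : Adm f' (interior C ∩ A) := by
        refine ⟨hV1, hf'c.continuous.continuousOn, ?_⟩
        have : (interior C ∩ A) ∩ f' ⁻¹' {0}
            = (C ∩ closure A) ∩ f' ⁻¹' {0} := by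
          ext x
          constructor
          · rintro ⟨⟨h1, h2⟩, h3⟩; exact ⟨⟨interior_subset h1, subset_closure h2⟩, h3⟩
          · rintro ⟨⟨h1, h2⟩, h3⟩
            refine ⟨⟨?_, ?_⟩, h3⟩
            · by_contra hcon
              exact hne' x (Or.inr (by rw [hC.isClosed.frontier_eq]; exact ⟨h1, hcon⟩)) h3
            · by_contra hcon
              exact hbd x h2 hcon h3
        rw [this]
        exact (hC.inter_right isClosed_closure).inter_right
          (isClosed_singleton.preimage hf'c.continuous)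
      have hopg : ∀ g, IsOpen ((a g) '' (interior C ∩ ball c r)) := fun g =>
        (a g).toHomeomorph.isOpenMap _ (isOpen_interior.inter isOpen_ball)
      have hsubg : ∀ g, (a g) '' (interior C ∩ ball c r) ⊆ interior C ∩ A := by
        rintro g _ ⟨z, ⟨h1, h2⟩, rfl⟩
        refine ⟨?_, ?_⟩
        · rw [← himgi g]; exact ⟨z, h1, rfl⟩
        · rw [hA, mem_iUnion]; exact ⟨g, z, h2, rfl⟩
      have hpd : ((Finset.univ : Finset G) : Set G).PairwiseDisjoint
          (fun g => (a g) '' (interior C ∩ ball c r)) := by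
        intro g _ h _ hgh
        rw [Function.onFun, disjoint_left]
        rintro _ ⟨z, ⟨_, hz1⟩, rfl⟩ ⟨w, ⟨_, hw1⟩, e⟩
        have e2 : a (h⁻¹ * g) z = w := by rw [amul, ← e, ainv]
        have hne : h⁻¹ * g ≠ 1 := by
          intro h1; exact hgh (inv_mul_eq_one.1 h1).symm
        have hsubb : ball c r ⊆ closedBall c R :=
          ball_subset_closedBall.trans (closedBall_subset_closedBall hrR.le)
        refine hdisj _ hne z (hsubb hz1) ?_
        rw [e2]; exact hsubb hw1
      rw [deg_eq_sum hadm1 Finset.univ (fun g => (a g) '' (interior C ∩ ball c r))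
        (fun g _ => hopg g) (fun g _ => hsubg g) hpd hzb]
      have hadmW : Adm f' (interior C ∩ ball c r) := by
        refine ⟨isOpen_interior.inter isOpen_ball, hf'c.continuous.continuousOn, ?_⟩
        have : (interior C ∩ ball c r) ∩ f' ⁻¹' {0}
            = (C ∩ closedBall c r) ∩ f' ⁻¹' {0} := by
          ext x
          constructor
          · rintro ⟨⟨h1, h2⟩, h3⟩; exact ⟨⟨interior_subset h1, ball_subset_closedBall h2⟩, h3⟩
          · rintro ⟨⟨h1, h2⟩, h3⟩
            refine ⟨⟨?_, ?_⟩, h3⟩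
            · by_contra hcon
              exact hne' x (Or.inr (by rw [hC.isClosed.frontier_eq]; exact ⟨h1, hcon⟩)) h3
            · rw [mem_closedBall] at h2
              rw [mem_ball]
              refine lt_of_le_of_ne h2 (fun he => hsph x he h3)
        rw [this]
        exact (hC.inter_right isClosed_closedBall).inter_right
          (isClosed_singleton.preimage hf'c.continuous)
      rw [Finset.sum_congr rfl (fun g _ => (deg_translate_equivariant a b g (hpos g)
        (fun x _ => hf'eq g x) hadmW).2)]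
      rw [Finset.sum_const, Finset.card_univ, nsmul_eq_mul]
      exact dvd_mul_right _ _
    · refine ih hl' f' (C \ A) hf'c hf'eq (hC.diff hAo) ?_ ?_ ?_
      · rintro g x ⟨hxC, hxA⟩
        exact ⟨hCinv g x hxC, fun h => hxA (hAinv g x h)⟩
      · intro x hx
        rw [(hC.diff hAo).isClosed.frontier_eq, hintd] at hx
        obtain ⟨⟨hxC, hxA⟩, hx2⟩ := hx
        by_cases hxi : x ∈ interior C
        · refine hbd x ?_ hxA
          by_contra hcon
          exact hx2 ⟨hxi, hcon⟩
        · exact hne' x (Or.inr (by rw [hC.isClosed.frontier_eq]; exact ⟨hxC, hxi⟩))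
      · rintro x ⟨hxC, hxA⟩ h0
        have hxN : x ∈ N := by
          by_contra hcon
          exact hne' x (Or.inl ⟨hxC, hcon⟩) h0
        obtain ⟨q, hq, g, hg⟩ := (hmemN x).1 hxN
        rcases List.mem_cons.1 hq with rfl | hq'
        · exfalso
          refine hxA ?_
          rw [hA, mem_iUnion]
          exact ⟨g⁻¹, a g x, hg, ainv g x⟩
        · exact ⟨q, hq', g, hg⟩

/-- **Degree of a freely equivariant map.** -/
theorem ep (a b : G →* (E ≃L[ℝ] E)) {f : E → E} {U : Set E} (h : Adm f U)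
    (hinv : ∀ g, ∀ x ∈ U, a g x ∈ U)
    (hfree : ∀ g : G, g ≠ 1 → ∀ x ∈ U, a g x ≠ x)
    (heq : ∀ g, ∀ x ∈ U, f (a g x) = b g (f x))
    (hpos : ∀ g, 0 < ((a g : E ≃L[ℝ] E) : E →L[ℝ] E).det * ((b g : E ≃L[ℝ] E) : E →L[ℝ] E).det) :
    (Fintype.card G : ℤ) ∣ deg f U := by
  classical
  have amul : ∀ g h x, a (g * h) x = a g (a h x) := fun g h x => by rw [map_mul]; rfl
  have aone : ∀ x, a 1 x = x := fun x => by rw [map_one]; rfl
  have bmul : ∀ g h x, b (g * h) x = b g (b h x) := fun g h x => by rw [map_mul]; rfl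
  have bone : ∀ x, b 1 x = x := fun x => by rw [map_one]; rfl
  have ainv : ∀ g x, a g⁻¹ (a g x) = x := fun g x => by rw [← amul, inv_mul_cancel, aone]
  have ainv' : ∀ g x, a g (a g⁻¹ x) = x := fun g x => by rw [← amul, mul_inv_cancel, aone]
  have binv : ∀ g x, b g⁻¹ (b g x) = x := fun g x => by rw [← bmul, inv_mul_cancel, bone]
  have binv' : ∀ g x, b g (b g⁻¹ x) = x := fun g x => by rw [← bmul, mul_inv_cancel, bone]
  -- an invariant compact neighbourhood
  obtain ⟨K₀, hK₀, hZK₀, hK₀U⟩ := exists_compact_between h.comp h.isOpen inter_subset_left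
  obtain ⟨C, hCdef⟩ : ∃ C : Set E, C = ⋃ g : G, (a g) '' K₀ := ⟨_, rfl⟩
  have hC : IsCompact C := by
    rw [hCdef]; exact isCompact_iUnion (fun g => hK₀.image (a g).continuous)
  have hK₀C : K₀ ⊆ C := by
    intro x hx
    rw [hCdef, mem_iUnion]
    exact ⟨1, x, hx, aone x⟩
  have hCU : C ⊆ U := by
    intro x hx
    rw [hCdef, mem_iUnion] at hx
    obtain ⟨g, z, hz, rfl⟩ := hx
    exact hinv g z (hK₀U hz)
  have hCinv : ∀ g, ∀ x ∈ C, a g x ∈ C := by
    intro g x hx
    rw [hCdef, mem_iUnion] at hx ⊢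
    obtain ⟨g', z, hz, rfl⟩ := hx
    exact ⟨g * g', z, hz, amul g g' z⟩
  have hzi : ∀ x ∈ U, f x = 0 → x ∈ interior C := fun x hx h0 =>
    interior_mono hK₀C (hZK₀ ⟨hx, h0⟩)
  have hfrC : frontier C ⊆ C := hC.isClosed.frontier_subset
  have hfr : ∀ x ∈ frontier C, f x ≠ 0 := by
    intro x hx h0
    have h1 := hzi x (hCU (hfrC hx)) h0
    rw [hC.isClosed.frontier_eq] at hx
    exact hx.2 h1
  -- small balls
  have hball : ∀ x ∈ C, ∃ R : ℝ, 0 < R ∧ ∀ g : G, g ≠ 1 → ∀ z ∈ closedBall x R,
      a g z ∉ closedBall x R := by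
    intro x hx
    have hex : ∀ g : G, ∃ R : ℝ, 0 < R ∧ (g ≠ 1 → ∀ z ∈ closedBall x R,
      a g z ∉ closedBall x R) := by
      intro g
      by_cases hg : g = 1
      · exact ⟨1, one_pos, fun h => absurd hg h⟩
      · have hne : a g x ≠ x := hfree g hg x (hCU hx)
        have hd : 0 < dist (a g x) x := dist_pos.2 hne
        have hcont : Tendsto (fun z => dist (a g z) x) (𝓝 x) (𝓝 (dist (a g x) x)) :=
          ((a g).continuous.dist continuous_const).tendsto x
        have hev := hcont.eventually (lt_mem_nhds (half_lt_self hd))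
        obtain ⟨R, hR, hRs⟩ := Metric.nhds_basis_closedBall.mem_iff.1 hev
        refine ⟨min R (dist (a g x) x / 2), lt_min hR (by positivity), fun _ z hz hz2 => ?_⟩
        have h1 : dist (a g x) x / 2 < dist (a g z) x :=
          hRs (closedBall_subset_closedBall (min_le_left _ _) hz)
        have h2 : dist (a g z) x ≤ dist (a g x) x / 2 :=
          (mem_closedBall.1 hz2).trans (min_le_right _ _)
        linarith
    choose R hR hRd using hex
    obtain ⟨R₀, hR₀, hR₀le⟩ : ∃ R₀ > 0, ∀ g, R₀ ≤ R g := by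
      obtain ⟨g₀, _, hmin⟩ := (Finset.univ : Finset G).exists_min_image R ⟨1, Finset.mem_univ _⟩
      exact ⟨R g₀, hR g₀, fun g => hmin g (Finset.mem_univ _)⟩
    refine ⟨R₀, hR₀, fun g hg z hz hz2 => ?_⟩
    exact hRd g hg z (closedBall_subset_closedBall (hR₀le g) hz)
      (closedBall_subset_closedBall (hR₀le g) hz2)
  choose! R hR hRd using hball
  obtain ⟨t, ht, hcov⟩ := hC.elim_nhds_subcover (fun x => ball x (R x / 2))
    (fun x hx => ball_mem_nhds x (half_pos (hR x hx)))
  obtain ⟨l, hl⟩ : ∃ l : List (E × ℝ × ℝ), l = t.toList.map (fun x => (x, R x / 2, R x)) :=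
    ⟨_, rfl⟩
  have hmeml : ∀ p, p ∈ l ↔ ∃ x ∈ t, (x, R x / 2, R x) = p := by
    intro p; rw [hl, List.mem_map]; simp
  -- lower bound and approximation
  obtain ⟨δ, hδ, hδb⟩ := exists_lower_bound
    (hC.of_isClosed_subset isClosed_frontier hfrC) (h.cont.mono (hfrC.trans hCU)) hfr
  obtain ⟨M, hM⟩ : ∃ M : ℝ, M = ∑ g : G, ‖((b g⁻¹ : E ≃L[ℝ] E) : E →L[ℝ] E)‖ := ⟨_, rfl⟩
  have hM0 : 0 ≤ M := by rw [hM]; exact Finset.sum_nonneg (fun g _ => norm_nonneg _)
  obtain ⟨g₀, hg₀, hg₀f, _⟩ := exists_approx hC (h.cont.mono hCU)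
    (show 0 < δ / (M + 1) by positivity)
  have hcard : (0 : ℝ) < Fintype.card G := by exact_mod_cast Fintype.card_pos
  obtain ⟨F, hF⟩ : ∃ F : E → E, F = fun x =>
    ((Fintype.card G : ℝ)⁻¹) • ∑ g : G, b g⁻¹ (g₀ (a g x)) := ⟨_, rfl⟩
  have hFc : ContDiff ℝ 1 F := by
    rw [hF]
    refine contDiff_const.smul (ContDiff.sum (fun g _ => ?_))
    exact (b g⁻¹).contDiff.comp (hg₀.comp (a g).contDiff)
  have hFeq : ∀ g x, F (a g x) = b g (F x) := by
    intro g x
    rw [hF]
    simp only
    rw [map_smul, map_sum]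
    congr 1
    refine Fintype.sum_equiv (Equiv.mulRight g) _ _ (fun k => ?_)
    simp only [Equiv.coe_mulRight]
    rw [mul_inv_rev, bmul, binv', amul]
  have hFclose : ∀ x ∈ C, ‖F x - f x‖ < δ := by
    intro x hx
    have e1 : F x - f x = ((Fintype.card G : ℝ)⁻¹) • ∑ g : G, b g⁻¹ (g₀ (a g x) - f (a g x)) := by
      rw [hF]
      simp only
      have : ∀ g : G, b g⁻¹ (g₀ (a g x) - f (a g x)) = b g⁻¹ (g₀ (a g x)) - f x := by
        intro g
        rw [map_sub, heq g x (hCU hx), binv]
      rw [Finset.sum_congr rfl (fun g _ => this g), Finset.sum_sub_distrib, Finset.sum_const,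
        Finset.card_univ, smul_sub, ← Nat.cast_smul_eq_nsmul ℝ, smul_smul,
        inv_mul_cancel₀ hcard.ne', one_smul]
    have h1 : ‖∑ g : G, b g⁻¹ (g₀ (a g x) - f (a g x))‖ ≤ M * (δ / (M + 1)) := by
      rw [hM, Finset.sum_mul, ← hM]
      refine (norm_sum_le _ _).trans (Finset.sum_le_sum (fun g _ => ?_))
      refine (ContinuousLinearMap.le_opNorm ((b g⁻¹ : E ≃L[ℝ] E) : E →L[ℝ] E) _).trans ?_
      gcongr
      exact (hg₀f _ (hCinv g x hx)).le
    rw [e1, norm_smul, norm_inv, Real.norm_of_nonneg hcard.le]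
    have h2 : (Fintype.card G : ℝ)⁻¹ ≤ 1 := by
      refine inv_le_one_of_one_le₀ ?_
      exact_mod_cast Fintype.card_pos
    have h3 : M * (δ / (M + 1)) < δ := by
      rw [mul_div_assoc', div_lt_iff₀ (by positivity)]
      nlinarith
    calc (Fintype.card G : ℝ)⁻¹ * ‖∑ g : G, b g⁻¹ (g₀ (a g x) - f (a g x))‖
        ≤ 1 * (M * (δ / (M + 1))) := by gcongr
      _ < δ := by linarith
  have hFfr : ∀ x ∈ frontier C, F x ≠ 0 := by
    intro x hx h0
    have h1 := hFclose x (hfrC hx)
    rw [h0, zero_sub, norm_neg] at h1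
    exact absurd (hδb x hx) (not_le.2 h1)
  have hdegF : deg f U = deg F (interior C) := by
    rw [← deg_excision h isOpen_interior (interior_subset.trans hCU) hzi]
    obtain ⟨H, hH⟩ : ∃ H : ℝ → E → E, H = fun t x => f x + t • (F x - f x) := ⟨_, rfl⟩
    have h0 : H 0 = f := by rw [hH]; funext x; simp
    have h1 : H 1 = F := by rw [hH]; funext x; simp
    have hfC : ContinuousOn f C := h.cont.mono hCU
    have hcl : IsClosed (C ∩ (fun x => ‖f x‖ - ‖F x - f x‖) ⁻¹' Iic 0) := by
      refine ContinuousOn.preimage_isClosed_of_isClosed ?_ hC.isClosed isClosed_Iic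
      exact hfC.norm.sub (hFc.continuous.continuousOn.sub hfC).norm
    have hKc : IsCompact (C ∩ (fun x => ‖f x‖ - ‖F x - f x‖) ⁻¹' Iic 0) :=
      hC.of_isClosed_subset hcl inter_subset_left
    have hKi : C ∩ (fun x => ‖f x‖ - ‖F x - f x‖) ⁻¹' Iic 0 ⊆ interior C := by
      rintro x ⟨hxC, hx⟩
      by_contra hcon
      have h2 := hδb x (by rw [hC.isClosed.frontier_eq]; exact ⟨hxC, hcon⟩)
      have h3 := hFclose x hxC
      rw [mem_preimage, mem_Iic] at hx
      linarith
    have := deg_homotopy H (isOpen_interior (s := C)) ?_ hKc hKi ?_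
    · rwa [h0, h1] at this
    · rw [hH]
      have c1 : ContinuousOn (fun p : ℝ × E => f p.2) (Icc (0 : ℝ) 1 ×ˢ interior C) :=
        (h.cont.mono (interior_subset.trans hCU)).comp continuousOn_snd (fun p hp => hp.2)
      have c2 : ContinuousOn (fun p : ℝ × E => F p.2) (Icc (0 : ℝ) 1 ×ˢ interior C) :=
        (hFc.continuous.comp continuous_snd).continuousOn
      exact c1.add (continuousOn_fst.smul (c2.sub c1))
    · intro s hs x hx h0
      refine ⟨interior_subset hx, ?_⟩
      rw [hH] at h0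
      simp only at h0
      rw [mem_preimage, mem_Iic, eq_neg_of_add_eq_zero_left h0, norm_neg, norm_smul,
        Real.norm_of_nonneg hs.1]
      have e : F x - -(s • (F x - f x)) = F x - f x := by
        rw [← eq_neg_of_add_eq_zero_left h0]
      rw [e]
      have := mul_le_of_le_one_left (norm_nonneg (F x - f x)) hs.2
      linarith
  rw [hdegF]
  refine ep_core a b hpos l ?_ F C hFc hFeq hC hCinv hFfr ?_
  · intro p hp
    obtain ⟨x, hx, rfl⟩ := (hmeml p).1 hp
    have hRx := hR x (ht x hx)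
    exact ⟨half_pos hRx, half_lt_self hRx, hRd x (ht x hx)⟩
  · intro x hx _
    obtain ⟨z, hz, hxz⟩ := mem_iUnion₂.1 (hcov hx)
    exact ⟨(z, R z / 2, R z), (hmeml _).2 ⟨z, hz, rfl⟩, 1, by rw [aone]; exact hxz⟩

end Pool.Agent.Deg47
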