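import Pool.Agent.Lib_helper16.RA.Basics

/-!
MP_20f8ce_gt, Block S3 : tangent cones at ideal vertices.
-/

open MeasureTheory Finset Filter Topology

namespace Pool.Agent.RA

namespace Cusp3

/-- Euclidean inner product. -/
def Eu {n : ℕ} (x y : M n) : ℝ := (∑ i, x.1 i * y.1 i) + x.2 * y.2

section eu
variable {n : ℕ}

lemma Eu_add_right (x y z : M n) : Eu x (y + z) = Eu x y + Eu x z := by
  simp only [Eu, Prod.fst_add, Prod.snd_add, Pi.add_apply, mul_add, sum_add_distrib]
  ring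

lemma Eu_smul_right (c : ℝ) (x y : M n) : Eu x (c • y) = c * Eu x y := by
  simp only [Eu, Prod.smul_fst, Prod.smul_snd, Pi.smul_apply, smul_eq_mul, mul_add, mul_sum]
  congr 1
  · exact sum_congr rfl fun i _ => by ring
  · ring

lemma Eu_self (x : M n) : Eu x x = E2 x := by
  simp only [Eu, E2, sq]

lemma E2_smul_add (c : ℝ) (f h : M n) :
    E2 (c • f + h) = c ^ 2 * E2 f + 2 * c * Eu f h + E2 h := by
  simp only [E2, Eu, Prod.fst_add, Prod.snd_add, Prod.smul_fst, Prod.smul_snd, Pi.add_apply,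
    Pi.smul_apply, smul_eq_mul]
  have h1 : ∀ i, (c * f.1 i + h.1 i) ^ 2
      = c ^ 2 * (f.1 i) ^ 2 + 2 * c * (f.1 i * h.1 i) + (h.1 i) ^ 2 := fun i => by ring
  simp only [h1, sum_add_distrib, ← mul_sum]
  ring

/-- coordinates adapted to the cusp -/
noncomputable def Psi {m : ℕ} (f : M n) (E : Fin m → M n) :
    M n →ₗ[ℝ] (ℝ × (Fin m → ℝ)) × ℝ where
  toFun x := ((-B x f, fun k => B x (E k)), Eu f x / E2 f)
  map_add' x y := by
    ext
    · simp [B_add_left]; ring
    · simp [B_add_left]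
    · simp [Eu_add_right, add_div]
  map_smul' c x := by
    ext
    · simp [B_smul_left]
    · simp [B_smul_left]
    · simp [Eu_smul_right, mul_div_assoc]

/-- nondegeneracy of the Lorentzian form -/
lemma eq_zero_of_B (f : M n) (h : ∀ x : M n, B f x = 0) : f = 0 := by
  have h1 := h (f.1, - f.2)
  have h2 : E2 f = 0 := by
    simp only [B] at h1
    simp only [E2, sq]
    linarith
  exact E2_eq_zero f h2

lemma Psi_inj {m : ℕ} (hm : m + 1 = n) (f : M n) (hf0 : f ≠ 0) (hf : B f f = 0)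
    (E : Fin m → M n) (hunit : ∀ k, B (E k) (E k) = 1)
    (horth : ∀ k l, k ≠ l → B (E k) (E l) = 0) (hperp : ∀ k, B f (E k) = 0) :
    Function.Injective (Psi f E) := by
  have hE : E2 f ≠ 0 := fun h => hf0 (E2_eq_zero f h)
  rw [injective_iff_map_eq_zero]
  intro x hx
  have hx1 : B x f = 0 := by
    have := congrArg (fun z => z.1.1) hx
    simpa [Psi] using this
  have hx2 : ∀ k, B x (E k) = 0 := fun k => by
    have := congrArg (fun z => z.1.2 k) hx
    simpa [Psi] using this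
  have hx3 : Eu f x = 0 := by
    have := congrArg (fun z => z.2) hx
    simpa [Psi, hE] using this
  by_contra hx0
  -- linear independence of x, f, E_k
  let v : Option (Option (Fin m)) → M n := fun o => o.elim x (fun o => o.elim f E)
  have hli : LinearIndependent ℝ v := by
    rw [Fintype.linearIndependent_iff]
    intro g hg
    simp only [Fintype.sum_option, v, Option.elim_none, Option.elim_some] at hg
    -- coefficients of E
    have hgE : ∀ k, g (some (some k)) = 0 := by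
      intro k
      have h1 := congrArg (fun z => B z (E k)) hg
      simp only [B_add_left, B_smul_left, B_sum_left, hx2, hperp, B_zero_left, mul_zero,
        zero_add] at h1
      rw [sum_eq_single k] at h1
      · simpa [hunit] using h1
      · intro l _ hl
        rw [horth l k hl, mul_zero]
      · simp
    simp only [hgE, zero_smul, sum_const_zero, add_zero] at hg
    have h2 := congrArg (fun z => Eu f z) hg
    simp only [Eu_add_right, Eu_smul_right, hx3, mul_zero, zero_add, Eu_self] at h2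
    have h3 : Eu f (0 : M n) = 0 := by simp [Eu]
    rw [h3] at h2
    have hgf : g (some none) = 0 := by
      rcases mul_eq_zero.1 h2 with h | h
      · exact h
      · exact absurd h hE
    rw [hgf, zero_smul, add_zero] at hg
    have hgx : g none = 0 := by
      rcases smul_eq_zero.1 hg with h | h
      · exact h
      · exact absurd h hx0
    rintro (_ | _ | k)
    · exact hgx
    · exact hgf
    · exact hgE k
  have hspan : Submodule.span ℝ (Set.range v) = ⊤ := by
    apply hli.span_eq_top_of_card_eq_finrank'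
    simp [M, Module.finrank_prod]
    omega
  apply hf0
  apply eq_zero_of_B
  intro y
  have hy : y ∈ Submodule.span ℝ (Set.range v) := by rw [hspan]; trivial
  refine Submodule.span_induction ?_ ?_ ?_ ?_ hy
  · rintro _ ⟨o, rfl⟩
    rcases o with _ | _ | k
    · simpa [v, B_comm f x] using hx1
    · simpa [v] using hf
    · simpa [v] using hperp k
  · simp
  · intro a b _ _ ha hb
    rw [B_add_right, ha, hb, add_zero]
  · intro c a _ ha
    rw [B_smul_right, ha, mul_zero]

end eu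

/-! ### Gaussian bounds -/

lemma integrable_E2 {n : ℕ} {δ : ℝ} (hδ : 0 < δ) :
    Integrable (fun x : M n => Real.exp (-(δ * E2 x))) := by
  have h1 : Integrable (fun x : Fin n → ℝ => ∏ i, Real.exp (-δ * (x i) ^ 2)) :=
    Integrable.fintype_prod (f := fun _ : Fin n => fun t : ℝ => Real.exp (-δ * t ^ 2))
      (fun _ => integrable_exp_neg_mul_sq hδ)
  have h2 : Integrable (fun x : ℝ => Real.exp (-δ * x ^ 2)) := integrable_exp_neg_mul_sq hδ
  have h3 := h1.mul_prod h2
  have h4 : (fun x : M n => Real.exp (-(δ * E2 x)))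
      = fun z : (Fin n → ℝ) × ℝ => (∏ i, Real.exp (-δ * (z.1 i) ^ 2)) * Real.exp (-δ * z.2 ^ 2) := by
    funext x
    rw [← Real.exp_sum, ← Real.exp_add]
    congr 1
    simp only [E2, mul_add, mul_sum, neg_mul, sum_neg_distrib, neg_add]
  rw [h4]
  exact h3

/-- the cone in the quotient by the null direction -/
def S' {m : ℕ} (a : Fin m → ℝ) : Set (ℝ × (Fin m → ℝ)) :=
  {y | ∀ k, y.2 k ≤ 0 ∧ -(a k * y.1) ≤ y.2 k}

lemma measurableSet_S' {m : ℕ} (a : Fin m → ℝ) : MeasurableSet (S' a) := by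
  have : S' a = ⋂ k, ({y : ℝ × (Fin m → ℝ) | y.2 k ≤ 0} ∩ {y | -(a k * y.1) ≤ y.2 k}) := by
    ext x; simp [S']
  rw [this]
  refine MeasurableSet.iInter fun k => MeasurableSet.inter ?_ ?_
  · exact (isClosed_le (by fun_prop) continuous_const).measurableSet
  · exact (isClosed_le (by fun_prop) (by fun_prop)).measurableSet

lemma gauss_dom {m : ℕ} (hm : 0 < m) (a : Fin m → ℝ) (ha : ∀ k, 0 < a k) {b : ℝ} (hb : 0 < b)
    (y : ℝ × (Fin m → ℝ)) (hy : y ∈ S' a) :
    Real.exp (-b * y.1 ^ 2) ≤ Real.exp (-(b / 2) * y.1 ^ 2) *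
      ∏ k, Real.exp (-(b / (2 * m * (a k) ^ 2)) * (y.2 k) ^ 2) := by
  rw [← Real.exp_sum, ← Real.exp_add]
  apply Real.exp_le_exp.2
  have hm' : (0 : ℝ) < m := by exact_mod_cast hm
  have h1 : ∀ k, (b / (2 * m * (a k) ^ 2)) * (y.2 k) ^ 2 ≤ b / (2 * m) * y.1 ^ 2 := by
    intro k
    have hk := hy k
    have hak := ha k
    have h2 : (y.2 k) ^ 2 ≤ (a k) ^ 2 * y.1 ^ 2 := by
      have : (y.2 k) ^ 2 ≤ (a k * y.1) ^ 2 := by
        apply sq_le_sq'
        · exact hk.2
        · linarith [hk.1, hk.2]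
      rw [mul_pow] at this
      exact this
    calc (b / (2 * m * (a k) ^ 2)) * (y.2 k) ^ 2
        ≤ (b / (2 * m * (a k) ^ 2)) * ((a k) ^ 2 * y.1 ^ 2) := by
          apply mul_le_mul_of_nonneg_left h2
          positivity
      _ = b / (2 * m) * y.1 ^ 2 := by
          field_simp
  have h3 : ∑ k : Fin m, (b / (2 * m * (a k) ^ 2)) * (y.2 k) ^ 2 ≤ b / 2 * y.1 ^ 2 := by
    calc ∑ k : Fin m, (b / (2 * m * (a k) ^ 2)) * (y.2 k) ^ 2
        ≤ ∑ k : Fin m, b / (2 * m) * y.1 ^ 2 := sum_le_sum fun k _ => h1 k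
      _ = b / 2 * y.1 ^ 2 := by
          rw [sum_const, card_univ, Fintype.card_fin, nsmul_eq_mul]
          field_simp
  have h4 : ∑ k : Fin m, -(b / (2 * m * (a k) ^ 2)) * (y.2 k) ^ 2
      = - ∑ k : Fin m, (b / (2 * m * (a k) ^ 2)) * (y.2 k) ^ 2 := by
    rw [← sum_neg_distrib]
    exact sum_congr rfl fun k _ => by ring
  rw [h4]
  linarith

lemma gauss_dom_integrable {m : ℕ} (hm : 0 < m) (a : Fin m → ℝ) (ha : ∀ k, 0 < a k) {b : ℝ}
    (hb : 0 < b) :
    Integrable (fun y : ℝ × (Fin m → ℝ) => Real.exp (-(b / 2) * y.1 ^ 2) *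
      ∏ k, Real.exp (-(b / (2 * m * (a k) ^ 2)) * (y.2 k) ^ 2)) := by
  have hm' : (0 : ℝ) < m := by exact_mod_cast hm
  have h1 : Integrable (fun x : Fin m → ℝ =>
      ∏ k, Real.exp (-(b / (2 * m * (a k) ^ 2)) * (x k) ^ 2)) :=
    Integrable.fintype_prod
      (f := fun k : Fin m => fun t : ℝ => Real.exp (-(b / (2 * m * (a k) ^ 2)) * t ^ 2))
      (fun k => integrable_exp_neg_mul_sq (by have := ha k; positivity))
  have h2 : Integrable (fun x : ℝ => Real.exp (-(b / 2) * x ^ 2)) :=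
    integrable_exp_neg_mul_sq (by positivity)
  exact h2.mul_prod h1

lemma gauss_S' {m : ℕ} (hm : 0 < m) (a : Fin m → ℝ) (ha : ∀ k, 0 < a k) {b : ℝ} (hb : 0 < b) :
    IntegrableOn (fun y : ℝ × (Fin m → ℝ) => Real.exp (-b * y.1 ^ 2)) (S' a) ∧
    ∫ y in S' a, Real.exp (-b * y.1 ^ 2) ≤
      √(Real.pi / (b / 2)) * ∏ k, √(Real.pi / (b / (2 * m * (a k) ^ 2))) := by
  have hI := gauss_dom_integrable hm a ha hb
  have h1 : IntegrableOn (fun y : ℝ × (Fin m → ℝ) => Real.exp (-b * y.1 ^ 2)) (S' a) := by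
    refine Integrable.mono' hI.integrableOn ?_ ?_
    · exact (Continuous.aestronglyMeasurable (by fun_prop))
    · refine (ae_restrict_iff' (measurableSet_S' a)).2 (Eventually.of_forall fun y hy => ?_)
      rw [Real.norm_of_nonneg (Real.exp_nonneg _)]
      exact gauss_dom hm a ha hb y hy
  refine ⟨h1, ?_⟩
  calc ∫ y in S' a, Real.exp (-b * y.1 ^ 2)
      ≤ ∫ y in S' a, Real.exp (-(b / 2) * y.1 ^ 2) *
          ∏ k, Real.exp (-(b / (2 * m * (a k) ^ 2)) * (y.2 k) ^ 2) :=
        setIntegral_mono_on h1 hI.integrableOn (measurableSet_S' a)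
          (fun y hy => gauss_dom hm a ha hb y hy)
    _ ≤ ∫ y : ℝ × (Fin m → ℝ), Real.exp (-(b / 2) * y.1 ^ 2) *
          ∏ k, Real.exp (-(b / (2 * m * (a k) ^ 2)) * (y.2 k) ^ 2) := by
        apply setIntegral_le_integral hI
        refine Eventually.of_forall fun y => ?_
        positivity
    _ = √(Real.pi / (b / 2)) * ∏ k, √(Real.pi / (b / (2 * m * (a k) ^ 2))) := by
        have h2 := integral_prod_mul (μ := (volume : Measure ℝ))
          (ν := (volume : Measure (Fin m → ℝ)))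
          (fun x : ℝ => Real.exp (-(b / 2) * x ^ 2))
          (fun x : Fin m → ℝ => ∏ k, Real.exp (-(b / (2 * m * (a k) ^ 2)) * (x k) ^ 2))
        rw [← Measure.volume_eq_prod] at h2
        rw [h2, integral_gaussian]
        congr 1
        have h3 := integral_fintype_prod_volume_eq_prod
          (fun k : Fin m => fun t : ℝ => Real.exp (-(b / (2 * m * (a k) ^ 2)) * t ^ 2))
        rw [h3]
        exact prod_congr rfl fun k _ => integral_gaussian _

/-- The inner integral. -/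
lemma inner_integral {d ξ q e : ℝ} (hd : 0 < d) :
    ‖∫ t : ℝ, Complex.exp (Complex.I * ((q - 2 * t * ξ : ℝ) : ℂ) - ((d * t ^ 2 + e : ℝ) : ℂ))‖
      = √(Real.pi / d) * Real.exp (-e - ξ ^ 2 / d) := by
  have h1 : ∀ t : ℝ, Complex.exp (Complex.I * ((q - 2 * t * ξ : ℝ) : ℂ)
        - ((d * t ^ 2 + e : ℝ) : ℂ))
      = Complex.exp ((-(d : ℂ)) * (t : ℂ) ^ 2 + (-(2 * Complex.I * ξ)) * (t : ℂ)
        + (Complex.I * q - e)) := by
    intro t
    congr 1
    push_cast
    ring
  simp only [h1]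
  rw [integral_cexp_quadratic (by simpa using hd)]
  rw [norm_mul]
  have hd' : (d : ℂ) ≠ 0 := by exact_mod_cast hd.ne'
  have h2 : Complex.I * q - e - (-(2 * Complex.I * ξ)) ^ 2 / (4 * -(d : ℂ))
      = ((-e - ξ ^ 2 / d : ℝ) : ℂ) + (q : ℂ) * Complex.I := by
    push_cast
    field_simp
    ring_nf
    rw [Complex.I_sq]
    ring
  rw [h2]
  congr 1
  · rw [neg_neg, ← Complex.ofReal_div, Complex.norm_cpow_eq_rpow_re_of_pos (by positivity)]
    rw [Real.sqrt_eq_rpow]
    norm_num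
  · rw [Complex.norm_exp]
    congr 1
    rw [Complex.add_re, Complex.ofReal_re, Complex.mul_I_re, Complex.ofReal_im]
    ring

theorem tendsto_cusp_aux {n m : ℕ} (hm : m + 1 = n) (hm0 : 0 < m) (f : M n) (hf0 : f ≠ 0)
    (hf : B f f = 0)
    (E : Fin m → M n) (a : Fin m → ℝ) (ha : ∀ k, 0 < a k)
    (hunit : ∀ k, B (E k) (E k) = 1) (horth : ∀ k l, k ≠ l → B (E k) (E l) = 0)
    (hperp : ∀ k, B f (E k) = 0) :
    Tendsto (fun δ : ℝ => ∫ x in {x : M n | ∀ k, B x (E k) ≤ 0 ∧ B x (a k • f - E k) ≤ 0},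
        Complex.exp (Complex.I * (B x x : ℝ) - (δ * E2 x : ℝ))) (𝓝[>] 0) (𝓝 0) := by
  have hc0 : 0 < E2 f := lt_of_le_of_ne (E2_nonneg f) (fun h => hf0 (E2_eq_zero f h.symm))
  set c0 := E2 f with hc0def
  have hdim : Module.finrank ℝ (M n) = Module.finrank ℝ ((ℝ × (Fin m → ℝ)) × ℝ) := by
    simp [M, Module.finrank_prod]
    omega
  let e : M n ≃ₗ[ℝ] ((ℝ × (Fin m → ℝ)) × ℝ) :=
    LinearMap.linearEquivOfInjective (Psi f E) (Psi_inj hm f hf0 hf E hunit horth hperp) hdim
  let L : M n ≃L[ℝ] ((ℝ × (Fin m → ℝ)) × ℝ) := e.toContinuousLinearEquiv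
  have hL : ∀ x, L x = ((-B x f, fun k => B x (E k)), Eu f x / c0) := fun x => rfl
  have hLf : L f = ((0, 0), 1) := by
    rw [hL]
    ext
    · simp [hf]
    · simp [hperp]
    · simp only [Eu_self]
      exact div_self hc0.ne'
  have hLs : ∀ (y : ℝ × (Fin m → ℝ)) (t : ℝ), L.symm (y, t) = t • f + L.symm (y, 0) := by
    intro y t
    apply L.injective
    rw [L.apply_symm_apply, map_add, map_smul, hLf, L.apply_symm_apply]
    ext <;> simp
  have hBf : ∀ y : ℝ × (Fin m → ℝ), B f (L.symm (y, 0)) = - y.1 := by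
    intro y
    have h1 := hL (L.symm (y, 0))
    rw [L.apply_symm_apply] at h1
    have h2 := congrArg (fun z => z.1.1) h1
    simp only at h2
    rw [B_comm, h2, neg_neg]
  have hEuf : ∀ y : ℝ × (Fin m → ℝ), Eu f (L.symm (y, 0)) = 0 := by
    intro y
    have h1 := hL (L.symm (y, 0))
    rw [L.apply_symm_apply] at h1
    have h2 := congrArg (fun z => z.2) h1
    simp only at h2
    rcases div_eq_zero_iff.1 h2.symm with h | h
    · exact h
    · exact absurd h hc0.ne'
  have hQ : ∀ (y : ℝ × (Fin m → ℝ)) (t : ℝ), B (L.symm (y, t)) (L.symm (y, t))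
      = B (L.symm (y, 0)) (L.symm (y, 0)) - 2 * t * y.1 := by
    intro y t
    rw [hLs y t]
    simp only [B_add_left, B_add_right, B_smul_left, B_smul_right, hf, hBf]
    rw [B_comm (L.symm (y, 0)) f, hBf]
    ring
  have hE2 : ∀ (y : ℝ × (Fin m → ℝ)) (t : ℝ), E2 (L.symm (y, t))
      = c0 * t ^ 2 + E2 (L.symm (y, 0)) := by
    intro y t
    rw [hLs y t, E2_smul_add, hEuf]
    ring
  -- measures
  have i1 : (volume : Measure (ℝ × (Fin m → ℝ))).IsAddHaarMeasure :=
    Measure.prod.instIsAddHaarMeasure _ _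
  have i2 : (volume : Measure ((ℝ × (Fin m → ℝ)) × ℝ)).IsAddHaarMeasure :=
    Measure.prod.instIsAddHaarMeasure _ _
  have i3 : (volume : Measure (M n)).IsAddHaarMeasure :=
    Measure.prod.instIsAddHaarMeasure _ _
  have hHaar : (Measure.map L.symm (volume : Measure ((ℝ × (Fin m → ℝ)) × ℝ))).IsAddHaarMeasure :=
    L.symm.isAddHaarMeasure_map volume
  obtain ⟨c, hc⟩ : ∃ c : NNReal, (volume : Measure (M n))
      = c • Measure.map L.symm (volume : Measure ((ℝ × (Fin m → ℝ)) × ℝ)) :=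
    ⟨_, Measure.isAddLeftInvariant_eq_smul _ _⟩
  obtain ⟨c', hc'⟩ : ∃ c : NNReal,
      Measure.map L.symm (volume : Measure ((ℝ × (Fin m → ℝ)) × ℝ))
      = c • (volume : Measure (M n)) :=
    ⟨_, Measure.isAddLeftInvariant_eq_smul _ _⟩
  have hemb : MeasurableEmbedding (L.symm : ((ℝ × (Fin m → ℝ)) × ℝ) → M n) :=
    L.symm.toHomeomorph.measurableEmbedding
  have hint : ∀ δ : ℝ, 0 < δ → Integrable (fun z : (ℝ × (Fin m → ℝ)) × ℝ =>
      Complex.exp (Complex.I * (B (L.symm z) (L.symm z) : ℝ) - (δ * E2 (L.symm z) : ℝ))) := by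
    intro δ hδ
    have h1 : Integrable (fun x : M n => Real.exp (-(δ * E2 x)))
        (Measure.map L.symm (volume : Measure ((ℝ × (Fin m → ℝ)) × ℝ))) := by
      rw [hc']
      exact (integrable_E2 hδ).smul_measure_nnreal
    rw [hemb.integrable_map_iff] at h1
    refine Integrable.mono' h1 ?_ ?_
    · apply Continuous.aestronglyMeasurable
      have h3 : Continuous fun z : (ℝ × (Fin m → ℝ)) × ℝ => B (L.symm z) (L.symm z) :=
        continuous_Q.comp L.symm.continuous
      have h4 : Continuous fun z : (ℝ × (Fin m → ℝ)) × ℝ => E2 (L.symm z) :=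
        continuous_E2.comp L.symm.continuous
      fun_prop
    · refine Eventually.of_forall fun z => ?_
      rw [Complex.norm_exp]
      simp
  have hpre : (L.symm : ((ℝ × (Fin m → ℝ)) × ℝ) → M n) ⁻¹'
      {x : M n | ∀ k, B x (E k) ≤ 0 ∧ B x (a k • f - E k) ≤ 0} = S' a ×ˢ Set.univ := by
    ext ⟨y, t⟩
    have h1 := hL (L.symm (y, t))
    rw [L.apply_symm_apply] at h1
    have h2 : ∀ k, y.2 k = B (L.symm (y, t)) (E k) := fun k => congrArg (fun z => z.1.2 k) h1
    have h3 : y.1 = - B (L.symm (y, t)) f := congrArg (fun z => z.1.1) h1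
    simp only [Set.mem_preimage, Set.mem_ofPred_eq, Set.mem_prod, Set.mem_univ, and_true, S',
      B_sub_right, B_smul_right, ← h2]
    have h4 : B (L.symm (y, t)) f = - y.1 := by rw [h3, neg_neg]
    rw [h4]
    constructor
    · intro h k
      exact ⟨(h k).1, by linarith [(h k).2]⟩
    · intro h k
      exact ⟨(h k).1, by linarith [(h k).2]⟩
  -- the bound
  have hbound : ∀ δ : ℝ, 0 < δ →
      ‖∫ x in {x : M n | ∀ k, B x (E k) ≤ 0 ∧ B x (a k • f - E k) ≤ 0},
        Complex.exp (Complex.I * (B x x : ℝ) - (δ * E2 x : ℝ))‖ ≤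
      c * (√(2 * Real.pi ^ 2) * ∏ k : Fin m, √(Real.pi * (2 * m * (a k) ^ 2) * c0 * δ)) := by
    intro δ hδ
    have hd : 0 < δ * c0 := mul_pos hδ hc0
    have h1 : (∫ x in {x : M n | ∀ k, B x (E k) ≤ 0 ∧ B x (a k • f - E k) ≤ 0},
        Complex.exp (Complex.I * (B x x : ℝ) - (δ * E2 x : ℝ)))
        = (c : ℝ) • ∫ y in S' a, ∫ t : ℝ,
          Complex.exp (Complex.I * (B (L.symm (y, t)) (L.symm (y, t)) : ℝ)
            - (δ * E2 (L.symm (y, t)) : ℝ)) := by
      rw [hc, Measure.restrict_smul, integral_smul_nnreal_measure, hemb.setIntegral_map, hpre]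
      have h5 := setIntegral_prod (μ := (volume : Measure (ℝ × (Fin m → ℝ))))
        (ν := (volume : Measure ℝ)) (fun z : (ℝ × (Fin m → ℝ)) × ℝ =>
          Complex.exp (Complex.I * (B (L.symm z) (L.symm z) : ℝ) - (δ * E2 (L.symm z) : ℝ)))
        (s := S' a) (t := Set.univ) (hint δ hδ).integrableOn
      rw [← Measure.volume_eq_prod] at h5
      rw [h5]
      simp only [Measure.restrict_univ]
      rfl
    rw [h1, norm_smul, Real.norm_of_nonneg c.coe_nonneg]
    apply mul_le_mul_of_nonneg_left _ c.coe_nonneg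
    have hb : 0 < 1 / (δ * c0) := by positivity
    obtain ⟨hg1, hg2⟩ := gauss_S' hm0 a ha hb
    have h6 : ∀ y : ℝ × (Fin m → ℝ), ‖∫ t : ℝ,
          Complex.exp (Complex.I * (B (L.symm (y, t)) (L.symm (y, t)) : ℝ)
            - (δ * E2 (L.symm (y, t)) : ℝ))‖
        ≤ √(Real.pi / (δ * c0)) * Real.exp (-(1 / (δ * c0)) * y.1 ^ 2) := by
      intro y
      have h7 := inner_integral (d := δ * c0) (ξ := y.1)
        (q := B (L.symm (y, 0)) (L.symm (y, 0))) (e := δ * E2 (L.symm (y, 0))) hd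
      have h8 : ∀ t : ℝ, Complex.exp (Complex.I * (B (L.symm (y, t)) (L.symm (y, t)) : ℝ)
            - (δ * E2 (L.symm (y, t)) : ℝ))
          = Complex.exp (Complex.I * ((B (L.symm (y, 0)) (L.symm (y, 0)) - 2 * t * y.1 : ℝ) : ℂ)
            - (((δ * c0) * t ^ 2 + δ * E2 (L.symm (y, 0)) : ℝ) : ℂ)) := by
        intro t
        rw [hQ, hE2]
        congr 3
        ring_nf
      simp only [h8]
      rw [h7]
      apply mul_le_mul_of_nonneg_left _ (Real.sqrt_nonneg _)
      apply Real.exp_le_exp.2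
      have h9 : 0 ≤ δ * E2 (L.symm (y, 0)) := mul_nonneg hδ.le (E2_nonneg _)
      have h10 : -(1 / (δ * c0)) * y.1 ^ 2 = - (y.1 ^ 2 / (δ * c0)) := by ring
      rw [h10]
      linarith
    calc ‖∫ y in S' a, ∫ t : ℝ,
          Complex.exp (Complex.I * (B (L.symm (y, t)) (L.symm (y, t)) : ℝ)
            - (δ * E2 (L.symm (y, t)) : ℝ))‖
        ≤ ∫ y in S' a, √(Real.pi / (δ * c0)) * Real.exp (-(1 / (δ * c0)) * y.1 ^ 2) :=
          norm_integral_le_of_norm_le (hg1.const_mul _) (Eventually.of_forall h6)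
      _ = √(Real.pi / (δ * c0)) * ∫ y in S' a, Real.exp (-(1 / (δ * c0)) * y.1 ^ 2) :=
          integral_const_mul _ _
      _ ≤ √(Real.pi / (δ * c0)) * (√(Real.pi / ((1 / (δ * c0)) / 2)) *
            ∏ k, √(Real.pi / ((1 / (δ * c0)) / (2 * m * (a k) ^ 2)))) :=
          mul_le_mul_of_nonneg_left hg2 (Real.sqrt_nonneg _)
      _ = √(2 * Real.pi ^ 2) * ∏ k : Fin m, √(Real.pi * (2 * m * (a k) ^ 2) * c0 * δ) := by
          rw [← mul_assoc, ← Real.sqrt_mul (by positivity)]
          have h11 : Real.pi / (δ * c0) * (Real.pi / (1 / (δ * c0) / 2)) = 2 * Real.pi ^ 2 := by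
            field_simp
          rw [h11]
          congr 1
          refine prod_congr rfl fun k _ => ?_
          congr 1
          have := ha k
          field_simp
  refine squeeze_zero_norm' (a := fun δ : ℝ =>
      c * (√(2 * Real.pi ^ 2) * ∏ k : Fin m, √(Real.pi * (2 * m * (a k) ^ 2) * c0 * δ))) ?_ ?_
  · exact eventually_nhdsWithin_of_forall fun δ hδ => hbound δ hδ
  · apply tendsto_nhdsWithin_of_tendsto_nhds
    have hcont : Continuous (fun δ : ℝ =>
        c * (√(2 * Real.pi ^ 2) * ∏ k : Fin m, √(Real.pi * (2 * m * (a k) ^ 2) * c0 * δ))) := by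
      fun_prop
    refine hcont.tendsto' 0 0 ?_
    have : ∏ k : Fin m, √(Real.pi * (2 * m * (a k) ^ 2) * c0 * 0) = 0 := by
      apply prod_eq_zero (mem_univ (⟨0, hm0⟩ : Fin m))
      simp
    rw [this]
    simp

end Cusp3

theorem tendsto_cusp {n : ℕ} (hn : 2 ≤ n) (f : M n) (hf0 : f ≠ 0) (hf : B f f = 0)
    (E : Fin (n - 1) → M n) (a : Fin (n - 1) → ℝ) (ha : ∀ k, 0 < a k)
    (hunit : ∀ k, B (E k) (E k) = 1) (horth : ∀ k l, k ≠ l → B (E k) (E l) = 0)
    (hperp : ∀ k, B f (E k) = 0) :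
    Tendsto (fun δ : ℝ => ∫ x in {x : M n | ∀ k, B x (E k) ≤ 0 ∧ B x (a k • f - E k) ≤ 0},
        Complex.exp (Complex.I * (B x x : ℝ) - (δ * E2 x : ℝ))) (𝓝[>] 0) (𝓝 0) :=
  Cusp3.tendsto_cusp_aux (by omega) (by omega) f hf0 hf E a ha hunit horth hperp

end Pool.Agent.RA
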