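import Pool.Agent.Lib_helper85.GapDefs

set_option autoImplicit false

namespace Pool.Agent.Gap85

open Finset

/-- The data of the construction: block lengths `k`, half lengths `h`, moduli `m`, offsets `b`,
number of elements in previous blocks `q`. -/
structure Data where
  h : ℕ → ℕ
  m : ℕ → ℕ
  b : ℕ → ℕ
  q : ℕ → ℕ
  q0 : q 0 = 0
  qs : ∀ J, q (J + 1) = q J + 2 * h J
  b0 : b 0 = 1
  bs : ∀ J, b (J + 1) = b J + m J * h J
  mdvd : ∀ J, m J ∣ m (J + 1)
  hpos : ∀ J, 1 ≤ h J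
  mpos : ∀ J, 1 ≤ m J
  dec : ∀ J, (q (J + 1) + q J) * b J < m J
  big : ∀ J, m J * (2 * h J) < m (J + 1)

namespace Data

variable (D : Data)

/-- The elements of block `J`. -/
def blk (J : ℕ) : Finset ℕ := (Icc 1 (2 * D.h J)).image (fun j => D.b J + D.m J * j)

/-- The elements of blocks below `J`. -/
def low : ℕ → Finset ℕ
  | 0 => ∅
  | J + 1 => low J ∪ D.blk J

/-- The whole set. -/
def A : Set ℕ := {x | ∃ J, x ∈ D.blk J}

lemma bpos (J : ℕ) : 1 ≤ D.b J := by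
  induction J with
  | zero => rw [D.b0]
  | succ J ih => rw [D.bs]; omega

lemma mem_blk {J x : ℕ} : x ∈ D.blk J ↔ ∃ j, 1 ≤ j ∧ j ≤ 2 * D.h J ∧ x = D.b J + D.m J * j := by
  unfold blk
  simp only [mem_image, mem_Icc]
  constructor
  · rintro ⟨j, ⟨h1, h2⟩, h3⟩; exact ⟨j, h1, h2, h3.symm⟩
  · rintro ⟨j, h1, h2, h3⟩; exact ⟨j, ⟨h1, h2⟩, h3.symm⟩

lemma mem_low {J x : ℕ} : x ∈ D.low J ↔ ∃ i < J, x ∈ D.blk i := by
  induction J with
  | zero => simp [low]
  | succ J ih =>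
    simp only [low, mem_union, ih]
    constructor
    · rintro (⟨i, hi, hx⟩ | hx)
      · exact ⟨i, by omega, hx⟩
      · exact ⟨J, by omega, hx⟩
    · rintro ⟨i, hi, hx⟩
      rcases Nat.lt_succ_iff_lt_or_eq.mp hi with h | h
      · exact Or.inl ⟨i, h, hx⟩
      · subst h; exact Or.inr hx

lemma b_mono {i J : ℕ} (h : i ≤ J) : D.b i ≤ D.b J := by
  induction J, h using Nat.le_induction with
  | base => exact le_rfl
  | succ J _ ih => rw [D.bs]; omega

lemma low_le {J x : ℕ} (hx : x ∈ D.low J) : x ≤ 2 * D.b J := by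
  rw [mem_low] at hx
  obtain ⟨i, hi, hx⟩ := hx
  rw [mem_blk] at hx
  obtain ⟨j, h1, h2, rfl⟩ := hx
  have h3 : D.b (i + 1) ≤ D.b J := D.b_mono hi
  rw [D.bs] at h3
  have h4 : D.m i * j ≤ D.m i * (2 * D.h i) := Nat.mul_le_mul_left _ h2
  nlinarith

lemma low_card (J : ℕ) : (D.low J).card ≤ D.q J := by
  induction J with
  | zero => simp [low]
  | succ J ih =>
    rw [D.qs]
    refine (card_union_le _ _).trans ?_
    have : (D.blk J).card ≤ 2 * D.h J := by
      refine card_image_le.trans ?_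
      simp
    omega

lemma m_dvd {i J : ℕ} (h : i ≤ J) : D.m i ∣ D.m J := by
  induction J, h using Nat.le_induction with
  | base => exact dvd_rfl
  | succ J _ ih => exact ih.trans (D.mdvd J)

lemma b_modEq {i J : ℕ} (h : i ≤ J) : (D.m i : ℤ) ∣ (D.b J : ℤ) - D.b i := by
  induction J, h using Nat.le_induction with
  | base => simp
  | succ J hJ ih =>
    rw [D.bs]
    push_cast
    have h1 : (D.m i : ℤ) ∣ (D.m J : ℤ) := by exact_mod_cast D.m_dvd hJ
    have : (D.b J : ℤ) + D.m J * D.h J - D.b i = (D.b J - D.b i) + D.m J * D.h J := by ring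
    rw [this]
    exact dvd_add ih (Dvd.dvd.mul_right h1 _)

lemma high_dvd {J x : ℕ} (hx : x ∈ D.A) (hxl : x ∉ D.low J) : (D.m J : ℤ) ∣ (x : ℤ) - D.b J := by
  obtain ⟨i, hi⟩ := hx
  have hJi : J ≤ i := by
    by_contra hlt
    exact hxl (D.mem_low.mpr ⟨i, by omega, hi⟩)
  rw [mem_blk] at hi
  obtain ⟨j, -, -, rfl⟩ := hi
  have h1 := D.b_modEq hJi
  have h2 : (D.m J : ℤ) ∣ (D.m i : ℤ) := by exact_mod_cast D.m_dvd hJi
  push_cast
  have : (D.b i : ℤ) + D.m i * j - D.b J = (D.b i - D.b J) + D.m i * j := by ring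
  rw [this]
  exact dvd_add h1 (Dvd.dvd.mul_right h2 _)

/-- The main decoding step. -/
lemma decode {X Y : Finset ℕ} (hX : (X : Set ℕ) ⊆ D.A) (hY : (Y : Set ℕ) ⊆ D.A)
    (hsum : ∑ x ∈ X, x = ∑ y ∈ Y, y) {d J : ℕ} (hd : X.card = Y.card + d)
    (h1 : D.q J < d) (h2 : d ≤ D.q (J + 1)) : False := by
  classical
  -- split sums
  have split : ∀ Z : Finset ℕ, (Z : Set ℕ) ⊆ D.A → ∃ z : ℤ,
      (∑ x ∈ Z, (x : ℤ)) = Z.card * D.b J +
        (∑ x ∈ D.low J, if x ∈ Z then ((x : ℤ) - D.b J) else 0) + D.m J * z := by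
    intro Z hZ
    have e1 : (∑ x ∈ Z, (x : ℤ)) = Z.card * D.b J + ∑ x ∈ Z, ((x : ℤ) - D.b J) := by
      rw [sum_sub_distrib]; simp
    have e2 : ∑ x ∈ Z, ((x : ℤ) - D.b J) =
        (∑ x ∈ Z.filter (fun x => x ∈ D.low J), ((x : ℤ) - D.b J)) +
        ∑ x ∈ Z.filter (fun x => ¬ x ∈ D.low J), ((x : ℤ) - D.b J) :=
      (sum_filter_add_sum_filter_not _ _ _).symm
    have e3 : (∑ x ∈ Z.filter (fun x => x ∈ D.low J), ((x : ℤ) - D.b J)) =
        ∑ x ∈ D.low J, if x ∈ Z then ((x : ℤ) - D.b J) else 0 := by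
      rw [← sum_filter]
      congr 1
      ext x
      simp [and_comm]
    have e4 : (D.m J : ℤ) ∣ ∑ x ∈ Z.filter (fun x => ¬ x ∈ D.low J), ((x : ℤ) - D.b J) := by
      apply dvd_sum
      intro x hx
      rw [mem_filter] at hx
      exact D.high_dvd (hZ hx.1) hx.2
    obtain ⟨z, hz⟩ := e4
    exact ⟨z, by rw [e1, e2, e3, hz]; ring⟩
  obtain ⟨z1, hz1⟩ := split X hX
  obtain ⟨z2, hz2⟩ := split Y hY
  have hs : (∑ x ∈ X, (x : ℤ)) = ∑ y ∈ Y, (y : ℤ) := by
    have := congrArg (Nat.cast : ℕ → ℤ) hsum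
    simpa [Nat.cast_sum] using this
  set U : ℤ := (∑ x ∈ D.low J, if x ∈ X then ((x : ℤ) - D.b J) else 0) -
    (∑ x ∈ D.low J, if x ∈ Y then ((x : ℤ) - D.b J) else 0) with hU
  have hkey : (d : ℤ) * D.b J + U = D.m J * (z2 - z1) := by
    have : (X.card : ℤ) = Y.card + d := by exact_mod_cast hd
    rw [hz1, hz2, this] at hs
    rw [hU]
    linarith
  have hUb : |U| ≤ D.q J * D.b J := by
    rw [hU, ← sum_sub_distrib]
    refine (abs_sum_le_sum_abs _ _).trans ?_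
    have : ∀ x ∈ D.low J, |(if x ∈ X then ((x : ℤ) - D.b J) else 0) -
        (if x ∈ Y then ((x : ℤ) - D.b J) else 0)| ≤ D.b J := by
      intro x hx
      have hx2 : (x : ℤ) ≤ 2 * D.b J := by exact_mod_cast D.low_le hx
      have hx0 : (0 : ℤ) ≤ x := by positivity
      have hb0 : (0 : ℤ) ≤ D.b J := by positivity
      split_ifs <;> rw [abs_le] <;> constructor <;> linarith
    refine (sum_le_sum this).trans ?_
    rw [sum_const, nsmul_eq_mul]
    have := D.low_card J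
    have hb0 : (0 : ℤ) ≤ D.b J := by positivity
    exact mul_le_mul_of_nonneg_right (by exact_mod_cast this) hb0
  rw [abs_le] at hUb
  have hb1 : (1 : ℤ) ≤ D.b J := by exact_mod_cast D.bpos J
  have hq1 : (D.q J : ℤ) + 1 ≤ d := by exact_mod_cast h1
  have hq2 : (d : ℤ) ≤ D.q (J + 1) := by exact_mod_cast h2
  have hdec : ((D.q (J + 1) : ℤ) + D.q J) * D.b J < D.m J := by exact_mod_cast D.dec J
  have hlow : 0 < (d : ℤ) * D.b J + U := by nlinarith
  have hhigh : (d : ℤ) * D.b J + U < D.m J := by nlinarith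
  have hm0 : (0 : ℤ) < D.m J := by exact_mod_cast D.mpos J
  rw [hkey] at hlow hhigh
  have h3 : 0 < z2 - z1 := by
    by_contra hle
    rw [not_lt] at hle
    nlinarith
  nlinarith

lemma q_ge (J : ℕ) : J ≤ D.q J := by
  induction J with
  | zero => omega
  | succ J ih => rw [D.qs]; have := D.hpos J; omega

lemma card_eq_of_le {X Y : Finset ℕ} (hX : (X : Set ℕ) ⊆ D.A) (hY : (Y : Set ℕ) ⊆ D.A)
    (hsum : ∑ x ∈ X, x = ∑ y ∈ Y, y) (hle : Y.card ≤ X.card) : X.card = Y.card := by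
  by_contra hne
  obtain ⟨d, hd⟩ := Nat.exists_eq_add_of_le hle
  have hd1 : 1 ≤ d := by
    rcases Nat.eq_zero_or_pos d with h | h
    · subst h; exact absurd hd hne
    · exact h
  -- find J
  have hex : ∃ J, d ≤ D.q (J + 1) := ⟨d, by have := D.q_ge (d + 1); omega⟩
  classical
  set J := Nat.find hex with hJ
  have hJ1 : d ≤ D.q (J + 1) := Nat.find_spec hex
  have hJ2 : D.q J < d := by
    rcases Nat.eq_zero_or_pos J with h0 | h0
    · rw [h0, D.q0]; omega
    · have := Nat.find_min hex (m := J - 1) (by omega)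
      have h3 : J - 1 + 1 = J := by omega
      rw [h3] at this
      omega
  exact D.decode hX hY hsum hd hJ2 hJ1

lemma admissible : Admissible D.A := by
  intro X Y hX hY _ _ hsum
  rcases le_total Y.card X.card with h | h
  · exact D.card_eq_of_le hX hY hsum h
  · exact (D.card_eq_of_le hY hX hsum.symm h).symm

lemma blk_sub {J x : ℕ} (hx : x ∈ D.blk J) : x ∈ D.A := ⟨J, hx⟩

lemma first_mem (J : ℕ) : D.b J + D.m J ∈ D.blk J := by
  rw [mem_blk]
  exact ⟨1, le_rfl, by have := D.hpos J; omega, by ring⟩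

lemma infinite : D.A.Infinite := by
  rw [Set.infinite_iff_exists_gt]
  intro N
  refine ⟨D.b (N + 1) + D.m (N + 1), D.blk_sub (D.first_mem _), ?_⟩
  have : ∀ J, J ≤ D.b J := by
    intro J
    induction J with
    | zero => omega
    | succ J ih =>
      rw [D.bs]
      have h1 := D.hpos J
      have h2 := D.mpos J
      have : 1 ≤ D.m J * D.h J := Nat.mul_pos h2 h1
      omega
  have := this (N + 1)
  omega

/-- the enumeration -/
noncomputable def a (n : ℕ) : ℕ := Nat.nth (fun x => x ∈ D.A) n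

lemma inf' : {x | x ∈ D.A}.Infinite := D.infinite

lemma a_mono : StrictMono D.a := Nat.nth_strictMono D.inf'

lemma a_mem (n : ℕ) : D.a n ∈ D.A := Nat.nth_mem_of_infinite D.inf' n

lemma range_a : Set.range D.a = D.A := Nat.range_nth_of_infinite D.inf'

lemma A_pos {x : ℕ} (hx : x ∈ D.A) : 0 < x := by
  obtain ⟨J, hJ⟩ := hx
  rw [mem_blk] at hJ
  obtain ⟨j, h1, h2, rfl⟩ := hJ
  have := D.bpos J
  positivity

/-- consecutive -/
lemma next_le {n y : ℕ} (hy : y ∈ D.A) (hlt : D.a n < y) : D.a (n + 1) ≤ y := by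
  rw [← D.range_a] at hy
  obtain ⟨k, rfl⟩ := hy
  have := D.a_mono.lt_iff_lt.mp hlt
  exact D.a_mono.monotone this

/-- counting: if a finset `S` of elements of `A` consists of elements `≤ a n` then
`S.card ≤ n + 1`. -/
lemma card_le_index {n : ℕ} {S : Finset ℕ} (hS : (S : Set ℕ) ⊆ D.A) (hle : ∀ x ∈ S, x ≤ D.a n) :
    S.card ≤ n + 1 := by
  have : S ⊆ (range (n + 1)).image D.a := by
    intro x hx
    have h1 := hS hx
    rw [← D.range_a] at h1
    obtain ⟨k, rfl⟩ := h1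
    have := D.a_mono.le_iff_le.mp (hle _ hx)
    rw [mem_image]
    exact ⟨k, by rw [mem_range]; omega, rfl⟩
  refine (card_le_card this).trans (card_image_le.trans ?_)
  simp

lemma blk_card (J : ℕ) : (D.blk J).card = 2 * D.h J := by
  unfold blk
  rw [card_image_of_injective]
  · simp
  · intro i j hij
    simp only [add_right_inj] at hij
    exact Nat.eq_of_mul_eq_mul_left (D.mpos J) hij

lemma gap (g : ℕ → ℝ) (hg : Monotone g)
    (hm : ∀ J, (D.m (J + 1) : ℝ) ≤ g (2 * D.h J)) {n : ℕ} (hn : D.b 0 + D.m 0 * (2 * D.h 0) < n) :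
    (D.a (n + 1) : ℝ) - D.a n ≤ g (n + 1) := by
  obtain ⟨J, hJ⟩ := D.a_mem n
  rw [mem_blk] at hJ
  obtain ⟨j, h1, h2, hx⟩ := hJ
  rcases Nat.lt_or_ge j (2 * D.h J) with hlt | hge
  · -- next in same block
    have hy : D.b J + D.m J * (j + 1) ∈ D.A := ⟨J, D.mem_blk.mpr ⟨j + 1, by omega, by omega, rfl⟩⟩
    have hle := D.next_le (n := n) hy (by rw [hx]; have := D.mpos J; nlinarith)
    have hgap : (D.a (n + 1) : ℝ) - D.a n ≤ D.m J := by
      have : (D.a (n + 1) : ℝ) ≤ D.b J + D.m J * (j + 1) := by exact_mod_cast hle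
      rw [hx]; push_cast; linarith
    -- J ≥ 1
    rcases Nat.eq_zero_or_pos J with h0 | h0
    · exfalso
      subst h0
      have h4 : n ≤ D.a n := D.a_mono.id_le n
      have h5 : D.m 0 * j ≤ D.m 0 * (2 * D.h 0) := Nat.mul_le_mul_left _ h2
      omega
    · obtain ⟨I, rfl⟩ : ∃ I, J = I + 1 := ⟨J - 1, by omega⟩
      refine hgap.trans ((hm I).trans (hg ?_))
      rw [← D.blk_card I]
      apply D.card_le_index (fun x hx => D.blk_sub hx)
      intro x hxI
      rw [mem_blk] at hxI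
      obtain ⟨i, h6, h7, rfl⟩ := hxI
      rw [hx]
      have h8 : D.m I * i ≤ D.m I * (2 * D.h I) := Nat.mul_le_mul_left _ h7
      have h9 := D.big I
      have h10 : D.b I ≤ D.b (I + 1) := D.b_mono (by omega)
      have h11 : D.m (I + 1) * 1 ≤ D.m (I + 1) * j := Nat.mul_le_mul_left _ h1
      omega
  · have hj : j = 2 * D.h J := by omega
    subst hj
    have hy : D.b (J + 1) + D.m (J + 1) ∈ D.A := ⟨J + 1, D.first_mem _⟩
    have hbig := D.big J
    have hle := D.next_le (n := n) hy (by rw [hx, D.bs]; omega)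
    have hgap : (D.a (n + 1) : ℝ) - D.a n ≤ D.m (J + 1) := by
      have h3 : (D.a (n + 1) : ℝ) ≤ D.b (J + 1) + D.m (J + 1) := by exact_mod_cast hle
      have h4 : (D.b (J + 1) : ℝ) ≤ D.a n := by
        rw [hx, D.bs]
        have : D.m J * D.h J ≤ D.m J * (2 * D.h J) := Nat.mul_le_mul_left _ (by omega)
        exact_mod_cast (by omega : D.b J + D.m J * D.h J ≤ D.b J + D.m J * (2 * D.h J))
      linarith
    refine hgap.trans ((hm J).trans (hg ?_))
    rw [← D.blk_card J]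
    apply D.card_le_index (fun x hx => D.blk_sub hx)
    intro x hxI
    rw [mem_blk] at hxI
    obtain ⟨i, h6, h7, rfl⟩ := hxI
    rw [hx]
    have h8 : D.m J * i ≤ D.m J * (2 * D.h J) := Nat.mul_le_mul_left _ h7
    omega

end Data

/-! ### The numerical sequences -/

/-- the critical exponent -/
noncomputable def c0 : ℝ := 3 + 2 * Real.sqrt 2

/-- state: `(h, m)` -/
noncomputable def st : ℕ → ℕ × ℕ
  | 0 => (6, 24)
  | J + 1 =>
    (⌊(((2 * (st J).1 : ℕ) : ℝ) ^ c0) / (2 * (((st J).2 * (2 * (st J).1) : ℕ) : ℝ))⌋₊,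
      (st J).2 * (2 * (st J).1) *
        (2 * ⌊(((2 * (st J).1 : ℕ) : ℝ) ^ c0) / (2 * (((st J).2 * (2 * (st J).1) : ℕ) : ℝ))⌋₊))

/-- half length of block `J` -/
noncomputable def hh (J : ℕ) : ℕ := (st J).1
/-- modulus of block `J` -/
noncomputable def mm (J : ℕ) : ℕ := (st J).2
/-- offset of block `J` -/
noncomputable def bb : ℕ → ℕ
  | 0 => 1
  | J + 1 => bb J + mm J * hh J
/-- number of elements before block `J` -/
noncomputable def qq : ℕ → ℕ
  | 0 => 0
  | J + 1 => qq J + 2 * hh J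

lemma hh_zero : hh 0 = 6 := by simp [hh, st]
lemma mm_zero : mm 0 = 24 := by simp [mm, st]
lemma hh_succ (J : ℕ) : hh (J + 1) =
    ⌊(((2 * hh J : ℕ) : ℝ) ^ c0) / (2 * ((mm J * (2 * hh J) : ℕ) : ℝ))⌋₊ := by
  simp only [hh, mm, st]
lemma mm_succ (J : ℕ) : mm (J + 1) = mm J * (2 * hh J) * (2 * hh (J + 1)) := by
  simp only [hh, mm, st]

lemma sqrt2_bounds : (1.4 : ℝ) < Real.sqrt 2 ∧ Real.sqrt 2 * Real.sqrt 2 = 2 := by
  constructor
  · rw [Real.lt_sqrt (by norm_num)]; norm_num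
  · exact Real.mul_self_sqrt (by norm_num)

/-- The step estimate, in real variables. -/
lemma real_step (k M : ℝ) (hk : 12 ≤ k) (hM : 0 < M)
    (hI : 2 * M ≤ k ^ (2 + Real.sqrt 2)) (K : ℝ) (hK : K = 2 * (⌊k ^ c0 / (2 * M)⌋₊ : ℝ)) :
    k ^ (1 + Real.sqrt 2) ≤ K ∧ 2 * (M * K ^ 2) ≤ K ^ (2 + Real.sqrt 2) ∧ M * K ≤ k ^ c0 ∧
      12 * k ≤ K := by
  obtain ⟨hs1, hs2⟩ := sqrt2_bounds
  set s := Real.sqrt 2 with hs
  have hk0 : 0 < k := by linarith
  have hk1 : 1 ≤ k := by linarith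
  have e1 : k ^ c0 = k ^ (2 + s) * k ^ (1 + s) := by
    rw [← Real.rpow_add hk0]; congr 1; rw [c0, ← hs]; ring
  have hp1 : 0 < k ^ (1 + s) := Real.rpow_pos_of_pos hk0 _
  have hk2 : k ^ 2 ≤ k ^ (1 + s) := by
    rw [← Real.rpow_natCast]
    exact Real.rpow_le_rpow_of_exponent_le hk1 (by push_cast; linarith)
  have hy : k ^ (1 + s) ≤ k ^ c0 / (2 * M) := by
    rw [le_div_iff₀ (by positivity), e1, mul_comm]
    exact mul_le_mul_of_nonneg_right hI hp1.le
  set y := k ^ c0 / (2 * M) with hydef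
  have hk2' : 144 ≤ k ^ 2 := by nlinarith
  have hy0 : 0 ≤ y := by linarith
  have hfl : y - 1 < (⌊y⌋₊ : ℝ) := by
    have := Nat.lt_floor_add_one y; linarith
  have hfl2 : (⌊y⌋₊ : ℝ) ≤ y := Nat.floor_le hy0
  have hK1 : k ^ (1 + s) ≤ K := by rw [hK]; linarith
  have hK0 : 0 < K := by linarith
  refine ⟨hK1, ?_, ?_, ?_⟩
  · have e2 : K ^ (2 + s) = K ^ s * K ^ 2 := by
      rw [← Real.rpow_natCast, ← Real.rpow_add hK0]; congr 1; push_cast; ring
    have e3 : k ^ (2 + s) = (k ^ (1 + s)) ^ s := by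
      rw [← Real.rpow_mul hk0.le]; congr 1; linarith
    have e4 : (k ^ (1 + s)) ^ s ≤ K ^ s := Real.rpow_le_rpow hp1.le hK1 (by linarith)
    rw [e2, ← mul_assoc]
    apply mul_le_mul_of_nonneg_right _ (by positivity)
    rw [← e3] at e4
    linarith
  · have : M * K ≤ M * (2 * y) := by
      apply mul_le_mul_of_nonneg_left _ hM.le
      rw [hK]; linarith
    refine this.trans (le_of_eq ?_)
    rw [hydef]
    field_simp
  · nlinarith

lemma inv (J : ℕ) : 6 ≤ hh J ∧ 1 ≤ mm J ∧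
    2 * ((mm J * (2 * hh J) : ℕ) : ℝ) ≤ ((2 * hh J : ℕ) : ℝ) ^ (2 + Real.sqrt 2) := by
  obtain ⟨hs1, hs2⟩ := sqrt2_bounds
  induction J with
  | zero =>
    rw [hh_zero, mm_zero]
    refine ⟨le_rfl, by norm_num, ?_⟩
    have : ((12 : ℝ)) ^ (3 : ℝ) ≤ (12 : ℝ) ^ (2 + Real.sqrt 2) :=
      Real.rpow_le_rpow_of_exponent_le (by norm_num) (by linarith)
    have h3 : ((12 : ℝ)) ^ (3 : ℝ) = 1728 := by norm_num
    norm_num at *
    linarith
  | succ J ih =>
    obtain ⟨ih1, ih2, ih3⟩ := ih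
    have hk : (12 : ℝ) ≤ ((2 * hh J : ℕ) : ℝ) := by exact_mod_cast (by omega : 12 ≤ 2 * hh J)
    have hM : (0 : ℝ) < ((mm J * (2 * hh J) : ℕ) : ℝ) := by
      have : 0 < mm J * (2 * hh J) := Nat.mul_pos ih2 (by omega)
      exact_mod_cast this
    have hK : ((2 * hh (J + 1) : ℕ) : ℝ) =
        2 * (⌊((2 * hh J : ℕ) : ℝ) ^ c0 / (2 * ((mm J * (2 * hh J) : ℕ) : ℝ))⌋₊ : ℝ) := by
      rw [hh_succ]; push_cast; rfl
    obtain ⟨r1, r2, r3, r4⟩ := real_step _ _ hk hM ih3 _ hK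
    have h6 : 6 ≤ hh (J + 1) := by
      have : (12 * 12 : ℝ) ≤ ((2 * hh (J + 1) : ℕ) : ℝ) := by linarith
      have : 12 * 12 ≤ 2 * hh (J + 1) := by exact_mod_cast this
      omega
    refine ⟨h6, ?_, ?_⟩
    · rw [mm_succ]
      exact Nat.mul_pos (Nat.mul_pos ih2 (by omega)) (by omega)
    · refine le_trans (le_of_eq ?_) r2
      rw [mm_succ]
      push_cast
      ring

lemma inv2 (J : ℕ) : 12 * (2 * hh J) ≤ 2 * hh (J + 1) ∧
    ((mm (J + 1) : ℕ) : ℝ) ≤ ((2 * hh J : ℕ) : ℝ) ^ c0 := by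
  obtain ⟨ih1, ih2, ih3⟩ := inv J
  have hk : (12 : ℝ) ≤ ((2 * hh J : ℕ) : ℝ) := by exact_mod_cast (by omega : 12 ≤ 2 * hh J)
  have hM : (0 : ℝ) < ((mm J * (2 * hh J) : ℕ) : ℝ) := by
    have : 0 < mm J * (2 * hh J) := Nat.mul_pos ih2 (by omega)
    exact_mod_cast this
  have hK : ((2 * hh (J + 1) : ℕ) : ℝ) =
      2 * (⌊((2 * hh J : ℕ) : ℝ) ^ c0 / (2 * ((mm J * (2 * hh J) : ℕ) : ℝ))⌋₊ : ℝ) := by
    rw [hh_succ]; push_cast; rfl
  obtain ⟨r1, r2, r3, r4⟩ := real_step _ _ hk hM ih3 _ hK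
  refine ⟨by exact_mod_cast r4, ?_⟩
  refine le_trans (le_of_eq ?_) r3
  rw [mm_succ]
  push_cast
  ring

lemma qq_small (J : ℕ) : 4 * qq J < 2 * hh J := by
  induction J with
  | zero => rw [hh_zero]; simp [qq]
  | succ J ih =>
    have := (inv2 J).1
    simp only [qq]
    omega

lemma bb_le (J : ℕ) : bb J ≤ mm J := by
  induction J with
  | zero => rw [mm_zero]; simp [bb]
  | succ J ih =>
    obtain ⟨h1, h2, -⟩ := inv J
    obtain ⟨h3, -, -⟩ := inv (J + 1)
    rw [mm_succ]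
    simp only [bb]
    calc bb J + mm J * hh J ≤ mm J + mm J * hh J := by omega
      _ = mm J * (1 + hh J) := by ring
      _ ≤ mm J * (2 * hh J) := Nat.mul_le_mul_left _ (by omega)
      _ ≤ mm J * (2 * hh J) * (2 * hh (J + 1)) := Nat.le_mul_of_pos_right _ (by omega)

lemma dec' (J : ℕ) : (qq (J + 1) + qq J) * bb J < mm J := by
  cases J with
  | zero => simp [qq, bb, hh_zero, mm_zero]
  | succ J =>
    obtain ⟨h1, h2, -⟩ := inv J
    obtain ⟨h3, -, -⟩ := inv (J + 1)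
    have hq := qq_small (J + 1)
    have hb := bb_le J
    have e1 : qq (J + 1 + 1) + qq (J + 1) = 2 * hh (J + 1) + 2 * qq (J + 1) := by
      simp only [qq]; ring
    rw [e1, mm_succ]
    have hb2 : bb (J + 1) ≤ mm J * (1 + hh J) := by
      simp only [bb]; nlinarith
    have h5 : 2 * (2 * hh (J + 1) + 2 * qq (J + 1)) < 3 * (2 * hh (J + 1)) := by omega
    have h6 : 6 * (1 + hh J) ≤ 7 * hh J := by omega
    have h7 : 2 * (2 * hh (J + 1) + 2 * qq (J + 1)) * (6 * (mm J * (1 + hh J))) ≤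
        3 * (2 * hh (J + 1)) * (mm J * (7 * hh J)) := by
      apply Nat.mul_le_mul h5.le
      calc 6 * (mm J * (1 + hh J)) = mm J * (6 * (1 + hh J)) := by ring
        _ ≤ _ := Nat.mul_le_mul_left _ h6
    have h8 : (2 * hh (J + 1) + 2 * qq (J + 1)) * bb (J + 1) ≤
        (2 * hh (J + 1) + 2 * qq (J + 1)) * (mm J * (1 + hh J)) := Nat.mul_le_mul_left _ hb2
    have h9 : 0 < mm J * hh J * hh (J + 1) := by
      have : 0 < hh J := by omega
      have : 0 < hh (J + 1) := by omega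
      positivity
    nlinarith

/-- The data. -/
noncomputable def theData : Data where
  h := hh
  m := mm
  b := bb
  q := qq
  q0 := rfl
  qs := fun _ => rfl
  b0 := rfl
  bs := fun _ => rfl
  mdvd := fun J => by rw [mm_succ, mul_assoc]; exact Dvd.intro _ rfl
  hpos := fun J => by have := (inv J).1; omega
  mpos := fun J => (inv J).2.1
  dec := dec'
  big := fun J => by
    obtain ⟨h1, h2, -⟩ := inv J
    obtain ⟨h3, -, -⟩ := inv (J + 1)
    rw [mm_succ]
    have : 0 < mm J * (2 * hh J) := Nat.mul_pos h2 (by omega)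
    exact lt_mul_of_one_lt_right this (by omega)

theorem attainable_of_ge (c : ℝ) (hc : 3 + 2 * Real.sqrt 2 ≤ c) : Attainable c := by
  refine ⟨theData.a, theData.a_mono, theData.A_pos (theData.a_mem 0), ?_, ?_⟩
  · rw [theData.range_a]; exact theData.admissible
  · refine ⟨theData.b 0 + theData.m 0 * (2 * theData.h 0) + 1, fun n hn => ?_⟩
    have h1 := theData.gap (fun n => (n : ℝ) ^ c0)
      (fun a b hab => Real.rpow_le_rpow (by positivity) (by exact_mod_cast hab)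
        (by rw [c0]; positivity))
      (fun J => (inv2 J).2) (n := n) (by omega)
    refine h1.trans ?_
    simp only [Nat.cast_add, Nat.cast_one]
    exact Real.rpow_le_rpow_of_exponent_le (by linarith [Nat.cast_nonneg (α := ℝ) n]) hc

end Pool.Agent.Gap85
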