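import Mathlib

set_option autoImplicit false
set_option linter.unusedSectionVars false

namespace Pool.Agent.Lib_helper85.Crossing

variable {ι : Type*} [LinearOrder ι]

/-- Height at abscissa `t` of the line through the points with labels `s.1` and `s.2`. -/
noncomputable def L (x y : ι → ℝ) (s : ι × ι) (t : ℝ) : ℝ :=
  y s.1 + (y s.2 - y s.1) / (x s.2 - x s.1) * (t - x s.1)

lemma L_left (x y : ι → ℝ) (s : ι × ι) : L x y s (x s.1) = y s.1 := by
  simp [L]

lemma L_right {x : ι → ℝ} (hx : StrictMono x) (y : ι → ℝ) {s : ι × ι} (hs : s.1 < s.2) :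
    L x y s (x s.2) = y s.2 := by
  have h : x s.2 - x s.1 ≠ 0 := sub_ne_zero.mpr (hx hs).ne'
  unfold L
  rw [div_mul_cancel₀ _ h]
  ring

/-- `L s - L t` is affine. -/
lemma L_sub_affine (x y : ι → ℝ) (s t : ι × ι) :
    ∃ p q : ℝ, ∀ u, L x y s u - L x y t u = p + q * u := by
  refine ⟨(y s.1 - (y s.2 - y s.1) / (x s.2 - x s.1) * x s.1) -
      (y t.1 - (y t.2 - y t.1) / (x t.2 - x t.1) * x t.1),
    (y s.2 - y s.1) / (x s.2 - x s.1) - (y t.2 - y t.1) / (x t.2 - x t.1), fun u => ?_⟩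
  unfold L
  ring

/-- Two segments do not cross: the difference of heights has the same strict sign at both ends
of the common range. -/
def NC (x y : ι → ℝ) (s t : ι × ι) : Prop :=
  max (x s.1) (x t.1) ≤ min (x s.2) (x t.2) →
    0 < (L x y s (max (x s.1) (x t.1)) - L x y t (max (x s.1) (x t.1))) *
        (L x y s (min (x s.2) (x t.2)) - L x y t (min (x s.2) (x t.2)))

lemma NC.symm {x y : ι → ℝ} {s t : ι × ι} (h : NC x y s t) : NC x y t s := by
  intro h1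
  rw [max_comm, min_comm] at h1
  have := h h1
  rw [max_comm, min_comm (x t.2)]
  nlinarith [this]

lemma affine_pos {p q l r u : ℝ} (hl : 0 < p + q * l) (hr : 0 < p + q * r) (h1 : l ≤ u)
    (h2 : u ≤ r) : 0 < p + q * u := by
  rcases le_total 0 q with h | h
  · nlinarith
  · nlinarith

lemma affine_neg {p q l r u : ℝ} (hl : p + q * l < 0) (hr : p + q * r < 0) (h1 : l ≤ u)
    (h2 : u ≤ r) : p + q * u < 0 := by
  rcases le_total 0 q with h | h
  · nlinarith
  · nlinarith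

/-- Consequence of `NC`: order of heights is the same at all points of the common range. -/
lemma NC.trichotomy {x y : ι → ℝ} {s t : ι × ι} (h : NC x y s t)
    (hlr : max (x s.1) (x t.1) ≤ min (x s.2) (x t.2)) :
    (∀ u, x s.1 ≤ u → x t.1 ≤ u → u ≤ x s.2 → u ≤ x t.2 → L x y s u < L x y t u) ∨
    (∀ u, x s.1 ≤ u → x t.1 ≤ u → u ≤ x s.2 → u ≤ x t.2 → L x y t u < L x y s u) := by
  obtain ⟨p, q, hpq⟩ := L_sub_affine x y s t
  have h0 := h hlr
  rw [hpq, hpq] at h0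
  rcases pos_and_pos_or_neg_and_neg_of_mul_pos h0 with ⟨ha, hb⟩ | ⟨ha, hb⟩
  · right
    intro u h1 h2 h3 h4
    have := affine_pos ha hb (max_le h1 h2) (le_min h3 h4)
    rw [← hpq] at this
    linarith
  · left
    intro u h1 h2 h3 h4
    have := affine_neg ha hb (max_le h1 h2) (le_min h3 h4)
    rw [← hpq] at this
    linarith

lemma NC.lt_of_lt {x y : ι → ℝ} {s t : ι × ι} (h : NC x y s t) {u v : ℝ}
    (hu1 : x s.1 ≤ u) (hu2 : x t.1 ≤ u) (hu3 : u ≤ x s.2) (hu4 : u ≤ x t.2)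
    (hv1 : x s.1 ≤ v) (hv2 : x t.1 ≤ v) (hv3 : v ≤ x s.2) (hv4 : v ≤ x t.2)
    (hlt : L x y s u < L x y t u) : L x y s v < L x y t v := by
  have hlr : max (x s.1) (x t.1) ≤ min (x s.2) (x t.2) :=
    (max_le hu1 hu2).trans (le_min hu3 hu4)
  rcases h.trichotomy hlr with h' | h'
  · exact h' v hv1 hv2 hv3 hv4
  · exact absurd hlt (h' u hu1 hu2 hu3 hu4).not_gt

lemma NC.ne {x y : ι → ℝ} {s t : ι × ι} (h : NC x y s t) {u : ℝ}
    (hu1 : x s.1 ≤ u) (hu2 : x t.1 ≤ u) (hu3 : u ≤ x s.2) (hu4 : u ≤ x t.2) :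
    L x y s u ≠ L x y t u := by
  have hlr : max (x s.1) (x t.1) ≤ min (x s.2) (x t.2) :=
    (max_le hu1 hu2).trans (le_min hu3 hu4)
  rcases h.trichotomy hlr with h' | h'
  · exact (h' u hu1 hu2 hu3 hu4).ne
  · exact (h' u hu1 hu2 hu3 hu4).ne'

/-- strictly between -/
def Btw (a b c : ℝ) : Prop := (a < b ∧ b < c) ∨ (c < b ∧ b < a)

/-- A crossing-free set of segments with endpoints in `V` (pairwise disjoint endpoints), which
moreover do not pass through other points of `V`. -/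
structure IsNC (x y : ι → ℝ) (V : Finset ι) (M : Finset (ι × ι)) : Prop where
  mem : ∀ s ∈ M, s.1 ∈ V ∧ s.2 ∈ V ∧ s.1 < s.2
  disj : ∀ s ∈ M, ∀ t ∈ M, s ≠ t → s.1 ≠ t.1 ∧ s.1 ≠ t.2 ∧ s.2 ≠ t.1 ∧ s.2 ≠ t.2
  nc : ∀ s ∈ M, ∀ t ∈ M, s ≠ t → NC x y s t
  avoid : ∀ s ∈ M, ∀ r ∈ V, s.1 < r → r < s.2 → y r ≠ L x y s (x r)

lemma IsNC.subset {x y : ι → ℝ} {V : Finset ι} {M M' : Finset (ι × ι)} (h : IsNC x y V M)
    (hM : M' ⊆ M) : IsNC x y V M' :=
  ⟨fun s hs => h.mem s (hM hs), fun s hs t ht => h.disj s (hM hs) t (hM ht),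
    fun s hs t ht => h.nc s (hM hs) t (hM ht), fun s hs => h.avoid s (hM hs)⟩

/-- the point `r` sees the segment `s` vertically, no segment of `M` being in between -/
def Sees (x y : ι → ℝ) (M : Finset (ι × ι)) (s : ι × ι) (r : ι) : Prop :=
  s.1 < r ∧ r < s.2 ∧
    ∀ t ∈ M, t.1 < r → r < t.2 → ¬ Btw (y r) (L x y t (x r)) (L x y s (x r))

open Classical in
/-- the set of points which see `s` -/
noncomputable def E (x y : ι → ℝ) (V : Finset ι) (M : Finset (ι × ι)) (s : ι × ι) : Finset ι :=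
  V.filter (Sees x y M s)

lemma mem_E {x y : ι → ℝ} {V : Finset ι} {M : Finset (ι × ι)} {s : ι × ι} {r : ι} :
    r ∈ E x y V M s ↔ r ∈ V ∧ Sees x y M s r := by
  simp [E]

end Pool.Agent.Lib_helper85.Crossing
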