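import Pool.Agent.Lib_helper85.NCCount

set_option autoImplicit false
set_option linter.unusedSectionVars false

namespace Pool.Agent.Lib_helper85.Crossing

variable {ι : Type*} [LinearOrder ι] {x y : ι → ℝ} {V : Finset ι} {M : Finset (ι × ι)}
  {p q q' : ι}

/-- rank of `r` in `F` -/
def rk (F : Finset ι) (r : ι) : ℕ := (F.filter (· < r)).card

lemma rk_lt {F : Finset ι} {r : ι} (hr : r ∈ F) : rk F r < F.card := by
  apply Finset.card_lt_card
  refine ⟨Finset.filter_subset _ _, fun h => ?_⟩
  have := (Finset.mem_filter.mp (h hr)).2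
  exact lt_irrefl _ this

lemma rk_lt_rk {F : Finset ι} {r s : ι} (hr : r ∈ F) (h : r < s) : rk F r < rk F s := by
  apply Finset.card_lt_card
  refine ⟨fun a ha => ?_, fun hsub => ?_⟩
  · rw [Finset.mem_filter] at ha ⊢
    exact ⟨ha.1, ha.2.trans h⟩
  · have := (Finset.mem_filter.mp (hsub (Finset.mem_filter.mpr ⟨hr, h⟩))).2
    exact lt_irrefl _ this

lemma rk_inj {F : Finset ι} {r s : ι} (hr : r ∈ F) (hs : s ∈ F) (h : rk F r = rk F s) :
    r = s := by
  rcases lt_trichotomy r s with h1 | h1 | h1
  · exact absurd h (rk_lt_rk hr h1).ne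
  · exact h1
  · exact absurd h (rk_lt_rk hs h1).ne'

open Classical in
/-- the code of the candidate `q` -/
noncomputable def code (x y : ι → ℝ) (V : Finset ι) (M : Finset (ι × ι)) (p q : ι) :
    ℕ × Finset ℕ :=
  ((E x y V M (p, q)).card,
    ((E x y V M (p, q)).filter (fun r => y r < L x y (p, q) (x r))).image
      (rk (E x y V M (p, q))))

lemma code_inj (hx : StrictMono x) (hq : Cand x y V M p q) (hq' : Cand x y V M p q')
    (h : code x y V M p q = code x y V M p q') : q = q' := by
  classical
  by_contra hne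
  obtain ⟨w, h1, h2, h3⟩ := divergence hx hq hq' hne
  have hcard : (E x y V M (p, q)).card = (E x y V M (p, q')).card := congrArg Prod.fst h
  have himg := congrArg Prod.snd h
  simp only [code] at himg
  have hfil : (E x y V M (p, q)).filter (· < w) = (E x y V M (p, q')).filter (· < w) := by
    ext r
    rw [Finset.mem_filter, Finset.mem_filter]
    constructor
    · rintro ⟨a, b⟩; exact ⟨(h1 r b).mp a, b⟩
    · rintro ⟨a, b⟩; exact ⟨(h1 r b).mpr a, b⟩
  have hrk : rk (E x y V M (p, q)) w = rk (E x y V M (p, q')) w := by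
    unfold rk; rw [hfil]
  rcases h3 with ⟨ha, hb, hc⟩ | ⟨ha, hb⟩ | ⟨ha, hb⟩
  · by_cases hup : y w < L x y (p, q) (x w)
    · have hmem : rk (E x y V M (p, q)) w ∈
          ((E x y V M (p, q)).filter (fun r => y r < L x y (p, q) (x r))).image
            (rk (E x y V M (p, q))) :=
        Finset.mem_image.mpr ⟨w, Finset.mem_filter.mpr ⟨ha, hup⟩, rfl⟩
      rw [himg] at hmem
      obtain ⟨r, hr, hr2⟩ := Finset.mem_image.mp hmem
      rw [Finset.mem_filter] at hr
      have : r = w := rk_inj hr.1 hb (hr2.trans hrk)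
      rw [this] at hr
      exact (hc.mp hup) hr.2
    · have hup' : y w < L x y (p, q') (x w) := by
        by_contra hcon
        exact hup (hc.mpr hcon)
      have hmem : rk (E x y V M (p, q')) w ∈
          ((E x y V M (p, q')).filter (fun r => y r < L x y (p, q') (x r))).image
            (rk (E x y V M (p, q'))) :=
        Finset.mem_image.mpr ⟨w, Finset.mem_filter.mpr ⟨hb, hup'⟩, rfl⟩
      rw [← himg] at hmem
      obtain ⟨r, hr, hr2⟩ := Finset.mem_image.mp hmem
      rw [Finset.mem_filter] at hr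
      have : r = w := rk_inj hr.1 ha (hr2.trans hrk.symm)
      rw [this] at hr
      exact hup hr.2
  · have hall : (E x y V M (p, q)).filter (· < w) = E x y V M (p, q) := by
      apply Finset.filter_true_of_mem
      intro r hr
      rw [mem_E] at hr
      rw [ha]; exact hr.2.2.1
    have h5 : rk (E x y V M (p, q)) w = (E x y V M (p, q)).card := by
      unfold rk; rw [hall]
    have h6 := rk_lt hb
    omega
  · have hall : (E x y V M (p, q')).filter (· < w) = E x y V M (p, q') := by
      apply Finset.filter_true_of_mem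
      intro r hr
      rw [mem_E] at hr
      rw [ha]; exact hr.2.2.1
    have h5 : rk (E x y V M (p, q')) w = (E x y V M (p, q')).card := by
      unfold rk; rw [hall]
    have h6 := rk_lt hb
    omega

open Classical in
lemma card_cand_le (hx : StrictMono x) (V : Finset ι) (M : Finset (ι × ι)) (p : ι) (D : ℕ) :
    (V.filter (fun q => Cand x y V M p q ∧ (E x y V M (p, q)).card ≤ D)).card
      ≤ (D + 1) * 2 ^ D := by
  have : (D + 1) * 2 ^ D = ((Finset.range (D + 1)) ×ˢ (Finset.range D).powerset).card := by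
    rw [Finset.card_product, Finset.card_range, Finset.card_powerset, Finset.card_range]
  rw [this]
  apply Finset.card_le_card_of_injOn (code x y V M p)
  · intro q hq
    simp only [Finset.coe_filter, Set.mem_ofPred_eq] at hq
    obtain ⟨_, _, hq3⟩ := hq
    simp only [Finset.coe_product, Set.mem_prod, Finset.mem_coe, Finset.mem_range,
      Finset.mem_powerset, code]
    refine ⟨by omega, ?_⟩
    intro i hi
    obtain ⟨r, hr, rfl⟩ := Finset.mem_image.mp hi
    rw [Finset.mem_filter] at hr
    have := rk_lt hr.1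
    rw [Finset.mem_range]
    omega
  · intro q hq q' hq' h
    simp only [Finset.coe_filter, Set.mem_ofPred_eq] at hq hq'
    exact code_inj hx hq.2.1 hq'.2.1 h

open Classical in
/-- crossing-free matchings with `k` segments -/
noncomputable def nc (x y : ι → ℝ) (V : Finset ι) (k : ℕ) : Finset (Finset (ι × ι)) :=
  ((V ×ˢ V).powersetCard k).filter (IsNC x y V)

lemma mem_nc {k : ℕ} : M ∈ nc x y V k ↔ IsNC x y V M ∧ M.card = k := by
  classical
  unfold nc
  rw [Finset.mem_filter, Finset.mem_powersetCard]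
  constructor
  · rintro ⟨⟨_, h2⟩, h3⟩; exact ⟨h3, h2⟩
  · rintro ⟨h1, h2⟩
    refine ⟨⟨fun s hs => ?_, h2⟩, h1⟩
    rw [Finset.mem_product]
    exact ⟨(h1.mem s hs).1, (h1.mem s hs).2.1⟩

open Classical in
lemma card_pairs_le (hx : StrictMono x) (V : Finset ι) (M : Finset (ι × ι)) (D : ℕ) :
    ((V ×ˢ V).filter (fun s => Cand x y V M s.1 s.2 ∧ (E x y V M s).card ≤ D)).card
      ≤ V.card * ((D + 1) * 2 ^ D) := by
  rw [Finset.card_filter, Finset.sum_product]
  calc ∑ p ∈ V, ∑ q ∈ V, (if Cand x y V M (p, q).1 (p, q).2 ∧ (E x y V M (p, q)).card ≤ D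
          then 1 else 0)
      = ∑ p ∈ V, (V.filter (fun q => Cand x y V M p q ∧ (E x y V M (p, q)).card ≤ D)).card := by
        refine Finset.sum_congr rfl fun p _ => ?_
        rw [Finset.card_filter]
    _ ≤ ∑ _p ∈ V, (D + 1) * 2 ^ D := Finset.sum_le_sum fun p _ => card_cand_le hx V M p D
    _ = V.card * ((D + 1) * 2 ^ D) := by rw [Finset.sum_const, smul_eq_mul]

lemma insert_cand (h : IsNC x y V M) {s : ι × ι} (hs : s ∈ M) :
    Cand x y V (M.erase s) s.1 s.2 := by
  refine ⟨(h.mem s hs).2.1, (h.mem s hs).2.2, ?_, ?_⟩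
  · simp
  · have : insert (s.1, s.2) (M.erase s) = M := by
      rw [Prod.mk.eta, Finset.insert_erase hs]
    rw [this]; exact h

open Classical in
lemma card_low (h : IsNC x y V M) (hx : StrictMono x) (hV : V.card ≤ 8 * M.card) :
    M.card ≤ 2 * (M.filter (fun s => (E x y V (M.erase s) s).card ≤ 31)).card := by
  have h1 := sum_deg_le h hx
  have h2 : ∑ s ∈ M.filter (fun s => ¬ (E x y V (M.erase s) s).card ≤ 31),
      (E x y V (M.erase s) s).card ≤ ∑ s ∈ M, (E x y V (M.erase s) s).card :=
    Finset.sum_le_sum_of_subset (Finset.filter_subset _ _)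
  have h3 : (M.filter (fun s => ¬ (E x y V (M.erase s) s).card ≤ 31)).card * 32 ≤
      ∑ s ∈ M.filter (fun s => ¬ (E x y V (M.erase s) s).card ≤ 31),
        (E x y V (M.erase s) s).card := by
    rw [← smul_eq_mul, ← Finset.sum_const]
    refine Finset.sum_le_sum fun s hs => ?_
    have := (Finset.mem_filter.mp hs).2
    omega
  have h4 := Finset.card_filter_add_card_filter_not (s := M)
    (fun s => (E x y V (M.erase s) s).card ≤ 31)
  omega

/-- one step of the recursion -/
lemma nc_step (hx : StrictMono x) (V : Finset ι) (k : ℕ) (hV : V.card ≤ 8 * (k + 1)) :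
    (nc x y V (k + 1)).card ≤ 2 ^ 40 * (nc x y V k).card := by
  classical
  set A : Finset (Σ _ : Finset (ι × ι), ι × ι) :=
    (nc x y V (k + 1)).sigma (fun M => M.filter (fun s => (E x y V (M.erase s) s).card ≤ 31))
    with hA
  set B : Finset (Σ _ : Finset (ι × ι), ι × ι) :=
    (nc x y V k).sigma (fun M =>
      (V ×ˢ V).filter (fun s => Cand x y V M s.1 s.2 ∧ (E x y V M s).card ≤ 31)) with hB
  have hAB : A.card ≤ B.card := by
    apply Finset.card_le_card_of_injOn (fun a => (⟨a.1.erase a.2, a.2⟩ : Σ _ : Finset (ι × ι), ι × ι))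
    · rintro ⟨M, s⟩ hMs
      rw [Finset.mem_coe, hA, Finset.mem_sigma] at hMs
      obtain ⟨h1, h2⟩ := hMs
      rw [mem_nc] at h1
      rw [Finset.mem_filter] at h2
      rw [Finset.mem_coe, hB, Finset.mem_sigma]
      refine ⟨?_, ?_⟩
      · show M.erase s ∈ nc x y V k
        rw [mem_nc]
        refine ⟨h1.1.subset (Finset.erase_subset _ _), ?_⟩
        rw [Finset.card_erase_of_mem h2.1, h1.2]
        rfl
      · show s ∈ (V ×ˢ V).filter _
        rw [Finset.mem_filter, Finset.mem_product]
        exact ⟨⟨(h1.1.mem s h2.1).1, (h1.1.mem s h2.1).2.1⟩, insert_cand h1.1 h2.1, h2.2⟩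
    · rintro ⟨M, s⟩ hMs ⟨M', s'⟩ hMs' heq
      rw [Finset.mem_coe, hA, Finset.mem_sigma] at hMs hMs'
      have h2 : s ∈ M := (Finset.mem_filter.mp hMs.2).1
      have h2' : s' ∈ M' := (Finset.mem_filter.mp hMs'.2).1
      simp only [Sigma.mk.injEq, heq_eq_eq] at heq
      obtain ⟨e1, e2⟩ := heq
      subst e2
      have : M = M' := by
        rw [← Finset.insert_erase h2, e1, Finset.insert_erase h2']
      subst this
      rfl
  have hAc : (k + 1) * (nc x y V (k + 1)).card ≤ 2 * A.card := by
    rw [hA, Finset.card_sigma, Finset.mul_sum]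
    calc (k + 1) * (nc x y V (k + 1)).card = ∑ _M ∈ nc x y V (k + 1), (k + 1) := by
          rw [Finset.sum_const, smul_eq_mul, mul_comm]
      _ ≤ _ := Finset.sum_le_sum fun M hM => by
          rw [mem_nc] at hM
          have := card_low hM.1 hx (by rw [hM.2]; exact hV)
          rw [hM.2] at this
          exact this
  have hBc : B.card ≤ (nc x y V k).card * (V.card * ((31 + 1) * 2 ^ 31)) := by
    rw [hB, Finset.card_sigma]
    calc _ ≤ ∑ _M ∈ nc x y V k, V.card * ((31 + 1) * 2 ^ 31) :=
          Finset.sum_le_sum fun M _ => card_pairs_le hx V M 31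
      _ = _ := by rw [Finset.sum_const, smul_eq_mul]
  have h1 : (k + 1) * (nc x y V (k + 1)).card ≤
      (k + 1) * (2 ^ 40 * (nc x y V k).card) := by
    calc (k + 1) * (nc x y V (k + 1)).card ≤ 2 * A.card := hAc
      _ ≤ 2 * B.card := Nat.mul_le_mul_left _ hAB
      _ ≤ 2 * ((nc x y V k).card * (V.card * ((31 + 1) * 2 ^ 31))) := Nat.mul_le_mul_left _ hBc
      _ ≤ 2 * ((nc x y V k).card * ((8 * (k + 1)) * ((31 + 1) * 2 ^ 31))) := by gcongr
      _ = (k + 1) * (2 ^ 40 * (nc x y V k).card) := by ring
  exact Nat.le_of_mul_le_mul_left h1 (Nat.succ_pos k)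

open Classical in
/-- set of endpoints -/
noncomputable def ends (M : Finset (ι × ι)) : Finset ι := M.image Prod.fst ∪ M.image Prod.snd

lemma fst_mem_ends {s : ι × ι} (hs : s ∈ M) : s.1 ∈ ends M := by
  classical
  unfold ends
  exact Finset.mem_union_left _ (Finset.mem_image_of_mem _ hs)

lemma snd_mem_ends {s : ι × ι} (hs : s ∈ M) : s.2 ∈ ends M := by
  classical
  unfold ends
  exact Finset.mem_union_right _ (Finset.mem_image_of_mem _ hs)

lemma ends_subset (h : IsNC x y V M) : ends M ⊆ V := by
  classical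
  unfold ends
  intro r hr
  rw [Finset.mem_union, Finset.mem_image, Finset.mem_image] at hr
  rcases hr with ⟨s, hs, rfl⟩ | ⟨s, hs, rfl⟩
  · exact (h.mem s hs).1
  · exact (h.mem s hs).2.1

lemma card_ends (h : IsNC x y V M) : (ends M).card = 2 * M.card := by
  classical
  unfold ends
  rw [Finset.card_union_of_disjoint, Finset.card_image_of_injOn, Finset.card_image_of_injOn]
  · ring
  · intro s hs t ht hst
    by_contra hne
    exact (h.disj s hs t ht hne).2.2.2 hst
  · intro s hs t ht hst
    by_contra hne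
    exact (h.disj s hs t ht hne).1 hst
  · rw [Finset.disjoint_left]
    intro r hr hr'
    obtain ⟨s, hs, rfl⟩ := Finset.mem_image.mp hr
    obtain ⟨t, ht, hst⟩ := Finset.mem_image.mp hr'
    by_cases hne : s = t
    · subst hne
      exact absurd hst (h.mem s hs).2.2.ne'
    · exact (h.disj s hs t ht hne).2.1 hst.symm

lemma nc_subset_biUnion (x y : ι → ℝ) (V : Finset ι) (k : ℕ) [DecidableEq (Finset (ι × ι))] :
    nc x y V k ⊆ (V.powersetCard (2 * k)).biUnion (fun W => nc x y W k) := by
  intro M hM
  rw [mem_nc] at hM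
  rw [Finset.mem_biUnion]
  refine ⟨ends M, ?_, ?_⟩
  · rw [Finset.mem_powersetCard]
    exact ⟨ends_subset hM.1, by rw [card_ends hM.1, hM.2]⟩
  · rw [mem_nc]
    refine ⟨⟨fun s hs => ⟨fst_mem_ends hs, snd_mem_ends hs, (hM.1.mem s hs).2.2⟩, hM.1.disj,
      hM.1.nc, fun s hs r hr => hM.1.avoid s hs r (ends_subset hM.1 hr)⟩, hM.2⟩

lemma nc_card_le_of_sub (x y : ι → ℝ) (V : Finset ι) (k c : ℕ)
    (hc : ∀ W : Finset ι, W.card = 2 * k → (nc x y W k).card ≤ c) :
    (nc x y V k).card ≤ 2 ^ V.card * c := by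
  classical
  calc (nc x y V k).card ≤ ((V.powersetCard (2 * k)).biUnion (fun W => nc x y W k)).card :=
        Finset.card_le_card (nc_subset_biUnion x y V k)
    _ ≤ ∑ W ∈ V.powersetCard (2 * k), (nc x y W k).card := Finset.card_biUnion_le
    _ ≤ ∑ _W ∈ V.powersetCard (2 * k), c := Finset.sum_le_sum fun W hW =>
        hc W (Finset.mem_powersetCard.mp hW).2
    _ = (V.powersetCard (2 * k)).card * c := by rw [Finset.sum_const, smul_eq_mul]
    _ ≤ 2 ^ V.card * c := by
        gcongr
        rw [Finset.card_powersetCard]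
        exact Nat.choose_le_two_pow _ _

/-- exponential bound on the number of crossing-free perfect matchings -/
theorem nc_perfect_card_le (hx : StrictMono x) (y : ι → ℝ) (m : ℕ) :
    ∀ V : Finset ι, V.card = 2 * m → (nc x y V m).card ≤ (2 ^ 44) ^ m := by
  induction m using Nat.strong_induction_on with
  | _ m ih =>
    intro V hV
    rcases Nat.eq_zero_or_pos m with h0 | hpos
    · subst h0
      have : (nc x y V 0).card ≤ ((V ×ˢ V).powersetCard 0).card := by
        classical
        unfold nc
        exact Finset.card_filter_le _ _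
      simpa using this
    · set k0 := m / 2 with hk0
      have hk0m : k0 < m := Nat.div_lt_self hpos (by norm_num)
      have hstep : ∀ j, (nc x y V (k0 + j)).card ≤ (2 ^ 40) ^ j * (nc x y V k0).card := by
        intro j
        induction j with
        | zero => simp
        | succ j ihj =>
          have h1 := nc_step (y := y) hx V (k0 + j) (by omega)
          calc (nc x y V (k0 + (j + 1))).card = (nc x y V (k0 + j + 1)).card := by rw [add_assoc]
            _ ≤ 2 ^ 40 * (nc x y V (k0 + j)).card := h1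
            _ ≤ 2 ^ 40 * ((2 ^ 40) ^ j * (nc x y V k0).card) := Nat.mul_le_mul_left _ ihj
            _ = (2 ^ 40) ^ (j + 1) * (nc x y V k0).card := by ring
      have hbase := nc_card_le_of_sub x y V k0 ((2 ^ 44) ^ k0) (fun W hW => ih k0 hk0m W hW)
      have h2 := hstep (m - k0)
      rw [Nat.add_sub_cancel' hk0m.le] at h2
      calc (nc x y V m).card ≤ (2 ^ 40) ^ (m - k0) * (nc x y V k0).card := h2
        _ ≤ (2 ^ 40) ^ (m - k0) * (2 ^ V.card * (2 ^ 44) ^ k0) := Nat.mul_le_mul_left _ hbase
        _ ≤ (2 ^ 40) ^ (m - k0) * (2 ^ (4 * (m - k0)) * (2 ^ 44) ^ k0) := by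
            gcongr
            · norm_num
            · omega
        _ = (2 ^ 44) ^ m := by
            rw [← pow_mul, ← pow_mul, ← pow_mul, ← pow_add, ← pow_add]
            congr 1
            omega

/-- exponential bound on the number of crossing-free matchings with `n` segments -/
theorem nc_card_le (hx : StrictMono x) (y : ι → ℝ) (V : Finset ι) (n : ℕ) :
    (nc x y V n).card ≤ 2 ^ V.card * (2 ^ 44) ^ n :=
  nc_card_le_of_sub x y V n _ (fun W hW => nc_perfect_card_le hx y n W hW)

end Pool.Agent.Lib_helper85.Crossing
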