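import Pool.Agent.Lib_helper85.NCBasic

set_option autoImplicit false
set_option linter.unusedSectionVars false

namespace Pool.Agent.Lib_helper85.Crossing

variable {ι : Type*} [LinearOrder ι] {x y : ι → ℝ} {V : Finset ι} {M : Finset (ι × ι)}

lemma same_side_unique (h : IsNC x y V M) (hx : StrictMono x) {r : ι} {s t : ι × ι}
    (hs : s ∈ M) (ht : t ∈ M)
    (hrs : Sees x y (M.erase s) s r) (hrt : Sees x y (M.erase t) t r)
    (hside : (y r < L x y s (x r) ∧ y r < L x y t (x r)) ∨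
      (L x y s (x r) < y r ∧ L x y t (x r) < y r)) : s = t := by
  by_contra hne
  have hnc := h.nc s hs t ht hne
  obtain ⟨h1, h2, h3⟩ := hrs
  obtain ⟨h4, h5, h6⟩ := hrt
  have hdiff := hnc.ne (hx h1).le (hx h4).le (hx h2).le (hx h5).le
  have hs' : s ∈ M.erase t := Finset.mem_erase.mpr ⟨hne, hs⟩
  have ht' : t ∈ M.erase s := Finset.mem_erase.mpr ⟨fun e => hne e.symm, ht⟩
  have hA := h3 t ht' h4 h5
  have hB := h6 s hs' h1 h2
  unfold Btw at hA hB
  rcases hside with ⟨a, b⟩ | ⟨a, b⟩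
  · rcases lt_or_gt_of_ne hdiff with c | c
    · exact hB (Or.inl ⟨a, c⟩)
    · exact hA (Or.inl ⟨b, c⟩)
  · rcases lt_or_gt_of_ne hdiff with c | c
    · exact hA (Or.inr ⟨c, b⟩)
    · exact hB (Or.inr ⟨c, a⟩)

open Classical in
lemma seen_le_two (h : IsNC x y V M) (hx : StrictMono x) {r : ι} (hr : r ∈ V) :
    (M.filter (fun s => Sees x y (M.erase s) s r)).card ≤ 2 := by
  have hsub : M.filter (fun s => Sees x y (M.erase s) s r) ⊆
      M.filter (fun s => Sees x y (M.erase s) s r ∧ y r < L x y s (x r)) ∪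
      M.filter (fun s => Sees x y (M.erase s) s r ∧ L x y s (x r) < y r) := by
    intro s hs
    rw [Finset.mem_filter] at hs
    obtain ⟨hsM, hsee⟩ := hs
    rw [Finset.mem_union, Finset.mem_filter, Finset.mem_filter]
    rcases lt_or_gt_of_ne (h.avoid s hsM r hr hsee.1 hsee.2.1) with c | c
    · exact Or.inl ⟨hsM, hsee, c⟩
    · exact Or.inr ⟨hsM, hsee, c⟩
  refine (Finset.card_le_card hsub).trans ((Finset.card_union_le _ _).trans ?_)
  have h1 : (M.filter (fun s => Sees x y (M.erase s) s r ∧ y r < L x y s (x r))).card ≤ 1 := by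
    rw [Finset.card_le_one]
    intro a ha b hb
    rw [Finset.mem_filter] at ha hb
    exact same_side_unique h hx ha.1 hb.1 ha.2.1 hb.2.1 (Or.inl ⟨ha.2.2, hb.2.2⟩)
  have h2 : (M.filter (fun s => Sees x y (M.erase s) s r ∧ L x y s (x r) < y r)).card ≤ 1 := by
    rw [Finset.card_le_one]
    intro a ha b hb
    rw [Finset.mem_filter] at ha hb
    exact same_side_unique h hx ha.1 hb.1 ha.2.1 hb.2.1 (Or.inr ⟨ha.2.2, hb.2.2⟩)
  omega

/-- total degree at most `2|V|` -/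
lemma sum_deg_le (h : IsNC x y V M) (hx : StrictMono x) :
    ∑ s ∈ M, (E x y V (M.erase s) s).card ≤ 2 * V.card := by
  classical
  have h1 : ∑ s ∈ M, (E x y V (M.erase s) s).card =
      ∑ r ∈ V, (M.filter (fun s => Sees x y (M.erase s) s r)).card := by
    have := Finset.sum_card_bipartiteAbove_eq_sum_card_bipartiteBelow
      (s := M) (t := V) (fun s r => Sees x y (M.erase s) s r)
    simp only [Finset.bipartiteAbove, Finset.bipartiteBelow] at this
    rw [← this]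
    refine Finset.sum_congr rfl fun s _ => ?_
    unfold E
    congr
  rw [h1]
  calc ∑ r ∈ V, (M.filter (fun s => Sees x y (M.erase s) s r)).card
      ≤ ∑ _r ∈ V, 2 := Finset.sum_le_sum fun r hr => by
        convert seen_le_two h hx hr
    _ = 2 * V.card := by rw [Finset.sum_const, smul_eq_mul, mul_comm]

/-- `(p,q)` can be inserted into `M` -/
structure Cand (x y : ι → ℝ) (V : Finset ι) (M : Finset (ι × ι)) (p q : ι) : Prop where
  hV : q ∈ V
  lt : p < q
  notMem : (p, q) ∉ M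
  isNC : IsNC x y V (insert (p, q) M)

variable {p q q' : ι}

lemma Cand.nc_t (h : Cand x y V M p q) {t : ι × ι} (ht : t ∈ M) : NC x y (p, q) t :=
  h.isNC.nc _ (Finset.mem_insert_self _ _) _ (Finset.mem_insert_of_mem ht)
    (fun e => h.notMem (e ▸ ht))

lemma Cand.disj_t (h : Cand x y V M p q) {t : ι × ι} (ht : t ∈ M) :
    p ≠ t.1 ∧ p ≠ t.2 ∧ q ≠ t.1 ∧ q ≠ t.2 :=
  h.isNC.disj _ (Finset.mem_insert_self _ _) _ (Finset.mem_insert_of_mem ht)
    (fun e => h.notMem (e ▸ ht))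

lemma Cand.avoid (h : Cand x y V M p q) {r : ι} (hr : r ∈ V) (h1 : p < r) (h2 : r < q) :
    y r ≠ L x y (p, q) (x r) :=
  h.isNC.avoid _ (Finset.mem_insert_self _ _) r hr h1 h2

lemma Cand.mem_t (h : Cand x y V M p q) {t : ι × ι} (ht : t ∈ M) :
    t.1 ∈ V ∧ t.2 ∈ V ∧ t.1 < t.2 :=
  h.isNC.mem _ (Finset.mem_insert_of_mem ht)

/-- `r` is a point at which the rays `pq`, `pq'` can be told apart -/
def Div (x y : ι → ℝ) (p q q' r : ι) : Prop :=
  p < r ∧ (r = q ∨ r = q' ∨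
    (r < q ∧ r < q' ∧ Btw (L x y (p, q) (x r)) (y r) (L x y (p, q') (x r))))

lemma no_between (hx : StrictMono x) (hq : Cand x y V M p q) (hq' : Cand x y V M p q')
    {t : ι × ι} (ht : t ∈ M) {r : ι} (hpr : p < r) (hrq : r ≤ q) (hrq' : r ≤ q')
    (hmin : ∀ s ∈ V, Div x y p q q' s → r ≤ s) (h1 : t.1 < r) (h2 : r < t.2) :
    ¬ Btw (L x y (p, q) (x r)) (L x y t (x r)) (L x y (p, q') (x r)) := by
  intro hB
  have hnc := hq.nc_t ht
  have hnc' := hq'.nc_t ht
  have hd := hq.disj_t ht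
  have hp : L x y (p, q) (x p) = y p := L_left x y (p, q)
  have hp' : L x y (p, q') (x p) = y p := L_left x y (p, q')
  have htV := hq.mem_t ht
  have ht1 : L x y t (x t.1) = y t.1 := L_left x y t
  -- transport of inequalities from abscissa `x r` to the left
  have tr : ∀ v : ℝ, x p ≤ v → x t.1 ≤ v → v ≤ x r →
      Btw (L x y (p, q) v) (L x y t v) (L x y (p, q') v) := by
    intro v hv1 hv2 hv3
    have e1 : x r ≤ x q := hx.monotone hrq
    have e2 : x r ≤ x q' := hx.monotone hrq'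
    have e3 : x r ≤ x t.2 := (hx h2).le
    have e4 : x p ≤ x r := (hx hpr).le
    have e5 : x t.1 ≤ x r := (hx h1).le
    rcases hB with ⟨a, b⟩ | ⟨a, b⟩
    · left
      exact ⟨hnc.lt_of_lt e4 e5 e1 e3 hv1 hv2 (hv3.trans e1) (hv3.trans e3) a,
        hnc'.symm.lt_of_lt e5 e4 e3 e2 hv2 hv1 (hv3.trans e3) (hv3.trans e2) b⟩
    · right
      exact ⟨hnc'.lt_of_lt e4 e5 e2 e3 hv1 hv2 (hv3.trans e2) (hv3.trans e3) a,
        hnc.symm.lt_of_lt e5 e4 e3 e1 hv2 hv1 (hv3.trans e3) (hv3.trans e1) b⟩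
  have hpt : p < t.1 := by
    by_contra hcon
    have hlt : t.1 < p := lt_of_le_of_ne (not_lt.mp hcon) (fun e => hd.1 e.symm)
    have := tr (x p) le_rfl (hx hlt).le (hx hpr).le
    rw [hp, hp'] at this
    rcases this with ⟨a, b⟩ | ⟨a, b⟩ <;> exact absurd (a.trans b) (lt_irrefl _)
  have hb := tr (x t.1) (hx hpt).le le_rfl (hx h1).le
  rw [ht1] at hb
  have := hmin t.1 htV.1 ⟨hpt, Or.inr (Or.inr ⟨h1.trans_le hrq, h1.trans_le hrq', hb⟩)⟩
  exact absurd h1 (not_lt.mpr this)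

lemma Btw.symm {a b c : ℝ} (h : Btw a b c) : Btw c b a := by
  rcases h with ⟨h1, h2⟩ | ⟨h1, h2⟩
  · exact Or.inr ⟨h1, h2⟩
  · exact Or.inl ⟨h1, h2⟩

lemma Div.symm {r : ι} (h : Div x y p q q' r) : Div x y p q' q r := by
  obtain ⟨h1, h2 | h2 | ⟨h2, h3, h4⟩⟩ := h
  · exact ⟨h1, Or.inr (Or.inl h2)⟩
  · exact ⟨h1, Or.inl h2⟩
  · exact ⟨h1, Or.inr (Or.inr ⟨h3, h2, h4.symm⟩)⟩

/-- before the divergence point, labels agree -/
lemma label_eq (hq : Cand x y V M p q) (hq' : Cand x y V M p q')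
    {r : ι} (hr : r ∈ V) (hpr : p < r) (hrq : r < q) (hrq' : r < q')
    (hnd : ¬ Div x y p q q' r) :
    (y r < L x y (p, q) (x r) ↔ y r < L x y (p, q') (x r)) := by
  have ha := hq.avoid hr hpr hrq
  have ha' := hq'.avoid hr hpr hrq'
  have hb : ¬ Btw (L x y (p, q) (x r)) (y r) (L x y (p, q') (x r)) :=
    fun hb => hnd ⟨hpr, Or.inr (Or.inr ⟨hrq, hrq', hb⟩)⟩
  constructor
  · intro h
    by_contra hcon
    exact hb (Or.inr ⟨lt_of_le_of_ne (not_lt.mp hcon) ha'.symm, h⟩)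
  · intro h
    by_contra hcon
    exact hb (Or.inl ⟨lt_of_le_of_ne (not_lt.mp hcon) ha.symm, h⟩)

/-- before the divergence point, visibility agrees -/
lemma sees_of_sees (hx : StrictMono x) (hq : Cand x y V M p q) (hq' : Cand x y V M p q')
    {r : ι} (hr : r ∈ V) (hrq : r < q) (hrq' : r < q')
    (hmin : ∀ s ∈ V, Div x y p q q' s → r < s)
    (hs : Sees x y M (p, q) r) : Sees x y M (p, q') r := by
  obtain ⟨hpr, _, h3⟩ := hs
  have hpr : p < r := hpr
  have hnd : ¬ Div x y p q q' r := fun hd => absurd (hmin r hr hd) (lt_irrefl _)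
  have hlab := label_eq hq hq' hr hpr hrq hrq' hnd
  refine ⟨hpr, hrq', fun t ht h1 h2 hB => ?_⟩
  have hno := no_between hx hq hq' ht hpr hrq.le hrq'.le (fun s hs hd => (hmin s hs hd).le) h1 h2
  have hb3 := h3 t ht h1 h2
  have hne := (hq.nc_t ht).ne (hx hpr).le (hx h1).le (hx hrq).le (hx h2).le
  rcases hB with ⟨a, b⟩ | ⟨a, b⟩
  · have hc : y r < L x y (p, q) (x r) := hlab.mpr (a.trans b)
    rcases lt_or_gt_of_ne hne with c | c
    · exact hno (Or.inl ⟨c, b⟩)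
    · exact hb3 (Or.inl ⟨a, c⟩)
  · have hc : ¬ y r < L x y (p, q) (x r) := fun h => absurd (hlab.mp h) (a.trans b).not_gt
    have hc' : L x y (p, q) (x r) < y r :=
      lt_of_le_of_ne (not_lt.mp hc) (hq.avoid hr hpr hrq).symm
    rcases lt_or_gt_of_ne hne with c | c
    · exact hb3 (Or.inr ⟨c, b⟩)
    · exact hno (Or.inr ⟨a, c⟩)

lemma Sees.congr_div (hx : StrictMono x) (hq : Cand x y V M p q) (hq' : Cand x y V M p q')
    {r : ι} (hr : r ∈ V) (hrq : r < q) (hrq' : r < q')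
    (hmin : ∀ s ∈ V, Div x y p q q' s → r < s) :
    Sees x y M (p, q) r ↔ Sees x y M (p, q') r :=
  ⟨sees_of_sees hx hq hq' hr hrq hrq' hmin,
    sees_of_sees hx hq' hq hr hrq' hrq (fun s hs hd => hmin s hs hd.symm)⟩

/-- at the endpoint -/
lemma sees_at_end (hx : StrictMono x) (hq : Cand x y V M p q) (hq' : Cand x y V M p q')
    (hqq : q < q') (hmin : ∀ s ∈ V, Div x y p q q' s → q ≤ s) :
    Sees x y M (p, q') q := by
  refine ⟨hq.lt, hqq, fun t ht h1 h2 hB => ?_⟩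
  have hno := no_between hx hq hq' ht hq.lt le_rfl hqq.le hmin h1 h2
  have : L x y (p, q) (x q) = y q := L_right hx y (s := (p, q)) hq.lt
  rw [this] at hno
  exact hno hB

lemma sees_at_div (hx : StrictMono x) (hq : Cand x y V M p q) (hq' : Cand x y V M p q')
    {w : ι} (hpw : p < w) (hwq : w < q) (hwq' : w < q')
    (hmin : ∀ s ∈ V, Div x y p q q' s → w ≤ s)
    (hb : Btw (L x y (p, q) (x w)) (y w) (L x y (p, q') (x w))) :
    Sees x y M (p, q) w := by
  refine ⟨hpw, hwq, fun t ht h1 h2 hB => ?_⟩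
  have hno := no_between hx hq hq' ht hpw hwq.le hwq'.le hmin h1 h2
  rcases hb with ⟨a, b⟩ | ⟨a, b⟩
  · rcases hB with ⟨c, d⟩ | ⟨c, d⟩
    · exact absurd (c.trans d) a.not_gt
    · exact hno (Or.inl ⟨c, d.trans b⟩)
  · rcases hB with ⟨c, d⟩ | ⟨c, d⟩
    · exact hno (Or.inr ⟨a.trans c, d⟩)
    · exact absurd (c.trans d) b.not_gt

/-- the divergence lemma -/
lemma divergence (hx : StrictMono x) (hq : Cand x y V M p q) (hq' : Cand x y V M p q')
    (hne : q ≠ q') :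
    ∃ w, (∀ r, r < w → (r ∈ E x y V M (p, q) ↔ r ∈ E x y V M (p, q'))) ∧
      (∀ r, r < w → r ∈ E x y V M (p, q) →
        (y r < L x y (p, q) (x r) ↔ y r < L x y (p, q') (x r))) ∧
      ((w ∈ E x y V M (p, q) ∧ w ∈ E x y V M (p, q') ∧
        (y w < L x y (p, q) (x w) ↔ ¬ y w < L x y (p, q') (x w))) ∨
       (w = q ∧ w ∈ E x y V M (p, q')) ∨ (w = q' ∧ w ∈ E x y V M (p, q))) := by
  classical
  set S := V.filter (Div x y p q q') with hS
  have hqS : q ∈ S := Finset.mem_filter.mpr ⟨hq.hV, hq.lt, Or.inl rfl⟩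
  have hqS' : q' ∈ S := Finset.mem_filter.mpr ⟨hq'.hV, hq'.lt, Or.inr (Or.inl rfl)⟩
  have hne' : S.Nonempty := ⟨q, hqS⟩
  set w := S.min' hne' with hw
  have hwS : w ∈ S := Finset.min'_mem _ _
  have hmin : ∀ s ∈ V, Div x y p q q' s → w ≤ s := fun s hs hd =>
    Finset.min'_le _ _ (Finset.mem_filter.mpr ⟨hs, hd⟩)
  have hwq : w ≤ q := hmin q hq.hV ⟨hq.lt, Or.inl rfl⟩
  have hwq' : w ≤ q' := hmin q' hq'.hV ⟨hq'.lt, Or.inr (Or.inl rfl)⟩
  obtain ⟨hwV, hpw, hcase⟩ := Finset.mem_filter.mp hwS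
  refine ⟨w, fun r hr => ?_, fun r hr hrE => ?_, ?_⟩
  · rw [mem_E, mem_E]
    constructor
    · rintro ⟨a, b⟩
      exact ⟨a, (Sees.congr_div hx hq hq' a (hr.trans_le hwq) (hr.trans_le hwq')
        (fun s hs hd => hr.trans_le (hmin s hs hd))).mp b⟩
    · rintro ⟨a, b⟩
      exact ⟨a, (Sees.congr_div hx hq hq' a (hr.trans_le hwq) (hr.trans_le hwq')
        (fun s hs hd => hr.trans_le (hmin s hs hd))).mpr b⟩
  · rw [mem_E] at hrE
    exact label_eq hq hq' hrE.1 hrE.2.1 (hr.trans_le hwq) (hr.trans_le hwq')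
      (fun hd => absurd (hmin r hrE.1 hd) (not_le.mpr hr))
  · rcases hcase with h | h | ⟨h1, h2, h3⟩
    · right; left
      refine ⟨h, mem_E.mpr ⟨hwV, ?_⟩⟩
      have hlt : q < q' := lt_of_le_of_ne (h ▸ hwq') hne
      rw [h]
      exact sees_at_end hx hq hq' hlt (fun s hs hd => h ▸ hmin s hs hd)
    · right; right
      refine ⟨h, mem_E.mpr ⟨hwV, ?_⟩⟩
      have hlt : q' < q := lt_of_le_of_ne (h ▸ hwq) hne.symm
      rw [h]
      exact sees_at_end hx hq' hq hlt (fun s hs hd => h ▸ hmin s hs hd.symm)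
    · left
      refine ⟨mem_E.mpr ⟨hwV, sees_at_div hx hq hq' hpw h1 h2 hmin h3⟩,
        mem_E.mpr ⟨hwV, sees_at_div hx hq' hq hpw h2 h1 (fun s hs hd => hmin s hs hd.symm)
          h3.symm⟩, ?_⟩
      rcases h3 with ⟨a, b⟩ | ⟨a, b⟩
      · exact ⟨fun h => absurd h a.not_gt, fun h => absurd b h⟩
      · exact ⟨fun _ => a.not_gt, fun _ => b⟩

end Pool.Agent.Lib_helper85.Crossing
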