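import Pool.Agent.Lib_helper85.NCBasic

set_option autoImplicit false
set_option linter.unusedSectionVars false

open Filter Topology

namespace Pool.Agent.Lib_helper85.Crossing

/-- twice the signed area -/
def det3 (A B C : ℝ × ℝ) : ℝ := (B.1 - A.1) * (C.2 - A.2) - (C.1 - A.1) * (B.2 - A.2)

lemma mem_interior_triangle {A B C z : ℝ × ℝ} (h1 : 0 < det3 z B C * det3 A B C)
    (h2 : 0 < det3 A z C * det3 A B C) (h3 : 0 < det3 A B z * det3 A B C) :
    z ∈ interior (convexHull ℝ ({A, B, C} : Set (ℝ × ℝ))) := by
  set U : Set (ℝ × ℝ) := {z | 0 < det3 z B C * det3 A B C ∧ 0 < det3 A z C * det3 A B C ∧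
    0 < det3 A B z * det3 A B C} with hU
  have hopen : IsOpen U := by
    have c1 : Continuous fun z : ℝ × ℝ => det3 z B C * det3 A B C := by unfold det3; fun_prop
    have c2 : Continuous fun z : ℝ × ℝ => det3 A z C * det3 A B C := by unfold det3; fun_prop
    have c3 : Continuous fun z : ℝ × ℝ => det3 A B z * det3 A B C := by unfold det3; fun_prop
    exact (isOpen_lt continuous_const c1).inter
      ((isOpen_lt continuous_const c2).inter (isOpen_lt continuous_const c3))
  have hsub : U ⊆ convexHull ℝ ({A, B, C} : Set (ℝ × ℝ)) := by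
    rintro w ⟨g1, g2, g3⟩
    have hD : det3 A B C ≠ 0 := by
      intro h0
      rw [h0, mul_zero] at g1
      exact lt_irrefl _ g1
    have hD2 : 0 < det3 A B C * det3 A B C := mul_self_pos.mpr hD
    have hsum : det3 w B C + det3 A w C + det3 A B w = det3 A B C := by unfold det3; ring
    have w1 : 0 ≤ det3 w B C / det3 A B C := by
      have : det3 w B C / det3 A B C = det3 w B C * det3 A B C / (det3 A B C * det3 A B C) := by
        field_simp
      rw [this]; exact (div_pos g1 hD2).le
    have w2 : 0 ≤ det3 A w C / det3 A B C := by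
      have : det3 A w C / det3 A B C = det3 A w C * det3 A B C / (det3 A B C * det3 A B C) := by
        field_simp
      rw [this]; exact (div_pos g2 hD2).le
    have w3 : 0 ≤ det3 A B w / det3 A B C := by
      have : det3 A B w / det3 A B C = det3 A B w * det3 A B C / (det3 A B C * det3 A B C) := by
        field_simp
      rw [this]; exact (div_pos g3 hD2).le
    have hw : w = (det3 w B C / det3 A B C) • A + (det3 A w C / det3 A B C) • B +
        (det3 A B w / det3 A B C) • C := by
      ext
      · simp only [Prod.fst_add, Prod.smul_fst, smul_eq_mul]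
        field_simp
        unfold det3
        ring
      · simp only [Prod.snd_add, Prod.smul_snd, smul_eq_mul]
        field_simp
        unfold det3
        ring
    have hA : A ∈ convexHull ℝ ({A, B, C} : Set (ℝ × ℝ)) := subset_convexHull _ _ (by simp)
    have hB : B ∈ convexHull ℝ ({A, B, C} : Set (ℝ × ℝ)) := subset_convexHull _ _ (by simp)
    have hC : C ∈ convexHull ℝ ({A, B, C} : Set (ℝ × ℝ)) := subset_convexHull _ _ (by simp)
    have := (convex_convexHull ℝ ({A, B, C} : Set (ℝ × ℝ))).sum_mem (t := Finset.univ)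
      (w := ![det3 w B C / det3 A B C, det3 A w C / det3 A B C, det3 A B w / det3 A B C])
      (z := ![A, B, C])
      (by intro i _; fin_cases i
          · exact w1
          · exact w2
          · exact w3)
      (by rw [Fin.sum_univ_three]
          simp only [Matrix.cons_val_zero, Matrix.cons_val_one, Matrix.cons_val]
          rw [← add_div, ← add_div, hsum, div_self hD])
      (by intro i _; fin_cases i
          · exact hA
          · exact hB
          · exact hC)
    rw [Fin.sum_univ_three] at this
    simp only [Matrix.cons_val_zero, Matrix.cons_val_one, Matrix.cons_val] at this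
    rw [← hw] at this
    exact this
  exact interior_maximal hsub hopen ⟨h1, h2, h3⟩

lemma interiors_meet {A B C A' B' C' X : ℝ × ℝ} (hD : det3 A B C ≠ 0) (hD' : det3 A' B' C' ≠ 0)
    {τ τ' : ℝ} (h0 : 0 < τ) (h1 : τ < 1) (h0' : 0 < τ') (h1' : τ' < 1)
    (hX : X = A + τ • (C - A)) (hX' : X = A' + τ' • (C' - A'))
    (hcr : (C'.1 - A'.1) * (C.2 - A.2) - (C.1 - A.1) * (C'.2 - A'.2) ≠ 0) :
    ¬ Disjoint (interior (convexHull ℝ ({A, B, C} : Set (ℝ × ℝ))))
      (interior (convexHull ℝ ({A', B', C'} : Set (ℝ × ℝ)))) := by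
  set D := det3 A B C with hDdef
  set D' := det3 A' B' C' with hDdef'
  set κ := (C'.1 - A'.1) * (C.2 - A.2) - (C.1 - A.1) * (C'.2 - A'.2) with hκ
  set u : ℝ × ℝ := (-(D' * κ)) • (C - A) + (D * κ) • (C' - A') with hu
  set Z : ℝ → ℝ × ℝ := fun s => X + s • u with hZ
  have hZc : Continuous Z := by rw [hZ]; fun_prop
  have hDD : 0 < D * D := mul_self_pos.mpr hD
  have hDD' : 0 < D' * D' := mul_self_pos.mpr hD'
  have hκκ : 0 < κ * κ := mul_self_pos.mpr hcr
  have e1 : ∀ᶠ s in 𝓝[>] (0 : ℝ), 0 < det3 (Z s) B C * D := by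
    have hc : Continuous fun s => det3 (Z s) B C * D := by unfold det3; fun_prop
    have hv : det3 (Z 0) B C * D = (1 - τ) * (D * D) := by
      simp only [hZ, zero_smul, add_zero]
      rw [hX, hDdef]
      unfold det3
      simp only [Prod.fst_add, Prod.smul_fst, Prod.fst_sub, Prod.snd_add, Prod.smul_snd,
        Prod.snd_sub, smul_eq_mul]
      ring
    have ht := hc.tendsto 0
    exact (ht.eventually_const_lt (by rw [hv]; exact mul_pos (by linarith) hDD)).filter_mono
      nhdsWithin_le_nhds
  have e3 : ∀ᶠ s in 𝓝[>] (0 : ℝ), 0 < det3 A B (Z s) * D := by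
    have hc : Continuous fun s => det3 A B (Z s) * D := by unfold det3; fun_prop
    have hv : det3 A B (Z 0) * D = τ * (D * D) := by
      simp only [hZ, zero_smul, add_zero]
      rw [hX, hDdef]
      unfold det3
      simp only [Prod.fst_add, Prod.smul_fst, Prod.fst_sub, Prod.snd_add, Prod.smul_snd,
        Prod.snd_sub, smul_eq_mul]
      ring
    have ht := hc.tendsto 0
    exact (ht.eventually_const_lt (by rw [hv]; exact mul_pos h0 hDD)).filter_mono
      nhdsWithin_le_nhds
  have e2 : ∀ᶠ s in 𝓝[>] (0 : ℝ), 0 < det3 A (Z s) C * D := by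
    filter_upwards [self_mem_nhdsWithin] with s hs
    have hs' : (0 : ℝ) < s := hs
    have hv : det3 A (Z s) C * D = s * ((D * D) * (κ * κ)) := by
      simp only [hZ, hu]
      rw [hX]
      unfold det3
      simp only [Prod.fst_add, Prod.smul_fst, Prod.fst_sub, Prod.snd_add, Prod.smul_snd,
        Prod.snd_sub, smul_eq_mul]
      rw [hκ]
      ring
    rw [hv]
    exact mul_pos hs' (mul_pos hDD hκκ)
  have e1' : ∀ᶠ s in 𝓝[>] (0 : ℝ), 0 < det3 (Z s) B' C' * D' := by
    have hc : Continuous fun s => det3 (Z s) B' C' * D' := by unfold det3; fun_prop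
    have hv : det3 (Z 0) B' C' * D' = (1 - τ') * (D' * D') := by
      simp only [hZ, zero_smul, add_zero]
      rw [hX', hDdef']
      unfold det3
      simp only [Prod.fst_add, Prod.smul_fst, Prod.fst_sub, Prod.snd_add, Prod.smul_snd,
        Prod.snd_sub, smul_eq_mul]
      ring
    have ht := hc.tendsto 0
    exact (ht.eventually_const_lt (by rw [hv]; exact mul_pos (by linarith) hDD')).filter_mono
      nhdsWithin_le_nhds
  have e3' : ∀ᶠ s in 𝓝[>] (0 : ℝ), 0 < det3 A' B' (Z s) * D' := by
    have hc : Continuous fun s => det3 A' B' (Z s) * D' := by unfold det3; fun_prop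
    have hv : det3 A' B' (Z 0) * D' = τ' * (D' * D') := by
      simp only [hZ, zero_smul, add_zero]
      rw [hX', hDdef']
      unfold det3
      simp only [Prod.fst_add, Prod.smul_fst, Prod.fst_sub, Prod.snd_add, Prod.smul_snd,
        Prod.snd_sub, smul_eq_mul]
      ring
    have ht := hc.tendsto 0
    exact (ht.eventually_const_lt (by rw [hv]; exact mul_pos h0' hDD')).filter_mono
      nhdsWithin_le_nhds
  have e2' : ∀ᶠ s in 𝓝[>] (0 : ℝ), 0 < det3 A' (Z s) C' * D' := by
    filter_upwards [self_mem_nhdsWithin] with s hs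
    have hs' : (0 : ℝ) < s := hs
    have hv : det3 A' (Z s) C' * D' = s * ((D' * D') * (κ * κ)) := by
      simp only [hZ, hu]
      rw [hX']
      unfold det3
      simp only [Prod.fst_add, Prod.smul_fst, Prod.fst_sub, Prod.snd_add, Prod.smul_snd,
        Prod.snd_sub, smul_eq_mul]
      rw [hκ]
      ring
    rw [hv]
    exact mul_pos hs' (mul_pos hDD' hκκ)
  obtain ⟨s, ⟨⟨⟨⟨⟨a1, a2⟩, a3⟩, a4⟩, a5⟩, a6⟩⟩ :=
    (((((e1.and e2).and e3).and e1').and e2').and e3').exists
  rw [Set.not_disjoint_iff]
  exact ⟨Z s, mem_interior_triangle a1 a2 a3, mem_interior_triangle a4 a5 a6⟩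

variable {ι : Type*} [LinearOrder ι]

/-- no three of the points are collinear -/
def GP (x y : ι → ℝ) : Prop := ∀ i j k, i < j → j < k → y j ≠ L x y (i, k) (x j)

lemma det3_eq {x : ι → ℝ} (hx : StrictMono x) (y : ι → ℝ) {a b c : ι} (hac : a < c) :
    det3 (x a, y a) (x b, y b) (x c, y c) = (x c - x a) * (L x y (a, c) (x b) - y b) := by
  have h : x c - x a ≠ 0 := sub_ne_zero.mpr (hx hac).ne'
  unfold det3 L
  simp only
  field_simp
  ring

lemma nc_of_disjoint {x y : ι → ℝ} (hx : StrictMono x) (hgp : GP x y) {a b c a' b' c' : ι}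
    (hab : a < b) (hbc : b < c) (hab' : a' < b') (hbc' : b' < c')
    (n1 : a ≠ a') (n2 : a ≠ c') (n3 : c ≠ a') (n4 : c ≠ c')
    (hdis : Disjoint
      (interior (convexHull ℝ ({(x a, y a), (x b, y b), (x c, y c)} : Set (ℝ × ℝ))))
      (interior (convexHull ℝ ({(x a', y a'), (x b', y b'), (x c', y c')} : Set (ℝ × ℝ))))) :
    NC x y (a, c) (a', c') := by
  intro hlr
  by_contra hcon
  have hac : a < c := hab.trans hbc
  have hac' : a' < c' := hab'.trans hbc'
  obtain ⟨p, q, hpq⟩ := L_sub_affine x y (a, c) (a', c')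
  simp only at hlr hcon
  set l := max (x a) (x a') with hl
  set r := min (x c) (x c') with hr
  have hal : x a ≤ l := le_max_left _ _
  have hal' : x a' ≤ l := le_max_right _ _
  have hrc : r ≤ x c := min_le_left _ _
  have hrc' : r ≤ x c' := min_le_right _ _
  have hLa : L x y (a, c) (x a) = y a := L_left x y (a, c)
  have hLc : L x y (a, c) (x c) = y c := L_right hx y (s := (a, c)) hac
  have hLa' : L x y (a', c') (x a') = y a' := L_left x y (a', c')
  have hLc' : L x y (a', c') (x c') = y c' := L_right hx y (s := (a', c')) hac'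
  have hl0 : p + q * l ≠ 0 := by
    rw [← hpq]
    rcases le_total (x a) (x a') with h | h
    · have hle : l = x a' := by rw [hl]; exact max_eq_right h
      rw [hle, hLa']
      have h1 : a < a' := lt_of_le_of_ne (hx.le_iff_le.mp h) n1
      have h2 : a' < c := by
        refine lt_of_le_of_ne (hx.le_iff_le.mp ?_) n3.symm
        rw [← hle]; exact hlr.trans hrc
      intro h0
      exact hgp a a' c h1 h2 (by linarith)
    · have hle : l = x a := by rw [hl]; exact max_eq_left h
      rw [hle, hLa]
      have h1 : a' < a := lt_of_le_of_ne (hx.le_iff_le.mp h) n1.symm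
      have h2 : a < c' := by
        refine lt_of_le_of_ne (hx.le_iff_le.mp ?_) n2
        rw [← hle]; exact hlr.trans hrc'
      intro h0
      exact hgp a' a c' h1 h2 (by linarith)
  have hr0 : p + q * r ≠ 0 := by
    rw [← hpq]
    rcases le_total (x c) (x c') with h | h
    · have hle : r = x c := by rw [hr]; exact min_eq_left h
      rw [hle, hLc]
      have h1 : c < c' := lt_of_le_of_ne (hx.le_iff_le.mp h) n4
      have h2 : a' < c := by
        refine lt_of_le_of_ne (hx.le_iff_le.mp ?_) n3.symm
        rw [← hle]; exact hal'.trans hlr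
      intro h0
      exact hgp a' c c' h2 h1 (by linarith)
    · have hle : r = x c' := by rw [hr]; exact min_eq_right h
      rw [hle, hLc']
      have h1 : c' < c := lt_of_le_of_ne (hx.le_iff_le.mp h) n4.symm
      have h2 : a < c' := by
        refine lt_of_le_of_ne (hx.le_iff_le.mp ?_) n2
        rw [← hle]; exact hal.trans hlr
      intro h0
      exact hgp a c' c h2 h1 (by linarith)
  rw [hpq, hpq] at hcon
  have hneg : (p + q * l) * (p + q * r) < 0 :=
    lt_of_le_of_ne (not_lt.mp hcon) (mul_ne_zero hl0 hr0)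
  have hq : q ≠ 0 := by
    intro h0
    rw [h0] at hneg
    nlinarith [mul_self_nonneg p]
  have hllr : l ≠ r := by
    intro h0
    rw [h0] at hneg
    nlinarith [mul_self_nonneg (p + q * r)]
  -- the crossing abscissa
  set t := -p / q with ht
  have hpt : p + q * t = 0 := by rw [ht]; field_simp; ring
  have htlr : l < t ∧ t < r := by
    have hp : p = -(q * t) := by linarith
    rw [hp] at hneg
    have h1 : (-(q * t) + q * l) * (-(q * t) + q * r) = (q * q) * ((l - t) * (r - t)) := by ring
    rw [h1] at hneg
    have hqq : 0 < q * q := mul_self_pos.mpr hq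
    have h2 : (l - t) * (r - t) < 0 := by
      by_contra hc
      exact absurd hneg (not_lt.mpr (mul_nonneg hqq.le (not_lt.mp hc)))
    constructor
    · by_contra hc
      have h3 : 0 ≤ l - t := by linarith [not_lt.mp hc]
      have h4 : 0 ≤ r - t := by linarith [not_lt.mp hc]
      nlinarith [mul_nonneg h3 h4]
    · by_contra hc
      have h3 : 0 ≤ t - l := by linarith [not_lt.mp hc]
      have h4 : 0 ≤ t - r := by linarith [not_lt.mp hc]
      nlinarith [mul_nonneg h3 h4]
  have hca : 0 < x c - x a := sub_pos.mpr (hx hac)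
  have hca' : 0 < x c' - x a' := sub_pos.mpr (hx hac')
  have hLt : L x y (a, c) t = L x y (a', c') t := by
    have := hpq t
    rw [hpt] at this
    linarith
  refine interiors_meet (A := (x a, y a)) (B := (x b, y b)) (C := (x c, y c))
    (A' := (x a', y a')) (B' := (x b', y b')) (C' := (x c', y c'))
    (X := (t, L x y (a, c) t)) (τ := (t - x a) / (x c - x a)) (τ' := (t - x a') / (x c' - x a'))
    ?_ ?_ ?_ ?_ ?_ ?_ ?_ ?_ ?_ hdis
  · rw [det3_eq hx y hac]
    exact mul_ne_zero hca.ne' (sub_ne_zero.mpr (hgp a b c hab hbc).symm)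
  · rw [det3_eq hx y hac']
    exact mul_ne_zero hca'.ne' (sub_ne_zero.mpr (hgp a' b' c' hab' hbc').symm)
  · exact div_pos (by linarith [htlr.1]) hca
  · rw [div_lt_one hca]; linarith [htlr.2]
  · exact div_pos (by linarith [htlr.1]) hca'
  · rw [div_lt_one hca']; linarith [htlr.2]
  · ext
    · simp only [Prod.fst_add, Prod.smul_fst, Prod.fst_sub, smul_eq_mul]
      field_simp
      ring
    · simp only [Prod.snd_add, Prod.smul_snd, Prod.snd_sub, smul_eq_mul]
      unfold L
      simp only
      field_simp
  · ext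
    · simp only [Prod.fst_add, Prod.smul_fst, Prod.fst_sub, smul_eq_mul]
      field_simp
      ring
    · simp only [Prod.snd_add, Prod.smul_snd, Prod.snd_sub, smul_eq_mul]
      rw [hLt]
      unfold L
      simp only
      field_simp
  · simp only
    have hq' : q = (y c - y a) / (x c - x a) - (y c' - y a') / (x c' - x a') := by
      have h1 := hpq 1
      have h2 := hpq 0
      unfold L at h1 h2
      simp only at h1 h2
      linarith
    have : (x c' - x a') * (y c - y a) - (x c - x a) * (y c' - y a') =
        q * ((x c - x a) * (x c' - x a')) := by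
      rw [hq']
      field_simp
    rw [this]
    exact mul_ne_zero hq (mul_pos hca hca').ne'

end Pool.Agent.Lib_helper85.Crossing
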