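import Pool.Agent.Lib_helper85.NCBound
import Pool.Agent.Lib_helper85.NCGeom

set_option autoImplicit false
set_option linter.unusedSectionVars false

open MeasureTheory ENNReal

namespace Pool.Agent.Lib_helper85.Crossing

/-- uniform probability on `[0,1]` -/
noncomputable def nu : Measure ℝ := (volume : Measure ℝ).restrict (Set.Icc 0 1)

instance : IsProbabilityMeasure nu := ⟨by simp [nu]⟩

section marginal

variable {ι : Type*} [Fintype ι] [DecidableEq ι]

lemma lintegral_pi_one (z : ι) (f : (ι → ℝ) → ℝ≥0∞) (hf : Measurable f) :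
    ∫⁻ y, f y ∂(Measure.pi fun _ : ι => nu) =
      (∫⋯∫⁻_(Finset.univ.erase z), (fun y => ∫⁻ v, f (Function.update y z v) ∂nu)
        ∂(fun _ : ι => nu)) 0 := by
  rw [lintegral_eq_lmarginal_univ (μ := fun _ : ι => nu) (0 : ι → ℝ)]
  rw [← lmarginal_insert' (μ := fun _ : ι => nu) f hf (Finset.notMem_erase z Finset.univ),
    Finset.insert_erase (Finset.mem_univ z)]

lemma lintegral_mul_le (z : ι) {H E : (ι → ℝ) → ℝ≥0∞} (hH : Measurable H) (hE : Measurable E)
    (hHz : ∀ y v, H (Function.update y z v) = H y) {c : ℝ≥0∞}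
    (hc : ∀ y, ∫⁻ v, E (Function.update y z v) ∂nu ≤ c) :
    ∫⁻ y, H y * E y ∂(Measure.pi fun _ : ι => nu) ≤
      c * ∫⁻ y, H y ∂(Measure.pi fun _ : ι => nu) := by
  have e1 := lintegral_pi_one z (fun y => H y * E y) (hH.mul hE)
  have e2 := lintegral_pi_one z (fun y => c * H y) (hH.const_mul c)
  rw [← lintegral_const_mul _ hH, e1, e2]
  apply lmarginal_mono
  intro y
  simp only [hHz]
  rw [lintegral_const, measure_univ, mul_one, lintegral_const_mul, mul_comm]
  · gcongr
    exact hc y
  · exact hE.comp (measurable_update y)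

lemma lintegral_prod_le {κ : Type*} [DecidableEq κ] (M : Finset κ) (F : κ → ι)
    (E : κ → (ι → ℝ) → ℝ≥0∞) (hE : ∀ s, Measurable (E s)) (c : κ → ℝ≥0∞)
    (hc : ∀ s ∈ M, ∀ y, ∫⁻ v, E s (Function.update y (F s) v) ∂nu ≤ c s)
    (hind : ∀ s ∈ M, ∀ t ∈ M, t ≠ s → ∀ y v, E s (Function.update y (F t) v) = E s y)
    {H : (ι → ℝ) → ℝ≥0∞} (hH : Measurable H)
    (hHz : ∀ t ∈ M, ∀ y v, H (Function.update y (F t) v) = H y) :
    ∫⁻ y, H y * ∏ s ∈ M, E s y ∂(Measure.pi fun _ : ι => nu) ≤
      (∏ s ∈ M, c s) * ∫⁻ y, H y ∂(Measure.pi fun _ : ι => nu) := by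
  induction M using Finset.induction with
  | empty => simp
  | insert s M hs ih =>
    have hmeas : Measurable fun y => H y * ∏ s ∈ M, E s y :=
      hH.mul (Finset.measurable_fun_prod M fun s _ => hE s)
    have h1 : ∫⁻ y, H y * ∏ s ∈ insert s M, E s y ∂(Measure.pi fun _ : ι => nu) =
        ∫⁻ y, (H y * ∏ s ∈ M, E s y) * E s y ∂(Measure.pi fun _ : ι => nu) := by
      refine lintegral_congr fun y => ?_
      rw [Finset.prod_insert hs]
      ring
    rw [h1, Finset.prod_insert hs]
    refine (lintegral_mul_le (F s) hmeas (hE s) ?_ (hc s (Finset.mem_insert_self _ _))).trans ?_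
    · intro y v
      rw [hHz s (Finset.mem_insert_self _ _)]
      congr 1
      refine Finset.prod_congr rfl fun t ht => ?_
      exact hind t (Finset.mem_insert_of_mem ht) s (Finset.mem_insert_self _ _)
        (fun e => hs (e ▸ ht)) y v
    · rw [mul_assoc]
      gcongr
      exact ih (fun t ht => hc t (Finset.mem_insert_of_mem ht))
        (fun s hs t ht => hind s (Finset.mem_insert_of_mem hs) t (Finset.mem_insert_of_mem ht))
        (fun t ht => hHz t (Finset.mem_insert_of_mem ht))

end marginal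

lemma lintegral_exp_abs_le {k : ℝ} (hk : 0 < k) (b : ℝ) :
    ∫⁻ v, ENNReal.ofReal (Real.exp (-(k * |v - b|))) ∂nu ≤ ENNReal.ofReal (2 / k) := by
  have h0 : ∫⁻ v, ENNReal.ofReal (Real.exp (-(k * |v - b|))) ∂nu ≤
      ∫⁻ v, ENNReal.ofReal (Real.exp (-(k * |v - b|))) :=
    lintegral_mono' Measure.restrict_le_self le_rfl
  refine h0.trans ?_
  rw [← lintegral_add_compl _ (measurableSet_Ioi (a := b)), Set.compl_Ioi]
  have hneg : -k < 0 := by linarith
  have i1 : IntegrableOn (fun v => Real.exp (-k * v)) (Set.Ioi b) := integrableOn_exp_mul_Ioi hneg b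
  have i2 : IntegrableOn (fun v => Real.exp (k * v)) (Set.Iic b) := integrableOn_exp_mul_Iic hk b
  have e1 : ∫⁻ v in Set.Ioi b, ENNReal.ofReal (Real.exp (-(k * |v - b|))) =
      ENNReal.ofReal (1 / k) := by
    have : ∫⁻ v in Set.Ioi b, ENNReal.ofReal (Real.exp (-(k * |v - b|))) =
        ∫⁻ v in Set.Ioi b, ENNReal.ofReal (Real.exp (k * b) * Real.exp (-k * v)) := by
      refine setLIntegral_congr_fun measurableSet_Ioi fun v hv => ?_
      have hv' : b < v := hv
      rw [abs_of_pos (sub_pos.mpr hv'), ← Real.exp_add]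
      congr 2
      ring
    rw [this, ← ofReal_integral_eq_lintegral_ofReal (i1.const_mul _)
      (Filter.Eventually.of_forall fun v => by positivity), integral_const_mul,
      integral_exp_mul_Ioi hneg]
    congr 1
    rw [neg_div, div_neg, neg_neg, ← mul_div_assoc, ← Real.exp_add]
    simp
  have e2 : ∫⁻ v in Set.Iic b, ENNReal.ofReal (Real.exp (-(k * |v - b|))) =
      ENNReal.ofReal (1 / k) := by
    have : ∫⁻ v in Set.Iic b, ENNReal.ofReal (Real.exp (-(k * |v - b|))) =
        ∫⁻ v in Set.Iic b, ENNReal.ofReal (Real.exp (-(k * b)) * Real.exp (k * v)) := by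
      refine setLIntegral_congr_fun measurableSet_Iic fun v hv => ?_
      have hv' : v ≤ b := hv
      rw [abs_of_nonpos (sub_nonpos.mpr hv'), ← Real.exp_add]
      congr 2
      ring
    rw [this, ← ofReal_integral_eq_lintegral_ofReal (i2.const_mul _)
      (Filter.Eventually.of_forall fun v => by positivity), integral_const_mul,
      integral_exp_mul_Iic hk]
    congr 1
    rw [← mul_div_assoc, ← Real.exp_add]
    simp
  rw [e1, e2, ← ENNReal.ofReal_add (by positivity) (by positivity)]
  apply ENNReal.ofReal_le_ofReal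
  apply le_of_eq
  ring

end Pool.Agent.Lib_helper85.Crossing
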