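import Pool.Agent.Lib_helper85.NCMeas

set_option autoImplicit false
set_option linter.unusedSectionVars false

open MeasureTheory ENNReal

namespace Pool.Agent.Lib_helper85.Crossing

section general

variable {ι : Type*} [LinearOrder ι]

lemma L_congr {x y y' : ι → ℝ} {s : ι × ι} (h1 : y s.1 = y' s.1) (h2 : y s.2 = y' s.2) (t : ℝ) :
    L x y s t = L x y' s t := by
  unfold L; rw [h1, h2]

lemma isNC_congr {x y y' : ι → ℝ} {V : Finset ι} {M : Finset (ι × ι)}
    (h : ∀ r ∈ V, y r = y' r) (hM : IsNC x y V M) : IsNC x y' V M := by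
  have hL : ∀ s ∈ M, ∀ t, L x y s t = L x y' s t := fun s hs t =>
    L_congr (h _ (hM.mem s hs).1) (h _ (hM.mem s hs).2.1) t
  refine ⟨hM.mem, hM.disj, fun s hs t ht hst => ?_, fun s hs r hr h1 h2 => ?_⟩
  · have := hM.nc s hs t ht hst
    unfold NC at this ⊢
    simp only [← hL s hs, ← hL t ht]
    exact this
  · rw [← hL s hs, ← h r hr]
    exact hM.avoid s hs r hr h1 h2

end general

section fin

variable {ι : Type*} [LinearOrder ι] [Fintype ι]

lemma measurable_L (x : ι → ℝ) (s : ι × ι) (t : ℝ) : Measurable fun y : ι → ℝ => L x y s t := by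
  unfold L
  fun_prop

lemma measurableSet_NC (x : ι → ℝ) (s t : ι × ι) : MeasurableSet {y : ι → ℝ | NC x y s t} := by
  unfold NC
  by_cases h : max (x s.1) (x t.1) ≤ min (x s.2) (x t.2)
  · simp only [h, true_imp_iff]
    apply measurableSet_lt measurable_const
    exact ((measurable_L x s _).sub (measurable_L x t _)).mul
      ((measurable_L x s _).sub (measurable_L x t _))
  · simp only [h, false_imp_iff]
    simp

lemma measurableSet_isNC (x : ι → ℝ) (V : Finset ι) (M : Finset (ι × ι)) :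
    MeasurableSet {y : ι → ℝ | IsNC x y V M} := by
  have : {y : ι → ℝ | IsNC x y V M} =
      {_y | ∀ s ∈ M, s.1 ∈ V ∧ s.2 ∈ V ∧ s.1 < s.2} ∩
      ({_y | ∀ s ∈ M, ∀ t ∈ M, s ≠ t → s.1 ≠ t.1 ∧ s.1 ≠ t.2 ∧ s.2 ≠ t.1 ∧ s.2 ≠ t.2} ∩
      ((⋂ s ∈ M, ⋂ t ∈ M, ⋂ (_ : s ≠ t), {y | NC x y s t}) ∩
      (⋂ s ∈ M, ⋂ r ∈ V, ⋂ (_ : s.1 < r), ⋂ (_ : r < s.2), {y | y r = L x y s (x r)}ᶜ))) := by
    ext y
    simp only [Set.mem_ofPred_eq, Set.mem_inter_iff, Set.mem_iInter, Set.mem_compl_iff]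
    constructor
    · intro h
      exact ⟨h.mem, h.disj, h.nc, h.avoid⟩
    · rintro ⟨h1, h2, h3, h4⟩
      exact ⟨h1, h2, h3, h4⟩
  rw [this]
  refine (MeasurableSet.const _).inter ((MeasurableSet.const _).inter (MeasurableSet.inter ?_ ?_))
  · refine Finset.measurableSet_biInter M fun s _ => Finset.measurableSet_biInter M fun t _ =>
      MeasurableSet.iInter fun _ => measurableSet_NC x s t
  · refine Finset.measurableSet_biInter M fun s _ => Finset.measurableSet_biInter V fun r _ =>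
      MeasurableSet.iInter fun _ => MeasurableSet.iInter fun _ => MeasurableSet.compl ?_
    exact measurableSet_eq_fun (measurable_pi_apply r) (measurable_L x s _)

/-- weight of a triangle with long side `s` and third vertex `z` -/
noncomputable def wt (lam : ℝ) (x : ι → ℝ) (s : ι × ι) (z : ι) (y : ι → ℝ) : ℝ≥0∞ :=
  ENNReal.ofReal (Real.exp (-(lam * ((x s.2 - x s.1) / 2) * |y z - L x y s (x z)|)))

lemma measurable_wt (lam : ℝ) (x : ι → ℝ) (s : ι × ι) (z : ι) : Measurable (wt lam x s z) := by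
  unfold wt
  have := measurable_L x s (x z)
  fun_prop

open Classical in
/-- indicator of the crossing-free condition -/
noncomputable def Hf (x : ι → ℝ) (M : Finset (ι × ι)) (y : ι → ℝ) : ℝ≥0∞ :=
  if IsNC x y (ends M) M then 1 else 0

lemma measurable_Hf (x : ι → ℝ) (M : Finset (ι × ι)) : Measurable (Hf x M) := by
  classical
  unfold Hf
  exact Measurable.ite (measurableSet_isNC x _ M) measurable_const measurable_const

/-- pairs are increasing and have disjoint endpoints -/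
def Adm (M : Finset (ι × ι)) : Prop := (∀ s ∈ M, s.1 < s.2) ∧
  ∀ s ∈ M, ∀ t ∈ M, s ≠ t → s.1 ≠ t.1 ∧ s.1 ≠ t.2 ∧ s.2 ≠ t.1 ∧ s.2 ≠ t.2

open Classical in
/-- sets of `n` pairs with disjoint endpoints -/
noncomputable def AllM (ι : Type*) [LinearOrder ι] [Fintype ι] (n : ℕ) :
    Finset (Finset (ι × ι)) :=
  ((Finset.univ : Finset (ι × ι)).powersetCard n).filter Adm

lemma mem_AllM {n : ℕ} {M : Finset (ι × ι)} : M ∈ AllM ι n ↔ M.card = n ∧ Adm M := by
  classical
  unfold AllM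
  rw [Finset.mem_filter, Finset.mem_powersetCard]
  simp

end fin

variable {N : ℕ}

/-- admissible middle points -/
def FAdm (M : Finset (Fin N × Fin N)) (F : Fin N × Fin N → Fin N) : Prop :=
  Set.InjOn F M ∧ ∀ s ∈ M, F s ∉ ends M

open Classical in
/-- assignments of middle points -/
noncomputable def Fs (M : Finset (Fin N × Fin N)) : Finset (Fin N × Fin N → Fin N) :=
  (Fintype.piFinset (fun s => if s ∈ M then Finset.Ioo s.1 s.2 else {s.1})).filter (FAdm M)

lemma mem_Fs {M : Finset (Fin N × Fin N)} {F : Fin N × Fin N → Fin N} :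
    F ∈ Fs M ↔ (∀ s, F s ∈ if s ∈ M then Finset.Ioo s.1 s.2 else {s.1}) ∧ FAdm M F := by
  classical
  unfold Fs
  rw [Finset.mem_filter, Fintype.mem_piFinset]

/-- abscissas -/
noncomputable def xx (N : ℕ) (k : Fin N) : ℝ := (k : ℝ) / N

lemma xx_strictMono (N : ℕ) : StrictMono (xx N) := by
  intro i j h
  unfold xx
  have hN : (0 : ℝ) < N := by
    have : 0 < N := lt_of_le_of_lt (Nat.zero_le _) i.isLt
    exact_mod_cast this
  have : (i : ℝ) < j := by exact_mod_cast h
  gcongr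

lemma update_ne {ι : Type*} [DecidableEq ι] {y : ι → ℝ} {z r : ι} (h : z ≠ r) (v : ℝ) :
    Function.update y z v r = y r := Function.update_of_ne h.symm v y

lemma integral_term_le {lam : ℝ} (hlam : 0 < lam) {n : ℕ} {M : Finset (Fin N × Fin N)}
    (hM : M ∈ AllM (Fin N) n) {F : Fin N × Fin N → Fin N} (hF : F ∈ Fs M) :
    ∫⁻ y, Hf (xx N) M y * ∏ s ∈ M, wt lam (xx N) s (F s) y ∂(Measure.pi fun _ : Fin N => nu) ≤
      (∏ s ∈ M, ENNReal.ofReal (2 / (lam * ((xx N s.2 - xx N s.1) / 2)))) *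
        ∫⁻ y, Hf (xx N) M y ∂(Measure.pi fun _ : Fin N => nu) := by
  classical
  rw [mem_Fs] at hF
  obtain ⟨hF1, hF2, hF3⟩ := hF
  rw [mem_AllM] at hM
  obtain ⟨hM1, hM2, hM3⟩ := hM
  have hne : ∀ s ∈ M, ∀ t ∈ M, F t ≠ s.1 ∧ F t ≠ s.2 := fun s hs t ht =>
    ⟨fun e => hF3 t ht (e ▸ fst_mem_ends hs), fun e => hF3 t ht (e ▸ snd_mem_ends hs)⟩
  refine lintegral_prod_le M F (fun s => wt lam (xx N) s (F s))
    (fun s => measurable_wt lam (xx N) s (F s)) _ ?_ ?_ (measurable_Hf (xx N) M) ?_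
  · intro s hs y
    have hpos : 0 < lam * ((xx N s.2 - xx N s.1) / 2) := by
      have := xx_strictMono N (hM2 s hs)
      have h2 : 0 < xx N s.2 - xx N s.1 := sub_pos.mpr this
      positivity
    have := lintegral_exp_abs_le hpos (L (xx N) y s (xx N (F s)))
    refine le_trans (le_of_eq ?_) this
    refine lintegral_congr fun v => ?_
    unfold wt
    rw [L_congr (y := Function.update y (F s) v) (y' := y) (update_ne (hne s hs s hs).1 v)
      (update_ne (hne s hs s hs).2 v), Function.update_self]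
  · intro s hs t ht hts y v
    unfold wt
    have h1 : F t ≠ F s := fun e => hts (hF2 ht hs e)
    rw [L_congr (y := Function.update y (F t) v) (y' := y) (update_ne (hne s hs t ht).1 v)
      (update_ne (hne s hs t ht).2 v), update_ne h1]
  · intro t ht y v
    have h1 : ∀ r ∈ ends M, Function.update y (F t) v r = y r := fun r hr =>
      update_ne (fun e => hF3 t ht (by rw [e]; exact hr)) v
    unfold Hf
    by_cases h : IsNC (xx N) y (ends M) M
    · rw [if_pos h, if_pos (isNC_congr (fun r hr => (h1 r hr).symm) h)]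
    · rw [if_neg h, if_neg (fun h' => h (isNC_congr h1 h'))]

lemma card_Fs_le (M : Finset (Fin N × Fin N)) :
    (Fs M).card ≤ ∏ s ∈ M, (Finset.Ioo s.1 s.2).card := by
  classical
  unfold Fs
  refine (Finset.card_filter_le _ _).trans ?_
  rw [Fintype.card_piFinset]
  apply le_of_eq
  have : ∀ s : Fin N × Fin N, (if s ∈ M then Finset.Ioo s.1 s.2 else {s.1}).card =
      if s ∈ M then (Finset.Ioo s.1 s.2).card else 1 := by
    intro s
    split_ifs <;> simp
  simp only [this]
  rw [Finset.prod_ite_mem]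
  simp

lemma factor_le {lam : ℝ} (hlam : 0 < lam) {s : Fin N × Fin N} (hs : s.1 < s.2) :
    ((Finset.Ioo s.1 s.2).card : ℝ≥0∞) *
      ENNReal.ofReal (2 / (lam * ((xx N s.2 - xx N s.1) / 2))) ≤ ENNReal.ofReal (4 * N / lam) := by
  have hN : (0 : ℝ) < N := by
    have : 0 < N := lt_of_le_of_lt (Nat.zero_le _) s.1.isLt
    exact_mod_cast this
  have h1 : (s.1 : ℝ) < s.2 := by exact_mod_cast hs
  rw [Fin.card_Ioo]
  rw [← ENNReal.ofReal_natCast, ← ENNReal.ofReal_mul (by positivity)]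
  apply ENNReal.ofReal_le_ofReal
  have h2 : ((s.2.val - s.1.val - 1 : ℕ) : ℝ) ≤ (s.2 : ℝ) - s.1 := by
    have h3 : s.1.val < s.2.val := hs
    have : (s.2.val - s.1.val - 1 : ℕ) + s.1.val ≤ s.2.val := by omega
    have h4 : ((s.2.val - s.1.val - 1 : ℕ) : ℝ) + s.1.val ≤ s.2.val := by exact_mod_cast this
    linarith
  have h5 : 0 < (s.2 : ℝ) - s.1 := by linarith
  have h6 : xx N s.2 - xx N s.1 = ((s.2 : ℝ) - s.1) / N := by unfold xx; ring
  rw [h6]
  calc ((s.2.val - s.1.val - 1 : ℕ) : ℝ) * (2 / (lam * (((s.2 : ℝ) - s.1) / N / 2)))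
      ≤ ((s.2 : ℝ) - s.1) * (2 / (lam * (((s.2 : ℝ) - s.1) / N / 2))) := by
        gcongr
    _ = 4 * N / lam := by
        field_simp
        ring

open Classical in
/-- the partition function -/
noncomputable def Phi (lam : ℝ) (N n : ℕ) (y : Fin N → ℝ) : ℝ≥0∞ :=
  ∑ M ∈ AllM (Fin N) n, ∑ F ∈ Fs M, Hf (xx N) M y * ∏ s ∈ M, wt lam (xx N) s (F s) y

lemma measurable_Phi (lam : ℝ) (N n : ℕ) : Measurable (Phi lam N n) := by
  unfold Phi
  refine Finset.measurable_fun_sum _ fun M _ => Finset.measurable_fun_sum _ fun F _ => ?_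
  exact (measurable_Hf _ _).mul (Finset.measurable_fun_prod _ fun s _ => measurable_wt _ _ _ _)

lemma sum_Hf_le (n : ℕ) (y : Fin N → ℝ) :
    ∑ M ∈ AllM (Fin N) n, Hf (xx N) M y ≤ 2 ^ N * (2 ^ 44) ^ n := by
  classical
  have h1 : ∑ M ∈ AllM (Fin N) n, Hf (xx N) M y =
      (((AllM (Fin N) n).filter (fun M => IsNC (xx N) y (ends M) M)).card : ℝ≥0∞) := by
    unfold Hf
    rw [Finset.card_filter]
    push_cast
    refine Finset.sum_congr rfl fun M _ => ?_
    congr
  rw [h1]
  have h2 : ((AllM (Fin N) n).filter (fun M => IsNC (xx N) y (ends M) M)) ⊆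
      ((Finset.univ : Finset (Fin N)).powersetCard (2 * n)).biUnion
        (fun W => nc (xx N) y W n) := by
    intro M hM
    rw [Finset.mem_filter] at hM
    obtain ⟨hM1, hM2⟩ := hM
    rw [mem_AllM] at hM1
    rw [Finset.mem_biUnion]
    refine ⟨ends M, ?_, ?_⟩
    · rw [Finset.mem_powersetCard]
      exact ⟨Finset.subset_univ _, by rw [card_ends hM2, hM1.1]⟩
    · rw [mem_nc]
      exact ⟨hM2, hM1.1⟩
  have h3 : ((AllM (Fin N) n).filter (fun M => IsNC (xx N) y (ends M) M)).card ≤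
      2 ^ N * (2 ^ 44) ^ n := by
    calc _ ≤ _ := Finset.card_le_card h2
      _ ≤ ∑ W ∈ (Finset.univ : Finset (Fin N)).powersetCard (2 * n), (nc (xx N) y W n).card :=
        Finset.card_biUnion_le
      _ ≤ ∑ _W ∈ (Finset.univ : Finset (Fin N)).powersetCard (2 * n), (2 ^ 44) ^ n :=
        Finset.sum_le_sum fun W hW =>
          nc_perfect_card_le (xx_strictMono N) y n W (Finset.mem_powersetCard.mp hW).2
      _ = ((Finset.univ : Finset (Fin N)).powersetCard (2 * n)).card * (2 ^ 44) ^ n := by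
        rw [Finset.sum_const, smul_eq_mul]
      _ ≤ 2 ^ N * (2 ^ 44) ^ n := by
        gcongr
        rw [Finset.card_powersetCard, Finset.card_univ, Fintype.card_fin]
        exact Nat.choose_le_two_pow _ _
  calc (((AllM (Fin N) n).filter (fun M => IsNC (xx N) y (ends M) M)).card : ℝ≥0∞)
      ≤ ((2 ^ N * (2 ^ 44) ^ n : ℕ) : ℝ≥0∞) := by exact_mod_cast h3
    _ = 2 ^ N * (2 ^ 44) ^ n := by
        rw [Nat.cast_mul, Nat.cast_pow, Nat.cast_pow, Nat.cast_pow]
        norm_num

lemma lintegral_Phi_le {lam : ℝ} (hlam : 0 < lam) (N n : ℕ) :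
    ∫⁻ y, Phi lam N n y ∂(Measure.pi fun _ : Fin N => nu) ≤
      ENNReal.ofReal (4 * N / lam) ^ n * (2 ^ N * (2 ^ 44) ^ n) := by
  classical
  have hm : ∀ M : Finset (Fin N × Fin N), ∀ F : Fin N × Fin N → Fin N,
      Measurable fun y => Hf (xx N) M y * ∏ s ∈ M, wt lam (xx N) s (F s) y := fun M F =>
    (measurable_Hf _ _).mul (Finset.measurable_fun_prod _ fun s _ => measurable_wt _ _ _ _)
  unfold Phi
  rw [lintegral_finsetSum _ (fun M _ => Finset.measurable_fun_sum _ fun F _ => hm M F)]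
  calc ∑ M ∈ AllM (Fin N) n, ∫⁻ y, ∑ F ∈ Fs M, Hf (xx N) M y *
          ∏ s ∈ M, wt lam (xx N) s (F s) y ∂(Measure.pi fun _ : Fin N => nu)
      ≤ ∑ M ∈ AllM (Fin N) n, ENNReal.ofReal (4 * N / lam) ^ n *
          ∫⁻ y, Hf (xx N) M y ∂(Measure.pi fun _ : Fin N => nu) := by
        refine Finset.sum_le_sum fun M hM => ?_
        rw [lintegral_finsetSum _ (fun F _ => hm M F)]
        have hM' := mem_AllM.mp hM
        calc _ ≤ ∑ _F ∈ Fs M, (∏ s ∈ M, ENNReal.ofReal (2 / (lam * ((xx N s.2 - xx N s.1) / 2)))) *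
              ∫⁻ y, Hf (xx N) M y ∂(Measure.pi fun _ : Fin N => nu) :=
              Finset.sum_le_sum fun F hF => integral_term_le hlam hM hF
          _ = ((Fs M).card : ℝ≥0∞) *
              ((∏ s ∈ M, ENNReal.ofReal (2 / (lam * ((xx N s.2 - xx N s.1) / 2)))) *
              ∫⁻ y, Hf (xx N) M y ∂(Measure.pi fun _ : Fin N => nu)) := by
              rw [Finset.sum_const, nsmul_eq_mul]
          _ ≤ ((∏ s ∈ M, (Finset.Ioo s.1 s.2).card : ℕ) : ℝ≥0∞) *
              ((∏ s ∈ M, ENNReal.ofReal (2 / (lam * ((xx N s.2 - xx N s.1) / 2)))) *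
              ∫⁻ y, Hf (xx N) M y ∂(Measure.pi fun _ : Fin N => nu)) := by
              gcongr
              exact card_Fs_le M
          _ = (∏ s ∈ M, (((Finset.Ioo s.1 s.2).card : ℝ≥0∞) *
              ENNReal.ofReal (2 / (lam * ((xx N s.2 - xx N s.1) / 2))))) *
              ∫⁻ y, Hf (xx N) M y ∂(Measure.pi fun _ : Fin N => nu) := by
              rw [Finset.prod_mul_distrib]
              push_cast
              ring
          _ ≤ (∏ _s ∈ M, ENNReal.ofReal (4 * N / lam)) *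
              ∫⁻ y, Hf (xx N) M y ∂(Measure.pi fun _ : Fin N => nu) := by
              gcongr with s hs
              exact factor_le hlam (hM'.2.1 s hs)
          _ = _ := by rw [Finset.prod_const, hM'.1]
    _ = ENNReal.ofReal (4 * N / lam) ^ n *
          ∫⁻ y, ∑ M ∈ AllM (Fin N) n, Hf (xx N) M y ∂(Measure.pi fun _ : Fin N => nu) := by
        rw [lintegral_finsetSum _ (fun M _ => measurable_Hf _ _), Finset.mul_sum]
    _ ≤ ENNReal.ofReal (4 * N / lam) ^ n *
          ∫⁻ _y, 2 ^ N * (2 ^ 44) ^ n ∂(Measure.pi fun _ : Fin N => nu) := by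
        gcongr with y
        exact sum_Hf_le n y
    _ = ENNReal.ofReal (4 * N / lam) ^ n * (2 ^ N * (2 ^ 44) ^ n) := by
        rw [lintegral_const, measure_univ, mul_one]

end Pool.Agent.Lib_helper85.Crossing
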