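import Mathlib
import Pool.Agent.Lib_helper36.Nef.Defs

set_option linter.overlappingInstances false
set_option linter.unusedSectionVars false

namespace NefRed

open scoped WithZero
open Polynomial IsDedekindDomain


/-! ### Part A : two valuations -/

theorem val_unit_of_le {K : Type*} [Field K] {v v' : Valuation K ℤᵐ⁰}
    (h : ∀ x, v x ≤ 1 → v' x ≤ 1) {u : K} (hu : v u = 1) : v' u = 1 := by
  have h1 := h u hu.le
  have h2 := h u⁻¹ (by rw [map_inv₀, hu, inv_one])
  have hu0 : u ≠ 0 := by
    rintro rfl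
    simp at hu
  rw [map_inv₀] at h2
  have hpos : 0 < v' u := by
    rw [zero_lt_iff]
    exact (Valuation.ne_zero_iff v').mpr hu0
  have h3 : 1 ≤ v' u := by
    rwa [inv_le_one₀ hpos] at h2
  exact le_antisymm h1 h3

theorem val_eq_of_le_one {K : Type*} [Field K] (v v' : Valuation K ℤᵐ⁰)
    (hv : Function.Surjective v) (hv' : Function.Surjective v')
    (h : ∀ x, v x ≤ 1 → v' x ≤ 1) : v = v' := by
  obtain ⟨π, hπ⟩ := hv (WithZero.exp (-1))
  have hπ0 : π ≠ 0 := by
    rintro rfl
    rw [map_zero] at hπ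
    exact WithZero.exp_ne_zero hπ.symm
  have hπ1 : v' π ≤ 1 := h π (by rw [hπ, ← WithZero.exp_zero, WithZero.exp_le_exp]; norm_num)
  -- every x is π^n u
  have key : ∀ x : K, x ≠ 0 → v' x = v' π ^ (-(WithZero.log (v x))) := by
    intro x hx
    have hvx : v x ≠ 0 := (Valuation.ne_zero_iff v).mpr hx
    set n : ℤ := -(WithZero.log (v x)) with hn
    have hu : v (x * (π ^ n)⁻¹) = 1 := by
      rw [map_mul, map_inv₀, map_zpow₀, hπ, ← WithZero.exp_zsmul]
      have : v x = WithZero.exp (-n) := by rw [hn, neg_neg, WithZero.exp_log hvx]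
      rw [this, ← WithZero.exp_neg, ← WithZero.exp_add]
      simp
    have hu' := val_unit_of_le h hu
    rw [map_mul, map_inv₀, map_zpow₀] at hu'
    have hne : v' π ^ n ≠ 0 := zpow_ne_zero _ ((Valuation.ne_zero_iff v').mpr hπ0)
    field_simp at hu'
    exact hu'
  obtain ⟨y, hy⟩ := hv' (WithZero.exp (-1))
  have hy0 : y ≠ 0 := by
    rintro rfl
    rw [map_zero] at hy
    exact WithZero.exp_ne_zero hy.symm
  have hvπ : v' π ≠ 0 := (Valuation.ne_zero_iff v').mpr hπ0
  set m : ℤ := WithZero.log (v' π) with hm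
  have hm' : v' π = WithZero.exp m := by rw [hm, WithZero.exp_log hvπ]
  have hm0 : m ≤ 0 := by
    rw [hm', ← WithZero.exp_zero, WithZero.exp_le_exp] at hπ1
    exact hπ1
  have h1 := key y hy0
  rw [hy, hm', ← WithZero.exp_zsmul] at h1
  have h2 := WithZero.exp_injective h1
  have hm1 : m = -1 := by
    have : m ∣ 1 := by
      refine ⟨WithZero.log (v y), ?_⟩
      simp only [smul_eq_mul] at h2
      linarith
    rcases Int.isUnit_iff.mp (isUnit_of_dvd_one this) with h | h <;> omega
  ext x
  rcases eq_or_ne x 0 with rfl | hx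
  · simp
  · rw [key x hx, hm', hm1, ← WithZero.exp_zsmul]
    simp only [smul_eq_mul, mul_neg, mul_one, neg_neg]
    rw [WithZero.exp_log ((Valuation.ne_zero_iff v).mpr hx)]



section Generic

variable (R : Type) [CommRing R] [IsDomain R] [IsDiscreteValuationRing R]
  (F : Type) [Field F] [Algebra R F] [IsFractionRing R F]
  (S : Type) [CommRing S] [IsDomain S] [IsDedekindDomain S] [Algebra R S] [Module.Finite R S]
  [FaithfulSMul R S]
  (K : Type) [Field K] [Algebra S K] [IsFractionRing S K] [Algebra F K] [Algebra R K]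
  [IsScalarTower R S K] [IsScalarTower R F K]


theorem max_ne_bot : (IsLocalRing.maximalIdeal R) ≠ ⊥ := IsDiscreteValuationRing.not_a_field R

variable {S} in
theorem liesOver_of (P : Ideal S) [P.IsPrime] (hP : P ≠ ⊥) : P.LiesOver (IsLocalRing.maximalIdeal R) := by
  have : Algebra.IsIntegral R S := Algebra.IsIntegral.of_finite R S
  have h1 : P.comap (algebraMap R S) ≠ ⊥ := by
    intro h
    exact hP (Ideal.eq_bot_of_comap_eq_bot h)
  have h2 : (P.comap (algebraMap R S)).IsPrime := Ideal.comap_isPrime _ _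
  have h3 : (P.comap (algebraMap R S)).IsMaximal := h2.isMaximal h1
  constructor
  exact (IsLocalRing.eq_maximalIdeal h3).symm

theorem finite_primes : (Ideal.primesOver (IsLocalRing.maximalIdeal R) S).Finite := by
  exact IsDedekindDomain.primesOver_finite (IsLocalRing.maximalIdeal R) S

/-- the bijection between nonzero primes and primes over the maximal ideal -/
noncomputable def hosEquiv : HeightOneSpectrum S ≃ Ideal.primesOver (IsLocalRing.maximalIdeal R) S where
  toFun P := ⟨P.asIdeal, P.isPrime, liesOver_of R P.asIdeal P.ne_bot⟩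
  invFun Q := ⟨Q.1, Q.2.1, by
    have := Q.2.2
    exact Ideal.ne_bot_of_liesOver_of_ne_bot (max_ne_bot R) Q.1⟩
  left_inv P := rfl
  right_inv Q := rfl

include R in
theorem hos_finite : Finite (HeightOneSpectrum S) :=
  have := (finite_primes R S).to_subtype
  Finite.of_equiv _ (hosEquiv R S).symm

variable (hf : ∀ P : Ideal S, P.IsPrime → P ≠ ⊥ → P.inertiaDeg R = 1)

include hf in
theorem sum_ram [Fintype (Ideal.primesOver (IsLocalRing.maximalIdeal R) S)] :
    ∑ q : Ideal.primesOver (IsLocalRing.maximalIdeal R) S, q.1.ramificationIdx R = Module.finrank R S := by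
  have : Module.IsTorsionFree R S := inferInstance
  have h := Ideal.sum_ramification_inertia_eq_finrank (IsLocalRing.maximalIdeal R) S
  rw [← h]
  refine Finset.sum_congr rfl fun q _ => ?_
  have := q.2.2
  rw [hf q.1 q.2.1 (Ideal.ne_bot_of_liesOver_of_ne_bot (max_ne_bot R) q.1), mul_one]

include hf in
theorem relNorm_eq_max (P : Ideal S) [hP : P.IsPrime] (hP0 : P ≠ ⊥) :
    Ideal.relNorm R P = (IsLocalRing.maximalIdeal R) := by
  classical
  have := (finite_primes R S).fintype
  have hs : ∀ q : Ideal.primesOver (IsLocalRing.maximalIdeal R) S, ∃ s : ℕ, Ideal.relNorm R q.1 = (IsLocalRing.maximalIdeal R) ^ s := by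
    intro q
    have := q.2.2
    exact Ideal.exists_relNorm_eq_pow_of_isPrime q.1 (IsLocalRing.maximalIdeal R)
  choose s hs using hs
  have hs1 : ∀ q, 1 ≤ s q := by
    intro q
    by_contra h
    have h0 : s q = 0 := by omega
    have h1 := hs q
    rw [h0, pow_zero, Ideal.one_eq_top] at h1
    have h2 := Ideal.relNorm_le_comap R q.1
    rw [h1, top_le_iff, Ideal.comap_eq_top_iff] at h2
    exact q.2.1.ne_top h2
  have h1 := congr_arg (Ideal.relNorm R) (Ideal.map_algebraMap_eq_finsetProd_pow (R := S)
    (p := (IsLocalRing.maximalIdeal R)) (max_ne_bot R))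
  rw [Ideal.relNorm_algebraMap S (IsLocalRing.maximalIdeal R), map_prod] at h1
  have h2 : ∏ P ∈ (Ideal.primesOver (IsLocalRing.maximalIdeal R) S).toFinset, Ideal.relNorm R (P ^ P.ramificationIdx R)
      = (IsLocalRing.maximalIdeal R) ^ ∑ q : Ideal.primesOver (IsLocalRing.maximalIdeal R) S, s q * q.1.ramificationIdx R := by
    rw [← Finset.prod_pow_eq_pow_sum]
    rw [← Finset.prod_set_coe]
    refine Finset.prod_congr rfl fun q _ => ?_
    rw [map_pow, hs q, ← pow_mul]
  have h1' := h1.trans (Eq.trans (by congr!) h2)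
  have h3 : Module.finrank R S = ∑ q : Ideal.primesOver (IsLocalRing.maximalIdeal R) S, s q * q.1.ramificationIdx R :=
    (Ideal.pow_right_strictAnti (IsLocalRing.maximalIdeal R) (max_ne_bot R) (Ideal.IsPrime.ne_top inferInstance)).injective h1'
  rw [← sum_ram R S hf] at h3
  have h4 : ∀ q ∈ (Finset.univ : Finset (Ideal.primesOver (IsLocalRing.maximalIdeal R) S)),
      q.1.ramificationIdx R ≤ s q * q.1.ramificationIdx R := by
    intro q _
    exact Nat.le_mul_of_pos_left _ (hs1 q)
  have h5 := (Finset.sum_eq_sum_iff_of_le h4).mp h3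
  have hq := liesOver_of R P hP0
  have h6 := h5 ⟨P, hP, hq⟩ (Finset.mem_univ _)
  have h7 : 0 < P.ramificationIdx R := Ideal.ramificationIdx_pos P R
  have h8 : s ⟨P, hP, hq⟩ = 1 := by
    simp only at h6
    nlinarith
  have h9 := hs ⟨P, hP, hq⟩
  rw [h8, pow_one] at h9
  exact h9

include hf in
theorem card_hos_le [Fintype (HeightOneSpectrum S)] :
    Fintype.card (HeightOneSpectrum S) ≤ Module.finrank F K := by
  classical
  have := (finite_primes R S).fintype
  have h1 := sum_ram R S hf
  have h2 : Module.finrank R S = Module.finrank F K :=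
    (IsFractionRing.finrank_eq R F S K).symm
  rw [← h2, ← h1, Fintype.card_congr (hosEquiv R S)]
  rw [← Finset.card_univ, Finset.card_eq_sum_ones]
  refine Finset.sum_le_sum fun q _ => ?_
  have := q.2.1
  exact Ideal.ramificationIdx_pos q.1 R

theorem intVal_of_span {T : Type} [CommRing T] [IsDedekindDomain T]
    (v : HeightOneSpectrum T) {s : T} {n : ℕ} (h1 : s ∈ v.asIdeal ^ n)
    (h2 : s ∉ v.asIdeal ^ (n+1)) : v.intValuation s = WithZero.exp (-(n : ℤ)) := by
  have h3 := (v.intValuation_le_pow_iff_mem s n).mpr h1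
  have h4 : ¬ v.intValuation s ≤ WithZero.exp (-((n+1 : ℕ) : ℤ)) := fun h =>
    h2 ((v.intValuation_le_pow_iff_mem s (n+1)).mp h)
  have hs0 : s ≠ 0 := by
    rintro rfl
    exact h2 (Ideal.zero_mem _)
  have h5 : v.intValuation s ≠ 0 := v.intValuation_ne_zero s hs0
  refine le_antisymm h3 ?_
  rw [not_le] at h4
  rw [← WithZero.exp_log h5, WithZero.exp_lt_exp] at h4
  rw [← WithZero.exp_log h5, WithZero.exp_le_exp]
  push_cast at h4
  omega

theorem exp_sum {ι : Type*} (s : Finset ι) (f : ι → ℤ) :
    WithZero.exp (∑ i ∈ s, f i) = ∏ i ∈ s, WithZero.exp (f i) := by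
  classical
  induction s using Finset.induction_on with
  | empty => simp
  | insert a s ha ih => rw [Finset.sum_insert ha, Finset.prod_insert ha, WithZero.exp_add, ih]

include hf in
theorem prod_intVal [Fintype (HeightOneSpectrum S)] (s : S) (hs : s ≠ 0) :
    ∏ P : HeightOneSpectrum S, P.intValuation s =
      (IsDiscreteValuationRing.maximalIdeal R).intValuation (Algebra.intNorm R S s) := by
  classical
  have hI : Ideal.span {s} ≠ 0 := by simpa using hs
  have h1 := Ideal.finprod_heightOneSpectrum_factorization hI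
  rw [finprod_eq_prod_of_fintype] at h1
  have h2 := congr_arg (Ideal.relNorm R) h1
  rw [map_prod, Ideal.relNorm_singleton] at h2
  simp only [HeightOneSpectrum.maxPowDividing, map_pow] at h2
  have h3 : ∀ P : HeightOneSpectrum S, Ideal.relNorm R P.asIdeal = (IsLocalRing.maximalIdeal R) := fun P => by
    have := P.isPrime
    exact relNorm_eq_max R S hf P.asIdeal P.ne_bot
  simp only [h3] at h2
  rw [Finset.prod_pow_eq_pow_sum] at h2
  set N := ∑ P : HeightOneSpectrum S, (Associates.mk P.asIdeal).count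
    (Associates.mk (Ideal.span {s})).factors with hN
  have h4 : (IsDiscreteValuationRing.maximalIdeal R).intValuation (Algebra.intNorm R S s)
      = WithZero.exp (-(N : ℤ)) := by
    apply intVal_of_span
    · change Algebra.intNorm R S s ∈ (IsLocalRing.maximalIdeal R) ^ N
      rw [h2]
      exact Ideal.mem_span_singleton_self _
    · change Algebra.intNorm R S s ∉ (IsLocalRing.maximalIdeal R) ^ (N+1)
      intro h
      have h5 : (IsLocalRing.maximalIdeal R) ^ N ≤ (IsLocalRing.maximalIdeal R) ^ (N+1) := by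
        have h5' := (Ideal.span_singleton_le_iff_mem ((IsLocalRing.maximalIdeal R) ^ (N+1))).mpr h
        rw [← h2] at h5'
        exact h5'
      have h6 := Ideal.pow_right_strictAnti (IsLocalRing.maximalIdeal R) (max_ne_bot R) (Ideal.IsPrime.ne_top inferInstance)
        (Nat.lt_succ_self N)
      exact absurd h5 (not_le_of_gt h6)
  rw [h4, hN]
  push_cast
  rw [← Finset.sum_neg_distrib, exp_sum]
  refine Finset.prod_congr rfl fun P _ => ?_
  rw [P.intValuation_if_neg hs]

include hf in
theorem hos_nonempty : Nonempty (HeightOneSpectrum S) := by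
  classical
  have := (finite_primes R S).fintype
  have h1 := sum_ram R S hf
  by_contra h
  rw [not_nonempty_iff] at h
  have h2 : IsEmpty (Ideal.primesOver (IsLocalRing.maximalIdeal R) S) := (hosEquiv R S).symm.isEmpty
  rw [Finset.univ_eq_empty, Finset.sum_empty] at h1
  have h3 : 0 < Module.finrank R S := Module.finrank_pos
  omega

include hf in
theorem prod_val [FiniteDimensional F K] [Fintype (HeightOneSpectrum S)] (z : K) :
    ∏ P : HeightOneSpectrum S, P.valuation K z =
      (IsDiscreteValuationRing.maximalIdeal R).valuation F (Algebra.norm F z) := by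
  classical
  have hi : ∀ s : S, s ≠ 0 → ∏ P : HeightOneSpectrum S, P.valuation K (algebraMap S K s) =
      (IsDiscreteValuationRing.maximalIdeal R).valuation F
        (Algebra.norm F (algebraMap S K s)) := by
    intro s hs
    have h := prod_intVal R S hf s hs
    rw [← Algebra.algebraMap_intNorm (A := R) (K := F) (L := K) (B := S), HeightOneSpectrum.valuation_of_algebraMap,
      ← h]
    refine Finset.prod_congr rfl fun P _ => ?_
    rw [HeightOneSpectrum.valuation_of_algebraMap]
  rcases eq_or_ne z 0 with rfl | hz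
  · obtain ⟨P⟩ := hos_nonempty R S hf
    rw [Algebra.norm_zero, map_zero]
    exact Finset.prod_eq_zero (Finset.mem_univ P) (map_zero _)
  · obtain ⟨a, b, hb, rfl⟩ := IsFractionRing.div_surjective (A := S) z
    have hb0 : b ≠ 0 := nonZeroDivisors.ne_zero hb
    have ha0 : a ≠ 0 := by
      rintro rfl
      simp at hz
    have hb1 : algebraMap S K b ≠ 0 := by
      simpa using hb0
    have hn : Algebra.norm F (algebraMap S K a / algebraMap S K b) *
        Algebra.norm F (algebraMap S K b) = Algebra.norm F (algebraMap S K a) := by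
      rw [← map_mul, div_mul_cancel₀ _ hb1]
    have hnb : Algebra.norm F (algebraMap S K b) ≠ 0 := by
      rwa [Ne, Algebra.norm_eq_zero_iff]
    simp only [map_div₀]
    rw [Finset.prod_div_distrib, hi a ha0, hi b hb0, ← hn, map_mul]
    rw [mul_div_cancel_right₀]
    exact (Valuation.ne_zero_iff _).mpr hnb

variable {S} in
theorem inertia_one (P : Ideal S) [hP : P.IsPrime] (hP0 : P ≠ ⊥)
    (h : ∀ s : S, ∃ r : R, s - algebraMap R S r ∈ P) : P.inertiaDeg R = 1 := by
  have hlo := liesOver_of R P hP0
  have hPmax : P.IsMaximal := hP.isMaximal hP0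
  have := Ideal.Quotient.field P
  rw [Ideal.inertiaDeg_eq_of_isMaximal (IsLocalRing.maximalIdeal R) P]
  apply finrank_eq_one (1 : S ⧸ P) one_ne_zero
  intro y
  obtain ⟨s, rfl⟩ := Ideal.Quotient.mk_surjective y
  obtain ⟨r, hr⟩ := h s
  refine ⟨Ideal.Quotient.mk _ r, ?_⟩
  rw [Algebra.smul_def, mul_one]
  symm
  exact (Ideal.Quotient.eq).mpr hr

/-- the ideal of a valuation that is nonnegative on `S` -/
def centre (v : Valuation K ℤᵐ⁰) (hv : ∀ s : S, v (algebraMap S K s) ≤ 1) : Ideal S where
  carrier := {s | v (algebraMap S K s) < 1}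
  zero_mem' := by simp
  add_mem' := by
    intro a b ha hb
    simp only [Set.mem_ofPred_eq, map_add] at *
    exact Valuation.map_add_lt _ ha hb
  smul_mem' := by
    intro c x hx
    simp only [Set.mem_ofPred_eq, smul_eq_mul, map_mul] at *
    exact lt_of_le_of_lt (mul_le_mul' (hv c) le_rfl) (by rwa [one_mul])

theorem mem_centre (v : Valuation K ℤᵐ⁰) (hv : ∀ s : S, v (algebraMap S K s) ≤ 1) (s : S) :
    s ∈ centre S K v hv ↔ v (algebraMap S K s) < 1 := Iff.rfl

theorem centre_prime (v : Valuation K ℤᵐ⁰) (hv : ∀ s : S, v (algebraMap S K s) ≤ 1) :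
    (centre S K v hv).IsPrime := by
  constructor
  · intro h
    have h1 : (1 : S) ∈ centre S K v hv := by rw [h]; trivial
    rw [mem_centre] at h1
    simp at h1
  · intro a b hab
    rw [mem_centre, map_mul, map_mul] at hab
    rw [mem_centre, mem_centre]
    by_contra hcon
    push Not at hcon
    have h1 := le_antisymm (hv a) hcon.1
    have h2 := le_antisymm (hv b) hcon.2
    rw [h1, h2, one_mul] at hab
    exact lt_irrefl _ hab

theorem centre_ne_bot (v : Valuation K ℤᵐ⁰) (hv : ∀ s : S, v (algebraMap S K s) ≤ 1)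
    (hs : Function.Surjective v) : centre S K v hv ≠ ⊥ := by
  obtain ⟨x, hx⟩ := hs (WithZero.exp (-1))
  obtain ⟨a, b, hb, rfl⟩ := IsFractionRing.div_surjective (A := S) x
  have hb0 : b ≠ 0 := nonZeroDivisors.ne_zero hb
  have hb1 : algebraMap S K b ≠ 0 := by simpa using hb0
  have hvb : v (algebraMap S K b) ≠ 0 := (Valuation.ne_zero_iff v).mpr hb1
  have ha : v (algebraMap S K a) = WithZero.exp (-1) * v (algebraMap S K b) := by
    rw [map_div₀] at hx
    rw [← hx, div_mul_cancel₀ _ hvb]
  have ha0 : a ≠ 0 := by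
    rintro rfl
    rw [map_zero, map_zero] at ha
    exact (mul_ne_zero WithZero.exp_ne_zero hvb) ha.symm
  have ha1 : a ∈ centre S K v hv := by
    rw [mem_centre, ha]
    refine lt_of_le_of_lt (mul_le_mul' le_rfl (hv b)) ?_
    rw [mul_one, ← WithZero.exp_zero, WithZero.exp_lt_exp]
    norm_num
  intro h
  rw [h] at ha1
  exact ha0 (by simpa using ha1)

theorem exists_hos (v : Valuation K ℤᵐ⁰) (hv : ∀ s : S, v (algebraMap S K s) ≤ 1)
    (hs : Function.Surjective v) : ∃ P : HeightOneSpectrum S, P.valuation K = v := by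
  refine ⟨⟨centre S K v hv, centre_prime S K v hv, centre_ne_bot S K v hv hs⟩, ?_⟩
  apply val_eq_of_le_one _ _ (HeightOneSpectrum.valuation_surjective _ _) hs
  intro x hx
  obtain ⟨n, d, hd⟩ := HeightOneSpectrum.exists_primeCompl_mul_eq_of_integer _ x hx
  have hvd : v (algebraMap S K d) = 1 := by
    refine le_antisymm (hv _) (not_lt.mp fun h => ?_)
    exact d.2 h
  have h2 := congr_arg v hd
  rw [map_mul, hvd, mul_one] at h2
  rw [h2]
  exact hv n

theorem maxIdeal_valuation (w : Valuation F ℤᵐ⁰) (hw : Function.Surjective w)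
    (hR : ∀ r : R, w (algebraMap R F r) ≤ 1) :
    (IsDiscreteValuationRing.maximalIdeal R).valuation F = w := by
  obtain ⟨P, hP⟩ := exists_hos R F w hR hw
  rw [← hP]
  congr 1
  ext1
  exact (IsLocalRing.eq_maximalIdeal (P.isPrime.isMaximal P.ne_bot)).symm

end Generic



theorem Place.ext' {k K : Type} [Field k] [Field K] [Algebra k K] {v w : Place k K}
    (h : v.val = w.val) : v = w := by
  cases v; cases w; congr

section Res

variable (k : Type) [Field k] [IsAlgClosed k] (K : Type) [Field K] [Algebra k K]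
  [Algebra (RatFunc k) K] [IsScalarTower k (RatFunc k) K]
  [FiniteDimensional (RatFunc k) K]

theorem trdeg_F : Algebra.trdeg k (RatFunc k) = 1 := by
  have h1 : Algebra.IsAlgebraic k[X] (RatFunc k) :=
    IsLocalization.isAlgebraic _ (nonZeroDivisors k[X])
  have h2 := trdeg_add_eq k k[X] (A := RatFunc k)
  rw [Polynomial.trdeg_of_isDomain, trdeg_eq_zero, add_zero] at h2
  exact h2.symm

theorem trdeg_K : Algebra.trdeg k K = 1 := by
  have h2 := trdeg_add_eq k (RatFunc k) (A := K)
  rw [trdeg_F, trdeg_eq_zero, add_zero] at h2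
  exact h2.symm

theorem algebraic_adjoin (x : K) (hx : Transcendental k x) :
    Algebra.IsAlgebraic (Algebra.adjoin k {x}) K := by
  have h1 : AlgebraicIndependent k ![x] := by
    rw [algebraicIndependent_unique_type_iff]
    simpa using hx
  have h2 : IsTranscendenceBasis k ![x] := by
    apply h1.isTranscendenceBasis_of_trdeg_le_of_finite
    rw [trdeg_K]
    simp
  have h3 := h2.isAlgebraic
  rw [show Set.range ![x] = {x} by simp] at h3
  exact h3


variable {k K}

theorem val_C_le (v : Place k K) (c : k) : v.val (algebraMap k K c) ≤ 1 := by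
  rcases eq_or_ne c 0 with rfl | hc
  · simp
  · exact (v.triv c hc).le

theorem val_aeval_le {K A : Type} [Field K] [CommRing A] [Algebra A K] (v : Valuation K ℤᵐ⁰)
    {t : K} (p : A[X]) (ht : v t ≤ 1) (h : ∀ a : A, v (algebraMap A K a) ≤ 1) :
    v (aeval t p) ≤ 1 := by
  rw [aeval_eq_sum_range]
  apply Valuation.map_sum_le
  intro i _
  rw [Algebra.smul_def, map_mul, map_pow]
  exact mul_le_one' (h _) (pow_le_one' ht i)

/-- the residue field is `k` -/
theorem exists_residue (v : Place k K) (x : K) (hx : v.val x ≤ 1) :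
    ∃ c : k, v.val (x - algebraMap k K c) < 1 := by
  by_contra hcon
  push Not at hcon
  have h1 : ∀ c : k, v.val (x - algebraMap k K c) = 1 := fun c =>
    le_antisymm (le_trans (Valuation.map_sub _ _ _) (max_le hx (val_C_le v c))) (hcon c)
  have h2 : ∀ f : k[X], f ≠ 0 → v.val (aeval x f) = 1 := by
    intro f hf
    have hs := IsAlgClosed.splits f
    rw [hs.eq_prod_roots]
    rw [map_mul, aeval_C, map_mul, v.triv _ (leadingCoeff_ne_zero.mpr hf), one_mul]
    rw [map_multiset_prod, map_multiset_prod, Multiset.map_map, Multiset.map_map]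
    apply Multiset.prod_eq_one
    intro y hy
    rw [Multiset.mem_map] at hy
    obtain ⟨a, _, rfl⟩ := hy
    simpa using h1 a
  have h3 : Transcendental k x := by
    intro ⟨f, hf, hfx⟩
    have := h2 f hf
    rw [hfx, map_zero] at this
    exact zero_ne_one this
  have h4 := algebraic_adjoin k K x h3
  obtain ⟨t, ht⟩ := v.surj (WithZero.exp (-1))
  have ht0 : t ≠ 0 := by
    rintro rfl
    rw [map_zero] at ht
    exact WithZero.exp_ne_zero ht.symm
  have ht1 : v.val t < 1 := by
    rw [ht, ← WithZero.exp_zero, WithZero.exp_lt_exp]; norm_num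
  have h5 : ∀ y : Algebra.adjoin k {x}, y ≠ 0 → v.val (algebraMap _ K y) = 1 := by
    intro ⟨y, hy⟩ hy0
    rw [Algebra.adjoin_singleton_eq_range_aeval] at hy
    obtain ⟨f, rfl⟩ := hy
    refine h2 f ?_
    rintro rfl
    apply hy0
    apply Subtype.ext
    simp
  obtain ⟨p, hp0, hp⟩ := (h4.isAlgebraic t).exists_nonzero_coeff_and_aeval_eq_zero
    (mem_nonZeroDivisors_of_ne_zero ht0)
  have h6 : v.val (aeval t (p - C (p.coeff 0))) < 1 := by
    have h7 : p - C (p.coeff 0) = p.divX * X := by
      conv_lhs => rw [← Polynomial.divX_mul_X_add p]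
      simp
    rw [h7, map_mul, aeval_X, map_mul]
    have h8 : v.val (aeval t p.divX) ≤ 1 := by
      apply val_aeval_le _ _ ht1.le
      intro a
      rcases eq_or_ne a 0 with rfl | ha
      · simp
      · exact (h5 a ha).le
    exact lt_of_le_of_lt (mul_le_mul' h8 le_rfl) (by rwa [one_mul])
  rw [map_sub, hp, aeval_C, zero_sub, Valuation.map_neg, h5 _ hp0] at h6
  exact lt_irrefl _ h6

end Res



theorem rankOne_of_surj {K : Type} [Field K] (v : Valuation K ℤᵐ⁰) (h : Function.Surjective v) :
    v.IsRankOneDiscrete := by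
  have : Nontrivial (MonoidWithZeroHom.valueGroup (.ofClass v)) := by
    obtain ⟨π, hπ⟩ := h (WithZero.exp (-1))
    rw [Subgroup.nontrivial_iff_exists_ne_one]
    refine ⟨Units.mk0 (v π) (by rw [hπ]; exact WithZero.exp_ne_zero), ?_, ?_⟩
    · apply MonoidWithZeroHom.mem_valueGroup
      exact ⟨π, by simp⟩
    · intro h1
      have h2 := congr_arg Units.val h1
      simp only [Units.val_mk0, Units.val_one] at h2
      rw [hπ, ← WithZero.exp_zero] at h2
      have := WithZero.exp_injective h2
      omega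
  exact Valuation.IsRankOneDiscrete.mk' v

theorem mem_of_integral' {F K : Type} [Field F] [Field K] [Algebra F K] (R : ValuationSubring F)
    (v : Valuation K ℤᵐ⁰) (h : ∀ x ∈ R, v (algebraMap F K x) ≤ 1) (s : K) (hs : IsIntegral R s) :
    v s ≤ 1 := by
  let f : R →+* v.valuationSubring :=
    { toFun := fun x => ⟨algebraMap F K x, h x x.2⟩
      map_one' := by ext; simp
      map_mul' := fun x y => by ext; simp
      map_zero' := by ext; simp
      map_add' := fun x y => by ext; simp }
  obtain ⟨p, hp, hps⟩ := hs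
  have h1 : IsIntegral v.valuationSubring s := by
    refine ⟨p.map f, hp.map f, ?_⟩
    rw [eval₂_map]
    exact hps
  have h2 := IsIntegrallyClosed.isIntegral_iff.mp h1
  obtain ⟨y, hy⟩ := h2
  rw [← hy]
  exact y.2

section Fib

variable (k : Type) [Field k] [IsAlgClosed k] (K : Type) [Field K] [Algebra k K]
  [Algebra (RatFunc k) K] [IsScalarTower k (RatFunc k) K]
  [FiniteDimensional (RatFunc k) K] [Algebra.IsSeparable (RatFunc k) K]


variable {k K}

/-- the fibre of `Place k K → Place k (RatFunc k)` -/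
theorem fiber (w : Place k (RatFunc k)) : ∃ A : Finset (Place k K),
    (∀ v, v ∈ A ↔ ∀ x : (RatFunc k), w.val x ≤ 1 → v.val (algebraMap (RatFunc k) K x) ≤ 1) ∧
    A.card ≤ Module.finrank (RatFunc k) K ∧ ∀ z : K, ∏ v ∈ A, v.val z = w.val (Algebra.norm (RatFunc k) z) := by
  classical
  have hw := rankOne_of_surj w.val w.surj
  set R := w.val.valuationSubring with hR
  have hDVR : IsDiscreteValuationRing R := inferInstance
  set S := integralClosure R K with hS
  have hDed : IsDedekindDomain S := integralClosure.isDedekindDomain R (RatFunc k) K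
  have hFr : IsFractionRing S K := integralClosure.isFractionRing_of_finite_extension (RatFunc k) K
  have hFin : Module.Finite R S := IsIntegralClosure.finite R (RatFunc k) K S
  have hfa : FaithfulSMul R S := inferInstance
  have hFinite : Finite (HeightOneSpectrum S) := hos_finite R S
  have : Fintype (HeightOneSpectrum S) := Fintype.ofFinite _
  -- constants are in `R`
  have hc : ∀ c : k, algebraMap k (RatFunc k) c ∈ R := fun c => val_C_le w c
  let cR : k → R := fun c => ⟨algebraMap k (RatFunc k) c, hc c⟩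
  have hcS : ∀ c : k, algebraMap S K (algebraMap R S (cR c)) = algebraMap k K c := by
    intro c
    rw [IsScalarTower.algebraMap_apply k (RatFunc k) K]
    rfl
  let Φ : HeightOneSpectrum S → Place k K := fun P =>
    ⟨P.valuation K, HeightOneSpectrum.valuation_surjective K P, by
      intro c hc0
      have h1 : P.valuation K (algebraMap k K c) ≤ 1 := by
        rw [← hcS]; exact P.valuation_le_one _
      have h2 : P.valuation K (algebraMap k K c⁻¹) ≤ 1 := by
        rw [← hcS]; exact P.valuation_le_one _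
      have h3 : P.valuation K (algebraMap k K c) * P.valuation K (algebraMap k K c⁻¹) = 1 := by
        rw [← map_mul, ← map_mul, mul_inv_cancel₀ hc0, map_one, map_one]
      refine le_antisymm h1 ?_
      rw [← h3]
      exact mul_le_of_le_one_right' h2⟩
  have hΦinj : Function.Injective Φ := by
    intro P Q h
    have h1 : P.valuation K = Q.valuation K := congr_arg Place.val h
    apply HeightOneSpectrum.eq_of_valuation_isEquiv_valuation (K := K)
    rw [h1]
  have hf : ∀ P : Ideal S, P.IsPrime → P ≠ ⊥ → P.inertiaDeg R = 1 := by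
    intro P hP hP0
    apply inertia_one R P hP0
    intro s
    let Q : HeightOneSpectrum S := ⟨P, hP, hP0⟩
    obtain ⟨c, hcc⟩ := exists_residue (Φ Q) (algebraMap S K s) (Q.valuation_le_one s)
    refine ⟨cR c, ?_⟩
    rw [← hcS, ← map_sub] at hcc
    exact (Q.valuation_lt_one_iff_mem _).mp hcc
  refine ⟨Finset.univ.image Φ, ?_, ?_, ?_⟩
  · intro v
    rw [Finset.mem_image]
    constructor
    · rintro ⟨P, _, rfl⟩ x hx
      have h1 := P.valuation_le_one (K := K) (algebraMap R S ⟨x, hx⟩)
      exact h1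
    · intro hv
      have hvS : ∀ s : S, v.val (algebraMap S K s) ≤ 1 := fun s =>
        mem_of_integral' R v.val (fun x hx => hv x hx) s s.2
      obtain ⟨P, hP⟩ := exists_hos S K v.val hvS v.surj
      exact ⟨P, Finset.mem_univ _, Place.ext' hP⟩
  · rw [Finset.card_image_of_injective _ hΦinj, Finset.card_univ]
    exact card_hos_le R (RatFunc k) S K hf
  · intro z
    rw [Finset.prod_image (fun a _ b _ h => hΦinj h)]
    have h1 := prod_val R (RatFunc k) S K hf z
    have h2 : (IsDiscreteValuationRing.maximalIdeal R).valuation (RatFunc k) = w.val :=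
      maxIdeal_valuation R (RatFunc k) w.val w.surj (fun r => r.2)
    rw [h2] at h1
    exact h1

end Fib



section FF

variable (k : Type) [Field k]

/-- the prime `X - a` -/
noncomputable def hosA (a : k) : HeightOneSpectrum k[X] where
  asIdeal := Ideal.span {X - C a}
  isPrime := by
    rw [Ideal.span_singleton_prime (X_sub_C_ne_zero a)]
    exact prime_X_sub_C a
  ne_bot := by
    simpa using X_sub_C_ne_zero a

theorem hosA_poly (a : k) (p : k[X]) (hp : p ≠ 0) :
    (hosA k a).valuation (RatFunc k) (algebraMap k[X] (RatFunc k) p) =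
      WithZero.exp (-(p.rootMultiplicity a : ℤ)) := by
  rw [HeightOneSpectrum.valuation_of_algebraMap]
  apply intVal_of_span
  · change p ∈ Ideal.span {X - C a} ^ _
    rw [Ideal.span_singleton_pow, Ideal.mem_span_singleton]
    exact pow_rootMultiplicity_dvd p a
  · change p ∉ Ideal.span {X - C a} ^ _
    rw [Ideal.span_singleton_pow, Ideal.mem_span_singleton]
    exact pow_rootMultiplicity_not_dvd hp a

theorem algMap_C (c : k) : algebraMap k (RatFunc k) c = algebraMap k[X] (RatFunc k) (C c) := by
  rw [IsScalarTower.algebraMap_apply k k[X] (RatFunc k)]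
  rfl

noncomputable def wA (a : k) : Place k (RatFunc k) where
  val := (hosA k a).valuation (RatFunc k)
  surj := HeightOneSpectrum.valuation_surjective _ _
  triv := by
    intro c hc
    rw [algMap_C, hosA_poly k a _ (C_ne_zero.mpr hc)]
    simp

theorem wA_poly (a : k) (p : k[X]) (hp : p ≠ 0) :
    (wA k a).val (algebraMap k[X] (RatFunc k) p) = WithZero.exp (-(p.rootMultiplicity a : ℤ)) :=
  hosA_poly k a p hp

open Classical in
noncomputable def wInf : Place k (RatFunc k) where
  val := RatFunc.inftyValuation k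
  surj := by
    intro y
    rcases eq_or_ne y 0 with rfl | hy
    · exact ⟨0, map_zero _⟩
    · refine ⟨RatFunc.X ^ (WithZero.log y), ?_⟩
      rw [map_zpow₀, RatFunc.inftyValuation.X, ← WithZero.exp_zsmul]
      simp [WithZero.exp_log hy]
  triv := by
    intro c hc
    exact RatFunc.inftyValuation.C k hc

open Classical in
theorem wInf_apply (f : RatFunc k) (hf : f ≠ 0) : (wInf k).val f = WithZero.exp f.intDegree := by
  exact RatFunc.inftyValuation_of_nonzero k hf

theorem wInf_poly (p : k[X]) (hp : p ≠ 0) :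
    (wInf k).val (algebraMap k[X] (RatFunc k) p) = WithZero.exp (p.natDegree : ℤ) := by
  rw [wInf_apply, RatFunc.intDegree_polynomial]
  simpa using hp

noncomputable def wO : Option k → Place k (RatFunc k)
  | none => wInf k
  | some a => wA k a

end FF

section AtSec

variable {k : Type} [Field k] {K : Type} [Field K] [Algebra k K]
  [Algebra (RatFunc k) K] [IsScalarTower k (RatFunc k) K]

/-- the place `v` lies over the point `o` of the projective line -/
def At (v : Place k K) : Option k → Prop
  | none => 1 < v.val (algebraMap (RatFunc k) K RatFunc.X)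
  | some a => v.val (algebraMap (RatFunc k) K RatFunc.X - algebraMap k K a) < 1

theorem alg_poly (p : k[X]) : algebraMap (RatFunc k) K (algebraMap k[X] (RatFunc k) p) =
    aeval (algebraMap (RatFunc k) K RatFunc.X) p := by
  rw [aeval_algebraMap_apply, ← RatFunc.algebraMap_X, aeval_algebraMap_apply, aeval_X_left_apply]

theorem val_C_le' (v : Place k K) (c : k) : v.val (algebraMap k K c) ≤ 1 := by
  rcases eq_or_ne c 0 with rfl | hc
  · simp
  · exact (v.triv c hc).le

theorem at_X_le {v : Place k K} {a : k} (h : At v (some a)) :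
    v.val (algebraMap (RatFunc k) K RatFunc.X) ≤ 1 := by
  have h1 : algebraMap (RatFunc k) K RatFunc.X =
      (algebraMap (RatFunc k) K RatFunc.X - algebraMap k K a) + algebraMap k K a := by ring
  rw [h1]
  exact (Valuation.map_add _ _ _).trans (max_le (le_of_lt h) (val_C_le' v a))

theorem at_poly_le {v : Place k K} {a : k} (h : At v (some a)) (p : k[X]) :
    v.val (algebraMap (RatFunc k) K (algebraMap k[X] (RatFunc k) p)) ≤ 1 := by
  rw [alg_poly]
  exact val_aeval_le _ _ (at_X_le h) (val_C_le' v)

theorem at_poly_eq {v : Place k K} {a : k} (h : At v (some a)) (p : k[X]) (hp : p.eval a ≠ 0) :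
    v.val (algebraMap (RatFunc k) K (algebraMap k[X] (RatFunc k) p)) = 1 := by
  obtain ⟨q, hq⟩ := X_sub_C_dvd_sub_C_eval (a := a) (p := p)
  have h1 : p = C (p.eval a) + (X - C a) * q := by rw [← hq]; ring
  rw [h1, map_add, map_add]
  have h2 : v.val (algebraMap (RatFunc k) K (algebraMap k[X] (RatFunc k) (C (p.eval a)))) = 1 := by
    rw [alg_poly, aeval_C]
    exact v.triv _ hp
  have h3 : v.val (algebraMap (RatFunc k) K (algebraMap k[X] (RatFunc k) ((X - C a) * q))) < 1 := by
    rw [map_mul, map_mul, map_mul]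
    have h4 : v.val (algebraMap (RatFunc k) K (algebraMap k[X] (RatFunc k) (X - C a))) < 1 := by
      rw [alg_poly, map_sub, aeval_X, aeval_C]
      exact h
    exact lt_of_le_of_lt (mul_le_mul' le_rfl (at_poly_le h q)) (by rwa [mul_one])
  rw [Valuation.map_add_eq_of_lt_left _ (by rw [h2]; exact h3), h2]

theorem over_some {v : Place k K} {a : k} (h : At v (some a)) (f : RatFunc k)
    (hf : (wA k a).val f ≤ 1) : v.val (algebraMap (RatFunc k) K f) ≤ 1 := by
  obtain ⟨n, d, hd⟩ := HeightOneSpectrum.exists_primeCompl_mul_eq_of_integer (hosA k a) f hf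
  have hd1 : (d : k[X]).eval a ≠ 0 := by
    intro h0
    apply d.2
    change (d : k[X]) ∈ Ideal.span {X - C a}
    rw [Ideal.mem_span_singleton, dvd_iff_isRoot]
    exact h0
  have h1 := congr_arg (fun y => v.val (algebraMap (RatFunc k) K y)) hd
  simp only [map_mul, at_poly_eq h _ hd1, mul_one] at h1
  rw [h1]
  exact at_poly_le h n

theorem over_none {v : Place k K} (h : At v none) (f : RatFunc k)
    (hf : (wInf k).val f ≤ 1) : v.val (algebraMap (RatFunc k) K f) ≤ 1 := by
  rcases eq_or_ne f 0 with rfl | hf0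
  · simp
  rw [wInf_apply k f hf0, ← WithZero.exp_zero, WithZero.exp_le_exp] at hf
  have ht : (v.val.comap (algebraMap (RatFunc k) K)).IsTrivialOn k := by
    constructor
    intro c hc
    rw [Valuation.comap_apply, ← IsScalarTower.algebraMap_apply]
    exact v.triv c hc
  have h1 := RatFunc.valuation_eq_valuation_X_zpow_intDegree_of_one_lt_valuation_X
    (v := v.val.comap (algebraMap (RatFunc k) K)) (f := f) h hf0
  rw [Valuation.comap_apply, Valuation.comap_apply] at h1
  rw [h1]
  exact zpow_le_one_of_nonpos₀ (le_of_lt h) hf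

theorem at_unique {v : Place k K} {o o' : Option k} (h : At v o) (h' : At v o') : o = o' := by
  rcases o with _ | a <;> rcases o' with _ | b
  · rfl
  · exact absurd (at_X_le h') (not_le_of_gt h)
  · exact absurd (at_X_le h) (not_le_of_gt h')
  · congr 1
    by_contra hab
    have h1 : algebraMap k K (b - a) = (algebraMap (RatFunc k) K RatFunc.X - algebraMap k K a) -
      (algebraMap (RatFunc k) K RatFunc.X - algebraMap k K b) := by rw [map_sub]; ring
    have h2 := v.triv (b - a) (sub_ne_zero.mpr (Ne.symm hab))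
    rw [h1] at h2
    have h3 := Valuation.map_sub_lt v.val h h'
    rw [h2] at h3
    exact lt_irrefl _ h3

theorem over_of_at {v : Place k K} {o : Option k} (h : At v o) (f : RatFunc k)
    (hf : (wO k o).val f ≤ 1) : v.val (algebraMap (RatFunc k) K f) ≤ 1 := by
  rcases o with _ | a
  · exact over_none h f hf
  · exact over_some h f hf

theorem exists_at [IsAlgClosed k] [FiniteDimensional (RatFunc k) K] (v : Place k K) :
    ∃ o, At v o := by
  by_cases h : 1 < v.val (algebraMap (RatFunc k) K RatFunc.X)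
  · exact ⟨none, h⟩
  · obtain ⟨a, ha⟩ := exists_residue v _ (not_lt.mp h)
    exact ⟨some a, ha⟩

theorem at_iff_over [IsAlgClosed k] [FiniteDimensional (RatFunc k) K] (v : Place k K)
    (o : Option k) : At v o ↔
      ∀ f : RatFunc k, (wO k o).val f ≤ 1 → v.val (algebraMap (RatFunc k) K f) ≤ 1 := by
  refine ⟨fun h f hf => over_of_at h f hf, fun hov => ?_⟩
  obtain ⟨o', ho'⟩ := exists_at v
  suffices h : o = o' by rw [h]; exact ho'
  -- key: `1 / (X - b)`
  have key : ∀ b : k, At v (some b) →
      ¬ (wO k o).val (algebraMap k[X] (RatFunc k) (X - C b))⁻¹ ≤ 1 := by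
    intro b hb h1
    have h2 := hov _ h1
    rw [map_inv₀, map_inv₀, alg_poly, map_sub, aeval_X, aeval_C] at h2
    have h3 : v.val (algebraMap (RatFunc k) K RatFunc.X - algebraMap k K b) < 1 := hb
    have h4 : algebraMap (RatFunc k) K RatFunc.X - algebraMap k K b ≠ 0 := by
      have h5 : algebraMap (RatFunc k) K (algebraMap k[X] (RatFunc k) (X - C b)) ≠ 0 := by
        rw [Ne, map_eq_zero, map_eq_zero_iff _ (RatFunc.algebraMap_injective k)]
        exact X_sub_C_ne_zero b
      rwa [alg_poly, map_sub, aeval_X, aeval_C] at h5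
    have h6 : 0 < v.val (algebraMap (RatFunc k) K RatFunc.X - algebraMap k K b) :=
      zero_lt_iff.mpr ((Valuation.ne_zero_iff _).mpr h4)
    rw [inv_le_one₀ h6] at h2
    exact absurd h3 (not_lt_of_ge h2)
  rcases o with _ | a <;> rcases o' with _ | b
  · rfl
  · exfalso
    apply key b ho'
    rw [map_inv₀]
    change ((wInf k).val _)⁻¹ ≤ 1
    rw [wInf_poly k _ (X_sub_C_ne_zero b), natDegree_X_sub_C, ← WithZero.exp_neg,
      ← WithZero.exp_zero, WithZero.exp_le_exp]
    norm_num
  · exfalso
    have h1 : (wO k (some a)).val RatFunc.X ≤ 1 := by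
      change (wA k a).val _ ≤ 1
      rw [← RatFunc.algebraMap_X, wA_poly k a X X_ne_zero, ← WithZero.exp_zero,
        WithZero.exp_le_exp]
      simp
    exact absurd (hov _ h1) (not_le_of_gt ho')
  · congr 1
    by_contra hab
    apply key b ho'
    rw [map_inv₀]
    change ((wA k a).val _)⁻¹ ≤ 1
    rw [wA_poly k a _ (X_sub_C_ne_zero b), rootMultiplicity_eq_zero]
    · simp
    · simpa [sub_eq_zero] using hab

end AtSec



section Assembly

variable (k : Type) [Field k] [IsAlgClosed k] (K : Type) [Field K] [Algebra k K]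
  [Algebra (RatFunc k) K] [IsScalarTower k (RatFunc k) K]
  [FiniteDimensional (RatFunc k) K] [Algebra.IsSeparable (RatFunc k) K]

theorem exists_fib (o : Option k) : ∃ A : Finset (Place k K),
    (∀ v, v ∈ A ↔ At v o) ∧ A.card ≤ Module.finrank (RatFunc k) K ∧
    ∀ z : K, ∏ v ∈ A, v.val z = (wO k o).val (Algebra.norm (RatFunc k) z) := by
  obtain ⟨A, h1, h2, h3⟩ := fiber (K := K) (wO k o)
  exact ⟨A, fun v => (h1 v).trans (at_iff_over v o).symm, h2, h3⟩

/-- the places over a point of the projective line -/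
noncomputable def fib (o : Option k) : Finset (Place k K) := (exists_fib k K o).choose

theorem mem_fib {o : Option k} {v : Place k K} : v ∈ fib k K o ↔ At v o :=
  (exists_fib k K o).choose_spec.1 v

theorem card_fib (o : Option k) : (fib k K o).card ≤ Module.finrank (RatFunc k) K :=
  (exists_fib k K o).choose_spec.2.1

theorem prod_fib (o : Option k) (z : K) :
    ∏ v ∈ fib k K o, v.val z = (wO k o).val (Algebra.norm (RatFunc k) z) :=
  (exists_fib k K o).choose_spec.2.2 z

theorem log_prod' {ι : Type*} (s : Finset ι) (f : ι → ℤᵐ⁰) (hf : ∀ i ∈ s, f i ≠ 0) :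
    WithZero.log (∏ i ∈ s, f i) = ∑ i ∈ s, WithZero.log (f i) := by
  have h : ∏ i ∈ s, f i = WithZero.exp (∑ i ∈ s, WithZero.log (f i)) := by
    rw [exp_sum]
    exact Finset.prod_congr rfl fun i hi => (WithZero.exp_log (hf i hi)).symm
  rw [h, WithZero.log_exp]

theorem sum_fib (o : Option k) (z : K) (hz : z ≠ 0) :
    ∑ v ∈ fib k K o, WithZero.log (v.val z) =
      WithZero.log ((wO k o).val (Algebra.norm (RatFunc k) z)) := by
  rw [← prod_fib, log_prod' _ _ fun v _ => (Valuation.ne_zero_iff _).mpr hz]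

theorem finsum_decomp (g : Place k K → ℤ) (T : Finset k)
    (hT : ∀ v a, At v (some a) → a ∉ T → g v = 0) :
    ∑ᶠ v, g v = ∑ v ∈ fib k K none, g v + ∑ a ∈ T, ∑ v ∈ fib k K (some a), g v := by
  classical
  rw [finsum_eq_sum_of_support_subset (s := (Finset.insertNone T).biUnion (fib k K)) g]
  · rw [Finset.sum_biUnion, Finset.sum_insertNone]
    intro o _ o' _ hne
    rw [Function.onFun, Finset.disjoint_left]
    intro v hv hv'
    exact hne (at_unique ((mem_fib k K).mp hv) ((mem_fib k K).mp hv'))
  · intro v hv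
    rw [Function.mem_support] at hv
    rw [Finset.mem_coe, Finset.mem_biUnion]
    obtain ⟨o, ho⟩ := exists_at v
    refine ⟨o, ?_, (mem_fib k K).mpr ho⟩
    rw [Finset.mem_insertNone]
    intro a ha
    subst ha
    by_contra haT
    exact hv (hT v a ho haT)

variable {k K}

theorem not_lt_one {E L : Type} [Field E] [Field L] [Algebra E L] (v : Valuation L ℤᵐ⁰) (z : L)
    (p : E[X]) (hp : aeval z p = 0) (h : ∀ i, v (algebraMap E L (p.coeff i)) ≤ 1)
    (h0 : v (algebraMap E L (p.coeff 0)) = 1) : ¬ v z < 1 := by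
  intro hz
  have h7 : p - C (p.coeff 0) = p.divX * X := by
    conv_lhs => rw [← Polynomial.divX_mul_X_add p]
    simp
  have h6 : v (aeval z (p - C (p.coeff 0))) < 1 := by
    rw [h7, map_mul, aeval_X, map_mul]
    have h8 : v (aeval z p.divX) ≤ 1 := by
      rw [aeval_eq_sum_range]
      apply Valuation.map_sum_le
      intro i _
      rw [Algebra.smul_def, map_mul, map_pow, coeff_divX]
      exact mul_le_one' (h _) (pow_le_one' hz.le i)
    exact lt_of_le_of_lt (mul_le_mul' h8 le_rfl) (by rwa [one_mul])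
  rw [map_sub, hp, aeval_C, zero_sub, Valuation.map_neg, h0] at h6
  exact lt_irrefl _ h6

theorem eq_one_of_coeff {E L : Type} [Field E] [Field L] [Algebra E L] (v : Valuation L ℤᵐ⁰)
    (z : L) (hz : z ≠ 0) (p : E[X]) (hp : aeval z p = 0) (hm : p.Monic)
    (h : ∀ i, v (algebraMap E L (p.coeff i)) ≤ 1)
    (h0 : v (algebraMap E L (p.coeff 0)) = 1) : v z = 1 := by
  have h1 := not_lt_one v z p hp h h0
  have h2 : ¬ v z⁻¹ < 1 := by
    apply not_lt_one v z⁻¹ p.reverse
    · let _ := invertibleOfNonzero hz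
      rw [aeval_def, ← invOf_eq_inv, eval₂_reverse_eq_zero_iff]
      exact hp
    · intro i
      rw [coeff_reverse]
      exact h _
    · rw [coeff_zero_reverse, hm.leadingCoeff]
      simp
  rw [not_lt] at h1 h2
  have h3 : 0 < v z := zero_lt_iff.mpr ((Valuation.ne_zero_iff _).mpr hz)
  rw [map_inv₀, one_le_inv₀ h3] at h2
  exact le_antisymm h2 h1

theorem exists_TF (f : RatFunc k) : ∃ T : Finset k, ∀ (v : Place k K) (a : k),
    At v (some a) → a ∉ T → v.val (algebraMap (RatFunc k) K f) ≤ 1 ∧
      (f ≠ 0 → v.val (algebraMap (RatFunc k) K f) = 1) := by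
  classical
  rcases eq_or_ne f 0 with rfl | hf
  · exact ⟨∅, fun v a _ _ => ⟨by simp, fun h => absurd rfl h⟩⟩
  refine ⟨(f.num * f.denom).roots.toFinset, fun v a hva haT => ?_⟩
  have hne : f.num * f.denom ≠ 0 := mul_ne_zero (RatFunc.num_ne_zero hf) f.denom_ne_zero
  have h1 : (f.num * f.denom).eval a ≠ 0 := by
    intro h
    apply haT
    rw [Multiset.mem_toFinset, mem_roots hne]
    exact h
  rw [eval_mul] at h1
  have h2 : v.val (algebraMap (RatFunc k) K f) = 1 := by
    rw [← RatFunc.num_div_denom f, map_div₀, map_div₀, at_poly_eq hva _ (left_ne_zero_of_mul h1),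
      at_poly_eq hva _ (right_ne_zero_of_mul h1), div_one]
  exact ⟨h2.le, fun _ => h2⟩

theorem exists_T (z : K) (hz : z ≠ 0) : ∃ T : Finset k, ∀ (v : Place k K) (a : k),
    At v (some a) → a ∉ T → v.val z = 1 := by
  classical
  choose TF hTF using exists_TF (k := k) (K := K)
  set p := minpoly (RatFunc k) z with hp
  have hint : IsIntegral (RatFunc k) z := IsIntegral.of_finite _ _
  refine ⟨(Finset.range (p.natDegree + 1)).biUnion fun i => TF (p.coeff i), ?_⟩
  intro v a hva haT
  have h1 : ∀ i, i < p.natDegree + 1 → a ∉ TF (p.coeff i) := by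
    intro i hi h
    exact haT (Finset.mem_biUnion.mpr ⟨i, Finset.mem_range.mpr hi, h⟩)
  apply eq_one_of_coeff v.val z hz p (minpoly.aeval _ z) (minpoly.monic hint)
  · intro i
    by_cases hi : i < p.natDegree + 1
    · exact (hTF _ v a hva (h1 i hi)).1
    · rw [coeff_eq_zero_of_natDegree_lt (by omega)]
      simp
  · exact (hTF _ v a hva (h1 0 (by omega))).2 (minpoly.coeff_zero_ne_zero hint hz)

variable (k K)

/-- (P1) finite support -/
theorem finite_support (z : K) (hz : z ≠ 0) : {v : Place k K | v.val z ≠ 1}.Finite := by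
  classical
  obtain ⟨T, hT⟩ := exists_T (k := k) z hz
  refine Set.Finite.subset ((Finset.insertNone T).biUnion (fib k K)).finite_toSet ?_
  intro v hv
  rw [Finset.mem_coe, Finset.mem_biUnion]
  obtain ⟨o, ho⟩ := exists_at v
  refine ⟨o, ?_, (mem_fib k K).mpr ho⟩
  rw [Finset.mem_insertNone]
  intro a ha
  subst ha
  by_contra haT
  exact hv (hT v a ho haT)

/-- (P4) the coordinate has a pole -/
theorem exists_pole : ∃ v : Place k K, 1 < v.val (algebraMap (RatFunc k) K RatFunc.X) := by
  by_contra hcon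
  push Not at hcon
  have h1 : fib k K none = ∅ := by
    rw [Finset.eq_empty_iff_forall_notMem]
    intro v hv
    exact absurd ((mem_fib k K).mp hv) (not_lt_of_ge (hcon v))
  have h2 := prod_fib k K none (algebraMap (RatFunc k) K RatFunc.X)
  rw [h1, Finset.prod_empty, Algebra.norm_algebraMap, map_pow] at h2
  change 1 = (wInf k).val RatFunc.X ^ _ at h2
  rw [wInf_apply k _ RatFunc.X_ne_zero, RatFunc.intDegree_X, ← WithZero.exp_nsmul,
    ← WithZero.exp_zero] at h2
  have h3 := WithZero.exp_injective h2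
  have h4 : 0 < Module.finrank (RatFunc k) K := Module.finrank_pos
  simp at h3
  omega

/-- sum of the root multiplicities -/
theorem sum_rootMult (p : k[X]) (hp : p ≠ 0) (T : Finset k) (hT : ∀ a ∉ T, p.eval a ≠ 0) :
    ∑ a ∈ T, (p.rootMultiplicity a : ℤ) = p.natDegree := by
  classical
  have h1 : p.natDegree = Multiset.card p.roots := (IsAlgClosed.splits p).natDegree_eq_card_roots
  have h2 : ∑ a ∈ p.roots.toFinset, p.roots.count a = Multiset.card p.roots :=
    Multiset.toFinset_sum_count_eq _
  rw [h1, ← h2]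
  push_cast
  simp only [count_roots]
  symm
  apply Finset.sum_subset
  · intro a ha
    by_contra haT
    rw [Multiset.mem_toFinset, mem_roots hp] at ha
    exact hT a haT ha
  · intro a _ ha
    rw [Multiset.mem_toFinset, mem_roots hp] at ha
    rw [rootMultiplicity_eq_zero ha]
    rfl

theorem log_wA (f : RatFunc k) (hf : f ≠ 0) (a : k) : WithZero.log ((wA k a).val f) =
    (f.denom.rootMultiplicity a : ℤ) - f.num.rootMultiplicity a := by
  conv_lhs => rw [← RatFunc.num_div_denom f]
  rw [map_div₀, wA_poly k a _ (RatFunc.num_ne_zero hf), wA_poly k a _ f.denom_ne_zero,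
    ← WithZero.exp_sub, WithZero.log_exp]
  ring

theorem log_wInf (f : RatFunc k) (hf : f ≠ 0) : WithZero.log ((wInf k).val f) =
    (f.num.natDegree : ℤ) - f.denom.natDegree := by
  conv_lhs => rw [← RatFunc.num_div_denom f]
  rw [map_div₀, wInf_poly k _ (RatFunc.num_ne_zero hf), wInf_poly k _ f.denom_ne_zero,
    ← WithZero.exp_sub, WithZero.log_exp]

/-- (P2) product formula -/
theorem product_formula (z : K) (hz : z ≠ 0) :
    ∑ᶠ v : Place k K, WithZero.log (v.val z) = 0 := by
  classical
  obtain ⟨T, hT⟩ := exists_T (k := k) z hz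
  set f : RatFunc k := Algebra.norm (RatFunc k) z with hf
  have hf0 : f ≠ 0 := by
    rwa [hf, Ne, Algebra.norm_eq_zero_iff]
  set T' : Finset k := T ∪ (f.num * f.denom).roots.toFinset with hT'
  have hne : f.num * f.denom ≠ 0 := mul_ne_zero (RatFunc.num_ne_zero hf0) f.denom_ne_zero
  have h1 : ∀ a ∉ T', (f.num * f.denom).eval a ≠ 0 := by
    intro a ha h
    apply ha
    rw [hT', Finset.mem_union, Multiset.mem_toFinset, mem_roots hne]
    exact Or.inr h
  rw [finsum_decomp k K _ T']
  · rw [sum_fib k K none z hz]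
    simp only [sum_fib k K _ z hz]
    change WithZero.log ((wInf k).val f) + ∑ a ∈ T', WithZero.log ((wA k a).val f) = 0
    simp only [log_wA k f hf0, log_wInf k f hf0, Finset.sum_sub_distrib]
    rw [sum_rootMult k _ (RatFunc.num_ne_zero hf0) T', sum_rootMult k _ f.denom_ne_zero T']
    · ring
    · intro a ha
      have := h1 a ha
      rw [eval_mul] at this
      exact right_ne_zero_of_mul this
    · intro a ha
      have := h1 a ha
      rw [eval_mul] at this
      exact left_ne_zero_of_mul this
  · intro v a hva ha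
    rw [hT v a hva, WithZero.log_one]
    intro h
    exact ha (Finset.mem_union_left _ h)

end Assembly



section HH

theorem le_vmax {K ι : Type} [Field K] [Fintype ι] (v : Valuation K ℤᵐ⁰) (x : ι → K) (i : ι) :
    v (x i) ≤ vmax v x := Finset.le_sup (f := fun i => v (x i)) (Finset.mem_univ i)

theorem vmax_attained {K ι : Type} [Field K] [Fintype ι] (v : Valuation K ℤᵐ⁰) (x : ι → K)
    (i₀ : ι) : ∃ i, vmax v x = v (x i) := by
  obtain ⟨i, _, hi⟩ := Finset.exists_mem_eq_sup (Finset.univ : Finset ι) ⟨i₀, Finset.mem_univ _⟩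
    (fun i => v (x i))
  exact ⟨i, hi⟩

theorem vmax_ne_zero {K ι : Type} [Field K] [Fintype ι] (v : Valuation K ℤᵐ⁰) (x : ι → K)
    (hx : ∃ i, x i ≠ 0) : vmax v x ≠ 0 := by
  obtain ⟨i, hi⟩ := hx
  have h1 := le_vmax v x i
  have h2 : 0 < v (x i) := zero_lt_iff.mpr ((Valuation.ne_zero_iff _).mpr hi)
  exact (lt_of_lt_of_le h2 h1).ne'

variable {k : Type} [Field k] [IsAlgClosed k] {K : Type} [Field K] [Algebra k K]
  [Algebra (RatFunc k) K] [IsScalarTower k (RatFunc k) K]
  [FiniteDimensional (RatFunc k) K] [Algebra.IsSeparable (RatFunc k) K]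

theorem val_comb_le (v : Place k K) {r : ℕ} (b : Fin r → K) (c : k) :
    v.val (∑ l : Fin r, algebraMap k K (c ^ (l : ℕ)) * b l) ≤ vmax v.val b := by
  apply Valuation.map_sum_le
  intro l _
  rw [map_mul]
  calc _ ≤ 1 * v.val (b l) := mul_le_mul' (val_C_le' v _) le_rfl
    _ = v.val (b l) := one_mul _
    _ ≤ _ := le_vmax _ _ _

theorem exists_bad (v : Place k K) {r : ℕ} (b : Fin r → K) (hb : ∃ l, b l ≠ 0) :
    ∃ B : Finset k, B.card ≤ r ∧ ∀ c ∉ B,
      v.val (∑ l : Fin r, algebraMap k K (c ^ (l : ℕ)) * b l) = vmax v.val b := by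
  classical
  obtain ⟨l1, hl1⟩ := hb
  obtain ⟨l0, hl0⟩ := vmax_attained v.val b l1
  have hne : v.val (b l0) ≠ 0 := by
    rw [← hl0]
    exact vmax_ne_zero _ _ ⟨l1, hl1⟩
  have hbl0 : b l0 ≠ 0 := (Valuation.ne_zero_iff _).mp hne
  have h1 : ∀ l, v.val (b l / b l0) ≤ 1 := by
    intro l
    rw [map_div₀, div_le_one₀ (zero_lt_iff.mpr hne), ← hl0]
    exact le_vmax _ _ _
  have h2 : ∀ l, ∃ c : k, v.val (b l / b l0 - algebraMap k K c) < 1 := fun l =>
    exists_residue v _ (h1 l)
  choose γ hγ using h2
  set p : k[X] := ∑ l : Fin r, C (γ l) * X ^ (l : ℕ) with hp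
  have hcoeff : p.coeff l0 = γ l0 := by
    rw [hp, finsetSum_coeff]
    simp only [coeff_C_mul, coeff_X_pow]
    rw [Finset.sum_eq_single l0]
    · simp
    · intro l _ hl
      rw [if_neg, mul_zero]
      intro h
      exact hl (Fin.ext h.symm)
    · intro h
      exact absurd (Finset.mem_univ _) h
  have hγ0 : γ l0 ≠ 0 := by
    intro h
    have := hγ l0
    rw [h, map_zero, sub_zero, div_self hbl0, map_one] at this
    exact lt_irrefl _ this
  have hp0 : p ≠ 0 := by
    intro h
    rw [h, coeff_zero] at hcoeff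
    exact hγ0 hcoeff.symm
  have hdeg : p.natDegree ≤ r := by
    rw [hp]
    apply natDegree_sum_le_of_forall_le
    intro l _
    exact (natDegree_C_mul_X_pow_le _ _).trans l.2.le
  refine ⟨p.roots.toFinset, (Multiset.toFinset_card_le _).trans ((card_roots' p).trans hdeg), ?_⟩
  intro c hc
  have hpc : p.eval c ≠ 0 := by
    intro h
    apply hc
    rw [Multiset.mem_toFinset, mem_roots hp0]
    exact h
  have h3 : ∑ l : Fin r, algebraMap k K (c ^ (l : ℕ)) * b l =
      b l0 * (algebraMap k K (p.eval c) +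
        ∑ l : Fin r, algebraMap k K (c ^ (l : ℕ)) * (b l / b l0 - algebraMap k K (γ l))) := by
    have h4 : algebraMap k K (p.eval c) =
        ∑ l : Fin r, algebraMap k K (c ^ (l : ℕ)) * algebraMap k K (γ l) := by
      rw [hp, eval_finsetSum, map_sum]
      refine Finset.sum_congr rfl fun l _ => ?_
      rw [eval_mul, eval_C, eval_pow, eval_X, ← map_mul, mul_comm]
    rw [h4, ← Finset.sum_add_distrib, Finset.mul_sum]
    refine Finset.sum_congr rfl fun l _ => ?_
    field_simp
    ring
  have h5 : v.val (∑ l : Fin r, algebraMap k K (c ^ (l : ℕ)) *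
      (b l / b l0 - algebraMap k K (γ l))) < 1 := by
    apply Valuation.map_sum_lt _ one_ne_zero
    intro l _
    rw [map_mul]
    exact lt_of_le_of_lt (mul_le_mul' (val_C_le' v _) le_rfl) (by rw [one_mul]; exact hγ l)
  rw [h3, map_mul, hl0, Valuation.map_add_eq_of_lt_left, v.triv _ hpc, mul_one]
  rw [v.triv _ hpc]
  exact h5

theorem exists_T_vmax {r : ℕ} (b : Fin r → K) (hb : ∃ l, b l ≠ 0) : ∃ T : Finset k,
    ∀ (v : Place k K) (a : k), At v (some a) → a ∉ T → vmax v.val b = 1 := by
  classical
  have h1 : ∀ l, ∃ T : Finset k, ∀ (v : Place k K) (a : k), At v (some a) → a ∉ T →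
      (v.val (b l) ≤ 1 ∧ (b l ≠ 0 → v.val (b l) = 1)) := by
    intro l
    rcases eq_or_ne (b l) 0 with h | h
    · exact ⟨∅, fun v a _ _ => ⟨by rw [h]; simp, fun h' => absurd h h'⟩⟩
    · obtain ⟨T, hT⟩ := exists_T (k := k) (b l) h
      exact ⟨T, fun v a hva ha => ⟨(hT v a hva ha).le, fun _ => hT v a hva ha⟩⟩
  choose T hT using h1
  refine ⟨Finset.univ.biUnion T, fun v a hva ha => ?_⟩
  have h2 : ∀ l, a ∉ T l := fun l h => ha (Finset.mem_biUnion.mpr ⟨l, Finset.mem_univ _, h⟩)
  obtain ⟨l, hl⟩ := hb
  apply le_antisymm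
  · apply Finset.sup_le
    intro l _
    exact (hT l v a hva (h2 l)).1
  · rw [← (hT l v a hva (h2 l)).2 hl]
    exact le_vmax _ _ _

end HH

/-- (P5) the height of a tuple in terms of norms, for a finite family of function fields over
`k(X)`. -/
theorem height_family (k : Type) [Field k] [IsAlgClosed k] {ι : Type} [Fintype ι]
    (K : ι → Type) [∀ i, Field (K i)] [∀ i, Algebra k (K i)] [∀ i, Algebra (RatFunc k) (K i)]
    [∀ i, IsScalarTower k (RatFunc k) (K i)] [∀ i, FiniteDimensional (RatFunc k) (K i)]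
    [∀ i, Algebra.IsSeparable (RatFunc k) (K i)] {r : ℕ} (b : ∀ i, Fin r → K i)
    (hb : ∀ i, ∃ l, b i l ≠ 0) (C : Finset k)
    (hC : (∑ i, Module.finrank (RatFunc k) (K i)) * r < C.card)
    (N : k → k[X])
    (hN : ∀ c ∈ C, algebraMap k[X] (RatFunc k) (N c) =
      ∏ i, Algebra.norm (RatFunc k) (∑ l : Fin r, algebraMap k (K i) (c ^ (l : ℕ)) * b i l))
    (g : k[X]) (n u : k → k[X]) (hn : ∀ c ∈ C, N c = g * n c) (hu : ∑ c ∈ C, u c * n c = 1) :
    ∑ i, degO1 k (b i) = ((C.sup fun c => (N c).natDegree : ℕ) : ℤ) - g.natDegree := by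
  classical
  -- the local constants
  set M : Option k → ℤᵐ⁰ := fun o => ∏ i, ∏ v ∈ fib k (K i) o, vmax v.val (b i) with hM
  have hM0 : ∀ o, M o ≠ 0 := fun o =>
    Finset.prod_ne_zero_iff.mpr fun i _ => Finset.prod_ne_zero_iff.mpr fun v _ =>
      vmax_ne_zero _ _ (hb i)
  have hnorm : ∀ o, ∀ c ∈ C, (wO k o).val (algebraMap k[X] (RatFunc k) (N c)) =
      ∏ i, ∏ v ∈ fib k (K i) o,
        v.val (∑ l : Fin r, algebraMap k (K i) (c ^ (l : ℕ)) * b i l) := by
    intro o c hc
    rw [hN c hc, map_prod]
    refine Finset.prod_congr rfl fun i _ => ?_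
    rw [prod_fib]
  have hle : ∀ o, ∀ c ∈ C, (wO k o).val (algebraMap k[X] (RatFunc k) (N c)) ≤ M o := by
    intro o c hc
    rw [hnorm o c hc]
    exact Finset.prod_le_prod' fun i _ => Finset.prod_le_prod' fun v _ => val_comb_le v (b i) c
  have hgood : ∀ o, ∃ c ∈ C, (wO k o).val (algebraMap k[X] (RatFunc k) (N c)) = M o := by
    intro o
    have h1 : ∀ i, ∀ v : Place k (K i), ∃ B : Finset k, B.card ≤ r ∧ ∀ c ∉ B,
      v.val (∑ l : Fin r, algebraMap k (K i) (c ^ (l : ℕ)) * b i l) = vmax v.val (b i) :=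
      fun i v => exists_bad v (b i) (hb i)
    choose B hB1 hB2 using h1
    set BB : Finset k := Finset.univ.biUnion fun i => (fib k (K i) o).biUnion (B i) with hBB
    have h2 : BB.card < C.card := by
      refine lt_of_le_of_lt ?_ hC
      rw [hBB, Finset.sum_mul]
      refine Finset.card_biUnion_le.trans (Finset.sum_le_sum fun i _ => ?_)
      refine Finset.card_biUnion_le.trans ?_
      refine (Finset.sum_le_card_nsmul _ _ r fun v _ => hB1 i v).trans ?_
      rw [smul_eq_mul]
      exact Nat.mul_le_mul_right _ (card_fib k (K i) o)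
    obtain ⟨c, hcC, hcB⟩ := Finset.exists_mem_notMem_of_card_lt_card h2
    refine ⟨c, hcC, ?_⟩
    rw [hnorm o c hcC]
    refine Finset.prod_congr rfl fun i _ => Finset.prod_congr rfl fun v hv => ?_
    apply hB2
    intro h
    apply hcB
    rw [hBB, Finset.mem_biUnion]
    exact ⟨i, Finset.mem_univ _, Finset.mem_biUnion.mpr ⟨v, hv, h⟩⟩
  have hNne : ∀ o, ∀ c ∈ C, (wO k o).val (algebraMap k[X] (RatFunc k) (N c)) = M o → N c ≠ 0 := by
    intro o c _ h h0
    rw [h0, map_zero, map_zero] at h
    exact hM0 o h.symm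
  -- infinity
  have hinf : WithZero.log (M none) = ((C.sup fun c => (N c).natDegree : ℕ) : ℤ) := by
    obtain ⟨c, hcC, hc⟩ := hgood none
    have hc0 := hNne none c hcC hc
    change (wInf k).val _ = _ at hc
    rw [wInf_poly k _ hc0] at hc
    have h3 : (C.sup fun c => (N c).natDegree : ℕ) = (N c).natDegree := by
      apply le_antisymm
      · apply Finset.sup_le
        intro c' hc'
        rcases eq_or_ne (N c') 0 with h0 | h0
        · rw [h0, natDegree_zero]; exact Nat.zero_le _
        · have h4 := hle none c' hc'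
          change (wInf k).val _ ≤ _ at h4
          rw [wInf_poly k _ h0, ← hc, WithZero.exp_le_exp] at h4
          exact_mod_cast h4
      · exact Finset.le_sup (f := fun c => (N c).natDegree) hcC
    rw [h3, ← hc, WithZero.log_exp]
  have hg0 : g ≠ 0 := by
    obtain ⟨c, hcC, hc⟩ := hgood none
    have hc0 := hNne none c hcC hc
    rw [hn c hcC] at hc0
    exact left_ne_zero_of_mul hc0
  -- finite places
  have hfin : ∀ a, WithZero.log (M (some a)) = -(g.rootMultiplicity a : ℤ) := by
    intro a
    obtain ⟨c, hcC, hc⟩ := hgood (some a)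
    have hc0 := hNne (some a) c hcC hc
    change (wA k a).val _ = _ at hc
    rw [wA_poly k a _ hc0] at hc
    -- a good `n c1`
    obtain ⟨c1, hc1C, hc1⟩ : ∃ c1 ∈ C, (n c1).eval a ≠ 0 := by
      by_contra hcon
      push Not at hcon
      have h5 := congr_arg (Polynomial.eval a) hu
      rw [eval_finsetSum, eval_one, Finset.sum_eq_zero] at h5
      · exact zero_ne_one h5
      · intro c' hc'
        rw [eval_mul, hcon c' hc', mul_zero]
    have hn1 : n c1 ≠ 0 := by
      intro h; rw [h, eval_zero] at hc1; exact hc1 rfl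
    have h6 : N c1 ≠ 0 := by rw [hn c1 hc1C]; exact mul_ne_zero hg0 hn1
    have h7 := hle (some a) c1 hc1C
    change (wA k a).val _ ≤ _ at h7
    rw [wA_poly k a _ h6, ← hc, WithZero.exp_le_exp] at h7
    have h8 : (N c1).rootMultiplicity a = g.rootMultiplicity a := by
      rw [hn c1 hc1C, rootMultiplicity_mul (mul_ne_zero hg0 hn1),
        rootMultiplicity_eq_zero (p := n c1) hc1, add_zero]
    have h9 : g.rootMultiplicity a ≤ (N c).rootMultiplicity a := by
      rw [hn c hcC] at hc0 ⊢
      rw [rootMultiplicity_mul hc0]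
      exact Nat.le_add_right _ _
    rw [← hc, WithZero.log_exp]
    rw [h8] at h7
    have h10 : (g.rootMultiplicity a : ℤ) ≤ (N c).rootMultiplicity a := by exact_mod_cast h9
    linarith
  -- the finite set of points
  choose T0 hT0 using fun i => exists_T_vmax (k := k) (b i) (hb i)
  set T : Finset k := (Finset.univ.biUnion T0) ∪ g.roots.toFinset with hT
  have hdec : ∀ i, degO1 k (b i) =
      ∑ v ∈ fib k (K i) none, WithZero.log (vmax v.val (b i)) +
      ∑ a ∈ T, ∑ v ∈ fib k (K i) (some a), WithZero.log (vmax v.val (b i)) := by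
    intro i
    apply finsum_decomp
    intro v a hva ha
    rw [hT0 i v a hva, WithZero.log_one]
    intro h
    apply ha
    rw [hT, Finset.mem_union, Finset.mem_biUnion]
    exact Or.inl ⟨i, Finset.mem_univ _, h⟩
  have hlogM : ∀ o, ∑ i, ∑ v ∈ fib k (K i) o, WithZero.log (vmax v.val (b i)) =
      WithZero.log (M o) := by
    intro o
    rw [hM]
    rw [log_prod']
    · refine Finset.sum_congr rfl fun i _ => ?_
      rw [log_prod']
      intro v _
      exact vmax_ne_zero _ _ (hb i)
    · intro i _
      exact Finset.prod_ne_zero_iff.mpr fun v _ => vmax_ne_zero _ _ (hb i)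
  simp only [hdec]
  rw [Finset.sum_add_distrib, hlogM, Finset.sum_comm]
  simp only [hlogM, hfin]
  rw [hinf, Finset.sum_neg_distrib, sum_rootMult k g hg0 T]
  · ring
  · intro a ha h
    apply ha
    rw [hT, Finset.mem_union, Multiset.mem_toFinset, mem_roots hg0]
    exact Or.inr h

end NefRed
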